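import Pool.Agent.Y933.KD.Mult
import Pool.Agent.Y933.KD.VdC2
import Pool.Agent.W301.SS.Vino
import Pool.Agent.TH915.PW.PrimeSum

/-!
# Multiples by primes (helper933)

The bound of Vinogradov for the exponential sums over the primes gives small Fourier coefficients
for the multiples `p ξ + y`, `p ≤ M` a prime, of an algebraic irrational number `ξ`.
-/

set_option autoImplicit false

namespace Pool.Agent.Y933.KD

open Finset Real MeasureTheory Filter
open Pool.Agent.H807R2.Dav (ee)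
open Pool.Agent.W301.SS (SL VB VB_mono vino)
open Pool.Agent.TH915.PW (abel_bound prime_bound)

/-- the primes up to `M` -/
def PR (M : ℕ) : Finset ℕ := (Finset.Icc 1 M).filter Nat.Prime

lemma ee_eq (x : ℝ) : ee x = e x := by
  unfold ee e
  congr 1
  push_cast
  ring

lemma SL_Ioc {t : ℕ} (ht : 1 ≤ t) (α : ℝ) :
    ∑ n ∈ Ioc 1 t, ((ArithmeticFunction.vonMangoldt n : ℝ) : ℂ) * e (n * α) = SL t α := by
  unfold SL
  rw [← Finset.Ioc_insert_left ht, sum_insert (by simp)]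
  simp [ee_eq]

/-- from the von Mangoldt sums to the primes -/
lemma prime_sum {M : ℕ} (hM : 2 ≤ M) (α : ℝ) (E : ℝ)
    (h : ∀ t : ℕ, 1 ≤ t → t ≤ M → ‖SL t α‖ ≤ E) :
    ‖∑ p ∈ PR M, e (p * α)‖ ≤ (E + 2 * √M * log M) / log 2 := by
  have hM0 : (0 : ℝ) < M := by exact_mod_cast (by omega : 0 < M)
  set w : ℕ → ℝ := fun n => 1 / log n with hw
  set a : ℕ → ℂ := fun n => (((if n.Prime then Real.log n else 0 : ℝ)) : ℂ) * e (n * α) with ha
  have h1 : ∀ t : ℕ, 1 < t → t ≤ M → ‖∑ i ∈ Ioc 1 t, a i‖ ≤ E + 2 * √M * log M := by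
    intro t ht htM
    have h2 : ‖∑ n ∈ Ioc 1 t, ((ArithmeticFunction.vonMangoldt n : ℝ) : ℂ) * e (n * α)‖ ≤ E := by
      rw [SL_Ioc ht.le]
      exact h t ht.le htM
    refine (prime_bound 1 t ht.le (fun n => e (n * α)) (fun n => (norm_e _).le) E h2).trans ?_
    have ht0 : (0 : ℝ) < t := by exact_mod_cast (by omega : 0 < t)
    have htM' : (t : ℝ) ≤ M := by exact_mod_cast htM
    have ht1 : (1 : ℝ) ≤ t := by exact_mod_cast ht.le
    have h3 : 0 ≤ log (t : ℝ) := Real.log_nonneg ht1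
    gcongr
  have h2 := abel_bound w a 1 (E + 2 * √M * log M)
    (fun n hn => by
      have : (1 : ℝ) ≤ n := by exact_mod_cast hn.le
      exact one_div_nonneg.2 (Real.log_nonneg this))
    (fun n hn => by
      have h3 : (1 : ℝ) < n := by exact_mod_cast hn
      have h4 : 0 < log (n : ℝ) := Real.log_pos h3
      simp only [hw]
      apply one_div_le_one_div_of_le h4
      apply Real.log_le_log (by linarith)
      push_cast
      linarith) M (by omega) h1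
  have h3 : ∑ i ∈ Ioc 1 M, (w i : ℂ) * a i = ∑ p ∈ PR M, e (p * α) := by
    unfold PR
    rw [sum_filter, ← Finset.Ioc_insert_left (by omega : 1 ≤ M), sum_insert (by simp),
      if_neg Nat.not_prime_one, zero_add]
    refine sum_congr rfl fun n hn => ?_
    rw [mem_Ioc] at hn
    have h4 : (1 : ℝ) < n := by exact_mod_cast hn.1
    have h5 : log (n : ℝ) ≠ 0 := (Real.log_pos h4).ne'
    simp only [ha, hw]
    split_ifs with hp
    · rw [← mul_assoc, ← Complex.ofReal_mul, one_div, inv_mul_cancel₀ h5]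
      simp
    · simp
  rw [h3] at h2
  refine h2.trans ?_
  simp only [hw]
  push_cast
  norm_num
  rw [div_eq_inv_mul]

lemma card_PR_eq (M : ℕ) : (PR M).card = Nat.primeCounting M := by
  unfold PR
  rw [Nat.primeCounting, Nat.primeCounting', Nat.count_eq_card_filter_range]
  congr 1
  ext p
  simp only [mem_filter, mem_Icc, mem_range]
  constructor
  · rintro ⟨⟨h1, h2⟩, h3⟩
    exact ⟨by omega, h3⟩
  · rintro ⟨h1, h3⟩
    exact ⟨⟨h3.one_lt.le, by omega⟩, h3⟩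

/-- there are many primes -/
lemma card_PR {a : ℝ} (ha : 0 < a) :
    ∃ M0 : ℕ, ∀ M : ℕ, M0 ≤ M → (M : ℝ) ^ (1 - a) ≤ (PR M).card := by
  have hl2 := Real.log_pos one_lt_two
  have h1 : ∀ᶠ M : ℕ in atTop, 2 / log 2 * log M ≤ (M : ℝ) ^ a := by
    have h3 := (isLittleO_log_rpow_atTop ha).comp_tendsto tendsto_natCast_atTop_atTop
    have h4 := h3.def (c := log 2 / 2) (by positivity)
    filter_upwards [h4, eventually_ge_atTop 1] with M hM hM1
    simp only [Function.comp, Real.norm_eq_abs] at hM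
    have hM1' : (1 : ℝ) ≤ M := by exact_mod_cast hM1
    rw [abs_of_nonneg (Real.log_nonneg hM1'), abs_of_nonneg (by positivity)] at hM
    calc 2 / log 2 * log M ≤ 2 / log 2 * (log 2 / 2 * (M : ℝ) ^ a) := by gcongr
      _ = (M : ℝ) ^ a := by field_simp
  have h2 : ∀ᶠ M : ℕ in atTop, log ((M : ℝ) + 1) ≤ M * (log 2 / 2) := by
    have h3 := Real.isLittleO_log_id_atTop.comp_tendsto
      (tendsto_atTop_add_const_right atTop (1 : ℝ) tendsto_natCast_atTop_atTop)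
    have h4 := h3.def (c := log 2 / 4) (by positivity)
    filter_upwards [h4, eventually_ge_atTop 1] with M hM hM1
    have hM1' : (1 : ℝ) ≤ M := by exact_mod_cast hM1
    simp only [Function.comp, id, Real.norm_eq_abs] at hM
    rw [abs_of_nonneg (by linarith : (0 : ℝ) ≤ (M : ℝ) + 1)] at hM
    calc log ((M : ℝ) + 1) ≤ |log ((M : ℝ) + 1)| := le_abs_self _
      _ ≤ log 2 / 4 * ((M : ℝ) + 1) := hM
      _ ≤ log 2 / 4 * (2 * M) := by gcongr; linarith
      _ = M * (log 2 / 2) := by ring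
  obtain ⟨M0, hM0⟩ := eventually_atTop.1 (h1.and h2)
  refine ⟨max M0 2, fun M hM => ?_⟩
  obtain ⟨h3, h4⟩ := hM0 M (le_of_max_le_left hM)
  have hM2 : (2 : ℝ) ≤ M := by exact_mod_cast le_of_max_le_right hM
  have hlM : 0 < log (M : ℝ) := Real.log_pos (by linarith)
  have hMp : (0 : ℝ) < M := by linarith
  rw [card_PR_eq]
  refine le_trans ?_ (Chebyshev.pi_ge M)
  rw [le_div_iff₀ hlM]
  have h5 : (M : ℝ) ^ (1 - a) * log M ≤ M * (log 2 / 2) := by
    have h6 : (M : ℝ) ^ (1 - a) * (M : ℝ) ^ a = M := by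
      rw [← Real.rpow_add hMp]
      norm_num
    have h7 : log (M : ℝ) ≤ log 2 / 2 * (M : ℝ) ^ a := by
      calc log (M : ℝ) = log 2 / 2 * (2 / log 2 * log M) := by field_simp
        _ ≤ log 2 / 2 * (M : ℝ) ^ a := by gcongr
    calc (M : ℝ) ^ (1 - a) * log M ≤ (M : ℝ) ^ (1 - a) * (log 2 / 2 * (M : ℝ) ^ a) := by gcongr
      _ = log 2 / 2 * ((M : ℝ) ^ (1 - a) * (M : ℝ) ^ a) := by ring
      _ = M * (log 2 / 2) := by rw [h6]; ring
  linarith

/-- the exponential sums over the primes at the frequencies of the problem -/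
lemma prime_freq (ξ : ℝ) (halg : IsAlgebraic ℚ ξ) (hirr : Irrational ξ) (B k : ℕ) (A : ℝ) :
    ∃ κ : ℝ, 0 < κ ∧ ∃ M0 : ℕ, ∀ M : ℕ, M0 ≤ M → ∀ (b n : Fin k → ℕ) (h : Fin k → ℤ),
      (∀ i, 1 ≤ b i ∧ b i ≤ B) → (∀ i, (n i : ℝ) ≤ A * log M) → (∀ i, |(h i : ℝ)| ≤ (M : ℝ) ^ κ) →
      ∑ i, h i * (b i : ℤ) ^ n i ≠ 0 →
      ‖∑ p ∈ PR M, e (p * (((∑ i, h i * (b i : ℤ) ^ n i : ℤ) : ℝ) * ξ))‖ ≤ (M : ℝ) ^ (1 - κ) := by
  obtain ⟨η0, hη0, L0, hL0⟩ := dioph ξ halg hirr B k (1 / (4 * max A 1)) (by positivity)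
  obtain ⟨C, hC, hvino⟩ := vino
  have hA : 0 < max A 1 := by positivity
  set κ : ℝ := min (η0 * max A 1 / 2) (1 / 8) with hκ
  have hκ0 : 0 < κ := lt_min (by positivity) (by norm_num)
  have hκ1 : κ ≤ 1 / 8 := min_le_right _ _
  have hκ2 : 2 * κ ≤ η0 * max A 1 := by
    have : κ ≤ η0 * max A 1 / 2 := min_le_left _ _
    linarith
  have hev := (VdC.ev_le (C * (1 + 1 / (κ / 56)) ^ 7 * 3 / log 2 + (2 * (1 + 1 / (κ / 8))) / log 2)
    (κ / 8) (by positivity))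
  obtain ⟨M1, hM1⟩ := eventually_atTop.1 hev
  refine ⟨κ / 4, by positivity, max M1 (⌈exp |L0|⌉₊ + 2), ?_⟩
  intro M hM b n h hb hn hh hne
  have hM2 := hM1 M (le_of_max_le_left hM)
  have hM3 : ⌈exp |L0|⌉₊ + 2 ≤ M := le_of_max_le_right hM
  have hM4 : 2 ≤ M := by omega
  have hMR : (1 : ℝ) ≤ M := by exact_mod_cast (by omega : 1 ≤ M)
  have hMp : (0 : ℝ) < M := by linarith
  have hlog : |L0| ≤ log M := by
    rw [← Real.log_exp |L0|]
    apply Real.log_le_log (exp_pos _)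
    calc exp |L0| ≤ (⌈exp |L0|⌉₊ : ℝ) := Nat.le_ceil _
      _ ≤ M := by exact_mod_cast (by omega : ⌈exp |L0|⌉₊ ≤ M)
  have hlog0 : 0 ≤ log M := (abs_nonneg _).trans hlog
  have hL : L0 ≤ max A 1 * log M := by
    calc L0 ≤ |L0| := le_abs_self _
      _ ≤ log M := hlog
      _ = 1 * log M := (one_mul _).symm
      _ ≤ max A 1 * log M := by gcongr; exact le_max_right _ _
  set ℓ : ℤ := ∑ i, h i * (b i : ℤ) ^ n i with hℓ
  set α : ℝ := (ℓ : ℝ) * ξ with hα
  -- Dirichlet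
  set n0 : ℕ := ⌊√(M : ℝ)⌋₊ with hn0
  have hsq1 : 1 ≤ √(M : ℝ) := by
    rw [Real.one_le_sqrt]; exact hMR
  have hn01 : 0 < n0 := Nat.floor_pos.2 hsq1
  have hn02 : (n0 : ℝ) ≤ √M := Nat.floor_le (by positivity)
  have hn03 : √(M : ℝ) < n0 + 1 := Nat.lt_floor_add_one _
  obtain ⟨r, hr1, hr2⟩ := Real.exists_rat_abs_sub_le_and_den_le α hn01
  have hq0 : 0 < r.den := r.den_pos
  have hqR : (0 : ℝ) < r.den := by exact_mod_cast hq0
  have hq1 : (1 : ℝ) ≤ r.den := by exact_mod_cast hq0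
  have hq2 : (r.den : ℝ) ≤ n0 := by exact_mod_cast hr2
  have hr3 : (r : ℝ) = (r.num : ℝ) / (r.den : ℝ) := Rat.cast_def r
  rw [hr3] at hr1
  have happ : |α - r.num / r.den| ≤ 1 / (r.den : ℝ) ^ 2 := by
    refine hr1.trans ?_
    apply one_div_le_one_div_of_le (by positivity)
    rw [sq]
    gcongr
    linarith
  have hcop : IsCoprime r.num (r.den : ℤ) := by
    rw [Int.isCoprime_iff_gcd_eq_one]
    exact r.reduced
  -- the denominator is large
  have hqbig : (M : ℝ) ^ κ < r.den := by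
    by_contra hcon
    push Not at hcon
    have hexp : exp (-(1 / (4 * max A 1) * (max A 1 * log M))) = (M : ℝ) ^ (-(1 / 4) : ℝ) := by
      rw [Real.rpow_def_of_pos hMp]
      congr 1
      field_simp
    have hs : ∑ i, (r.den : ℤ) * h i * (b i : ℤ) ^ n i = r.den * ℓ := by
      rw [hℓ, mul_sum]
      exact sum_congr rfl fun i _ => by ring
    have key := hL0 (max A 1 * log M) hL b n (fun i => (r.den : ℤ) * h i) r.num hb
      (fun i => (hn i).trans (by gcongr; exact le_max_left _ _))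
      (fun i => by
        push_cast
        rw [abs_mul, abs_of_pos hqR]
        calc (r.den : ℝ) * |(h i : ℝ)| ≤ (M : ℝ) ^ κ * (M : ℝ) ^ (κ / 4) := by
              gcongr
              exact hh i
          _ = (M : ℝ) ^ (κ + κ / 4) := by rw [← Real.rpow_add hMp]
          _ ≤ (M : ℝ) ^ (η0 * max A 1) := by
              apply Real.rpow_le_rpow_of_exponent_le hMR
              linarith
          _ = exp (η0 * (max A 1 * log M)) := by
              rw [Real.rpow_def_of_pos hMp]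
              congr 1
              ring) (by
        rw [hs]
        exact mul_ne_zero (by exact_mod_cast hq0.ne') hne)
    rw [hexp, hs] at key
    have h1 : |ξ * (((r.den : ℤ) * ℓ : ℤ) : ℝ) - r.num| = r.den * |α - r.num / r.den| := by
      rw [← abs_of_pos hqR, ← abs_mul, abs_of_pos hqR]
      congr 1
      push_cast
      rw [hα]
      field_simp
    rw [h1] at key
    have h2 : (r.den : ℝ) * |α - r.num / r.den| ≤ 1 / (n0 + 1) := by
      calc (r.den : ℝ) * |α - r.num / r.den| ≤ r.den * (1 / ((n0 + 1) * r.den)) := by gcongr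
        _ = 1 / (n0 + 1) := by field_simp
    have h3 : (1 : ℝ) / (n0 + 1) ≤ (M : ℝ) ^ (-(1 / 2) : ℝ) := by
      rw [Real.rpow_neg hMp.le, ← Real.sqrt_eq_rpow, ← one_div]
      exact one_div_le_one_div_of_le (by positivity) hn03.le
    have h4 : (M : ℝ) ^ (-(1 / 2) : ℝ) ≤ (M : ℝ) ^ (-(1 / 4) : ℝ) :=
      Real.rpow_le_rpow_of_exponent_le hMR (by norm_num)
    linarith
  -- the bound for the sums over the integers
  have hVB : VB M r.den ≤ 3 * (M : ℝ) ^ (1 - κ / 2) := by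
    unfold VB
    have h1 : (M : ℝ) / √r.den ≤ (M : ℝ) ^ (1 - κ / 2) := by
      have h2 : (M : ℝ) ^ (κ / 2) ≤ √r.den := by
        have : (M : ℝ) ^ (κ / 2) = √((M : ℝ) ^ κ) := by
          rw [Real.sqrt_eq_rpow, ← Real.rpow_mul hMp.le]
          congr 1
          ring
        rw [this]
        exact Real.sqrt_le_sqrt hqbig.le
      rw [div_le_iff₀ (Real.sqrt_pos.2 hqR)]
      calc (M : ℝ) = (M : ℝ) ^ (1 - κ / 2) * (M : ℝ) ^ (κ / 2) := by
            rw [← Real.rpow_add hMp]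
            norm_num
        _ ≤ (M : ℝ) ^ (1 - κ / 2) * √r.den := by gcongr
    have h2 : (M : ℝ) ^ (4 / 5 : ℝ) ≤ (M : ℝ) ^ (1 - κ / 2) :=
      Real.rpow_le_rpow_of_exponent_le hMR (by linarith)
    have h3 : √((M : ℝ) * r.den) ≤ (M : ℝ) ^ (1 - κ / 2) := by
      calc √((M : ℝ) * r.den) ≤ √((M : ℝ) * √M) := by
            apply Real.sqrt_le_sqrt
            gcongr
            linarith
        _ = (M : ℝ) ^ (3 / 4 : ℝ) := by
            rw [Real.sqrt_eq_rpow, Real.sqrt_eq_rpow]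
            nth_rewrite 1 [← Real.rpow_one (M : ℝ)]
            rw [← Real.rpow_add hMp, ← Real.rpow_mul hMp.le]
            norm_num
        _ ≤ (M : ℝ) ^ (1 - κ / 2) := Real.rpow_le_rpow_of_exponent_le hMR (by linarith)
    linarith
  have hlog7 : (1 + log (M : ℝ)) ^ 7 ≤ (1 + 1 / (κ / 56)) ^ 7 * (M : ℝ) ^ (κ / 8) := by
    calc (1 + log (M : ℝ)) ^ 7 ≤ ((1 + 1 / (κ / 56)) * (M : ℝ) ^ (κ / 56)) ^ 7 := by
          gcongr
          exact VdC.one_add_log_le hMR (by positivity)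
      _ = (1 + 1 / (κ / 56)) ^ 7 * (M : ℝ) ^ (κ / 8) := by
          rw [mul_pow, ← Real.rpow_natCast ((M : ℝ) ^ (κ / 56)), ← Real.rpow_mul hMp.le]
          congr 2
          push_cast
          ring
  have hSL : ∀ t : ℕ, 1 ≤ t → t ≤ M → ‖SL t α‖ ≤
      C * (1 + 1 / (κ / 56)) ^ 7 * 3 * (M : ℝ) ^ (1 - 3 * κ / 8) := by
    intro t ht htM
    have ht1 : (1 : ℝ) ≤ t := by exact_mod_cast ht
    have ht0 : (0 : ℝ) < t := by linarith
    have htM' : (t : ℝ) ≤ M := by exact_mod_cast htM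
    have hlt : 0 ≤ log (t : ℝ) := Real.log_nonneg ht1
    have hltM : log (t : ℝ) ≤ log M := Real.log_le_log ht0 htM'
    have hVB0 : 0 ≤ VB t r.den := by unfold VB; positivity
    calc ‖SL t α‖ ≤ C * (1 + log t) ^ 7 * VB t r.den :=
          hvino t r.den ht hq0 r.num hcop α happ
      _ ≤ C * ((1 + 1 / (κ / 56)) ^ 7 * (M : ℝ) ^ (κ / 8)) * (3 * (M : ℝ) ^ (1 - κ / 2)) := by
          have h1 : VB t r.den ≤ 3 * (M : ℝ) ^ (1 - κ / 2) := (VB_mono ht0.le htM' hqR).trans hVB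
          have h2 : (1 + log (t : ℝ)) ^ 7 ≤ (1 + 1 / (κ / 56)) ^ 7 * (M : ℝ) ^ (κ / 8) := by
            refine le_trans ?_ hlog7
            gcongr
          gcongr
      _ = C * (1 + 1 / (κ / 56)) ^ 7 * 3 * ((M : ℝ) ^ (κ / 8) * (M : ℝ) ^ (1 - κ / 2)) := by ring
      _ = C * (1 + 1 / (κ / 56)) ^ 7 * 3 * (M : ℝ) ^ (1 - 3 * κ / 8) := by
          rw [← Real.rpow_add hMp]
          congr 2
          ring
  refine (prime_sum hM4 α _ hSL).trans ?_
  have h1 : 2 * √(M : ℝ) * log M ≤ 2 * (1 + 1 / (κ / 8)) * (M : ℝ) ^ (1 - 3 * κ / 8) := by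
    have h2 : log (M : ℝ) ≤ (1 + 1 / (κ / 8)) * (M : ℝ) ^ (κ / 8) := by
      have := VdC.one_add_log_le hMR (a := κ / 8) (by positivity)
      linarith
    calc 2 * √(M : ℝ) * log M ≤ 2 * (M : ℝ) ^ (1 / 2 : ℝ) *
          ((1 + 1 / (κ / 8)) * (M : ℝ) ^ (κ / 8)) := by
          rw [← Real.sqrt_eq_rpow]
          gcongr
      _ = 2 * (1 + 1 / (κ / 8)) * ((M : ℝ) ^ (1 / 2 : ℝ) * (M : ℝ) ^ (κ / 8)) := by ring
      _ = 2 * (1 + 1 / (κ / 8)) * (M : ℝ) ^ (1 / 2 + κ / 8) := by rw [← Real.rpow_add hMp]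
      _ ≤ 2 * (1 + 1 / (κ / 8)) * (M : ℝ) ^ (1 - 3 * κ / 8) := by
          gcongr
          linarith
  have hl2 := Real.log_pos one_lt_two
  calc (C * (1 + 1 / (κ / 56)) ^ 7 * 3 * (M : ℝ) ^ (1 - 3 * κ / 8) + 2 * √(M : ℝ) * log M) / log 2
      ≤ (C * (1 + 1 / (κ / 56)) ^ 7 * 3 * (M : ℝ) ^ (1 - 3 * κ / 8) +
        2 * (1 + 1 / (κ / 8)) * (M : ℝ) ^ (1 - 3 * κ / 8)) / log 2 := by gcongr
    _ = (C * (1 + 1 / (κ / 56)) ^ 7 * 3 / log 2 + (2 * (1 + 1 / (κ / 8))) / log 2) *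
        (M : ℝ) ^ (1 - 3 * κ / 8) := by ring
    _ ≤ (M : ℝ) ^ (κ / 8) * (M : ℝ) ^ (1 - 3 * κ / 8) := by gcongr
    _ = (M : ℝ) ^ (1 - κ / 4) := by
        rw [← Real.rpow_add hMp]
        congr 1
        ring

/-- the measures of the problem: all shifts -/
def SPr (ξ : ℝ) (M : ℕ) : Set (Measure ℝ) :=
  {P | 2 ≤ M ∧ ∃ y : ℝ, P = unif (PR M) (fun p => p * ξ + y)}

lemma PR_nonempty {M : ℕ} (hM : 2 ≤ M) : (PR M).Nonempty :=
  ⟨2, by simp [PR, hM, Nat.prime_two]⟩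

lemma SPr_prob (ξ : ℝ) (M : ℕ) (_hM : 1 ≤ M) (P : Measure ℝ) (hP : P ∈ SPr ξ M) :
    IsProbabilityMeasure P := by
  obtain ⟨h2, y, rfl⟩ := hP
  exact unif_prob (PR_nonempty h2) _

theorem good_prime (ξ : ℝ) (halg : IsAlgebraic ℚ ξ) (hirr : Irrational ξ) (B k : ℕ) (A : ℝ) :
    Good B k A (SPr ξ) := by
  obtain ⟨κ, hκ, M1, hM1⟩ := prime_freq ξ halg hirr B k A
  obtain ⟨M2, hM2⟩ := card_PR (a := κ / 2) (by positivity)
  refine ⟨κ / 2, by positivity, max M1 (max M2 2), fun M hM P hP b n h hb hn hh hne => ?_⟩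
  obtain ⟨h2, y, rfl⟩ := hP
  have hMR : (1 : ℝ) ≤ M := by exact_mod_cast (by omega : 1 ≤ M)
  have hMp : (0 : ℝ) < M := by linarith
  have h3 := hM1 M (le_of_max_le_left hM) b n h hb hn (fun i => (hh i).trans (by
    apply Real.rpow_le_rpow_of_exponent_le hMR
    linarith)) hne
  have h4 := hM2 M (le_of_max_le_left (le_of_max_le_right hM))
  have h5 : (0 : ℝ) < (PR M).card := lt_of_lt_of_le (by positivity) h4
  set ℓ : ℤ := ∑ i, h i * (b i : ℤ) ^ n i with hℓ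
  unfold hat
  rw [integral_unif]
  have h6 : ∑ p ∈ PR M, e (ℓ * (p * ξ + y)) = e (ℓ * y) * ∑ p ∈ PR M, e (p * ((ℓ : ℝ) * ξ)) := by
    rw [mul_sum]
    refine sum_congr rfl fun p _ => ?_
    rw [← e_add]
    congr 1
    ring
  rw [h6, norm_mul, norm_mul, norm_e, one_mul, norm_div, norm_one, Complex.norm_natCast]
  calc 1 / ((PR M).card : ℝ) * ‖∑ p ∈ PR M, e (p * ((ℓ : ℝ) * ξ))‖
      ≤ 1 / (M : ℝ) ^ (1 - κ / 2) * (M : ℝ) ^ (1 - κ) := by gcongr
    _ = (M : ℝ) ^ (-(κ / 2)) := by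
        rw [one_div, ← Real.rpow_neg hMp.le, ← Real.rpow_add hMp]
        congr 1
        ring

end Pool.Agent.Y933.KD
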