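import Pool.Agent.Y933.KD.Power

/-!
# Uniform measures on finite families of real numbers (helper933)
-/

set_option autoImplicit false

namespace Pool.Agent.Y933.KD

open Finset Real MeasureTheory
open scoped ENNReal

/-- the uniform probability measure on the family `x m`, `m ∈ s` -/
noncomputable def unif {ι : Type*} (s : Finset ι) (x : ι → ℝ) : Measure ℝ :=
  (s.card : ℝ≥0∞)⁻¹ • ∑ m ∈ s, Measure.dirac (x m)

lemma unif_prob {ι : Type*} {s : Finset ι} (hs : s.Nonempty) (x : ι → ℝ) :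
    IsProbabilityMeasure (unif s x) := by
  refine ⟨?_⟩
  unfold unif
  rw [Measure.smul_apply, Measure.finsetSum_apply]
  simp only [measure_univ, sum_const, smul_eq_mul, nsmul_eq_mul, mul_one]
  refine ENNReal.inv_mul_cancel ?_ (ENNReal.natCast_ne_top _)
  exact_mod_cast (Finset.card_pos.2 hs).ne'

lemma integral_unif {ι : Type*} (s : Finset ι) (x : ι → ℝ) (f : ℝ → ℂ) :
    ∫ t, f t ∂(unif s x) = (1 / s.card) * ∑ m ∈ s, f (x m) := by
  unfold unif
  rw [integral_smul_measure, integral_finsetSum_measure]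
  · simp only [integral_dirac, ENNReal.toReal_inv, ENNReal.toReal_natCast]
    rw [Complex.real_smul]
    push_cast
    rw [one_div]
  · intro m _
    exact integrable_dirac (by simp)

lemma real_unif {ι : Type*} (s : Finset ι) (x : ι → ℝ) {E : Set ℝ} [DecidablePred fun m => x m ∈ E]
    (hE : MeasurableSet E) :
    (unif s x).real E = (s.filter (fun m => x m ∈ E)).card / s.card := by
  classical
  unfold unif Measure.real
  rw [Measure.smul_apply, Measure.finsetSum_apply]
  simp only [Measure.dirac_apply' _ hE, smul_eq_mul, ENNReal.toReal_mul, ENNReal.toReal_inv,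
    ENNReal.toReal_natCast]
  have h1 : ∑ m ∈ s, E.indicator (1 : ℝ → ℝ≥0∞) (x m) = (s.filter (fun m => x m ∈ E)).card := by
    rw [card_filter]
    push_cast
    refine sum_congr rfl fun m _ => ?_
    by_cases h : x m ∈ E
    · rw [Set.indicator_of_mem h, if_pos h]; rfl
    · rw [Set.indicator_of_notMem h, if_neg h]
  rw [h1, ENNReal.toReal_natCast, div_eq_inv_mul]

lemma sum_Icc_range {E : Type*} [AddCommMonoid E] (f : ℕ → E) (M : ℕ) :
    ∑ m ∈ Finset.Icc 1 M, f m = ∑ j ∈ range M, f (j + 1) := by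
  induction M with
  | zero => simp
  | succ M ih => rw [Finset.sum_Icc_succ_top (by omega), sum_range_succ, ih]

lemma sum_e_le (M : ℕ) {α ε : ℝ} (hε : 0 < ε) (h : ∀ P : ℤ, ε ≤ |α - P|) :
    ‖∑ m ∈ Finset.Icc 1 M, e (m * α)‖ ≤ 1 / (2 * ε) := by
  have h1 : ∑ m ∈ Finset.Icc 1 M, e (m * α) = e α * D M α := by
    unfold D
    rw [sum_Icc_range (fun m : ℕ => e (m * α)), mul_sum]
    refine sum_congr rfl fun j _ => ?_
    rw [← e_add]
    congr 1
    push_cast
    ring
  rw [h1, norm_mul, norm_e, one_mul, le_div_iff₀ (by positivity)]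
  have h2 := D_mul M α
  have h3 : 2 * ε ≤ |sin (π * α)| := by
    rw [abs_sin_pi]
    have := two_mul_le_sin (abs_nonneg _) (abs_sub_round α)
    linarith [h (round α)]
  calc ‖D M α‖ * (2 * ε) ≤ ‖D M α‖ * |sin (π * α)| := by gcongr
    _ ≤ 1 := by rw [h2]; exact abs_sin_le_one _

/-- the family of the integral linear combinations of the numbers `ω j`, with coefficients in
`[1, M]`, shifted by `y` -/
noncomputable def comb {d : ℕ} (ω : Fin d → ℝ) (y : ℝ) (m : Fin d → ℕ) : ℝ := ∑ j, m j * ω j + y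

/-- the box `[1, M]^d` -/
def box (d M : ℕ) : Finset (Fin d → ℕ) := Fintype.piFinset fun _ => Finset.Icc 1 M

lemma card_box (d M : ℕ) : (box d M).card = M ^ d := by
  unfold box
  rw [Fintype.card_piFinset]
  simp

lemma hat_comb {d M : ℕ} (hM : 1 ≤ M) (ω : Fin d → ℝ) (y : ℝ) (l : ℤ) (j0 : Fin d) {ε : ℝ}
    (hε : 0 < ε) (h : ∀ P : ℤ, ε ≤ |l * ω j0 - P|) :
    ‖hat (unif (box d M) (comb ω y)) l‖ ≤ 1 / (M * (2 * ε)) := by
  have hMR : (0 : ℝ) < M := by exact_mod_cast hM
  unfold hat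
  rw [integral_unif, card_box]
  have h1 : ∑ m ∈ box d M, e (l * comb ω y m) =
      e (l * y) * ∏ j, ∑ a ∈ Finset.Icc 1 M, e (a * (l * ω j)) := by
    unfold box comb
    rw [prod_univ_sum, mul_sum]
    refine sum_congr rfl fun m _ => ?_
    rw [← e_sum, ← e_add]
    congr 1
    rw [mul_add, mul_sum, add_comm]
    congr 1
    refine sum_congr rfl fun j _ => ?_
    ring
  rw [h1, norm_mul, norm_mul, norm_e, one_mul, norm_prod]
  have h2 : ‖(1 / ((M ^ d : ℕ) : ℂ))‖ = 1 / (M : ℝ) ^ d := by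
    push_cast
    simp
  rw [h2, ← Finset.mul_prod_erase univ _ (mem_univ j0)]
  have h3 : ∏ j ∈ univ.erase j0, ‖∑ a ∈ Finset.Icc 1 M, e (a * (l * ω j))‖ ≤ (M : ℝ) ^ (d - 1) := by
    calc _ ≤ ∏ _j ∈ univ.erase j0, (M : ℝ) := by
          refine prod_le_prod (fun j _ => norm_nonneg _) fun j _ => ?_
          refine (norm_sum_le _ _).trans ?_
          simp [norm_e]
      _ = (M : ℝ) ^ (d - 1) := by
          rw [prod_const, card_erase_of_mem (mem_univ _), card_univ, Fintype.card_fin]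
  have h4 := sum_e_le M hε h
  have hd : 0 < d := Nat.pos_of_ne_zero (by rintro rfl; exact j0.elim0)
  calc 1 / (M : ℝ) ^ d * (‖∑ a ∈ Finset.Icc 1 M, e (a * (l * ω j0))‖ *
        ∏ j ∈ univ.erase j0, ‖∑ a ∈ Finset.Icc 1 M, e (a * (l * ω j))‖)
      ≤ 1 / (M : ℝ) ^ d * (1 / (2 * ε) * (M : ℝ) ^ (d - 1)) := by gcongr
    _ = 1 / (M * (2 * ε)) := by
        obtain ⟨d', rfl⟩ : ∃ d', d = d' + 1 := ⟨d - 1, by omega⟩
        rw [Nat.add_sub_cancel, pow_succ]
        field_simp

end Pool.Agent.Y933.KD
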