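import Pool.Agent.Y933.KD.VdC3
import Pool.Agent.Y933.KD.Unif

/-!
# Powers of integers in short intervals (helper933)
-/

set_option autoImplicit false

namespace Pool.Agent.Y933.KD

open Finset Real MeasureTheory Filter

lemma range_ok {c ε : ℝ} (hc : 0 < c) (hε : 0 < ε) :
    ∃ μ : ℝ, 0 < μ ∧ μ ≤ 1 / 4 ∧ ∃ M0 : ℕ, ∀ M : ℕ, M0 ≤ M → ∀ N : ℕ,
      (N : ℝ) ^ (1 / 2 + ε) ≤ M → (N : ℝ) ^ (1 - c + ε) ≤ M →
      (N : ℝ) + M + 1 ≤ (M : ℝ) ^ (2 - 4 * μ) ∧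
      ((N : ℝ) + M + 1) ^ (1 - c) ≤ (M : ℝ) ^ (1 - 4 * μ) := by
  set ε' : ℝ := min ε (1 / 4) with hε'
  have hε'0 : 0 < ε' := lt_min hε (by norm_num)
  have hε'1 : ε' ≤ 1 / 4 := min_le_right _ _
  have hε'2 : ε' ≤ ε := min_le_left _ _
  set μ : ℝ := min c (ε' / 2) / 8 with hμ
  have hμ0 : 0 < μ := by
    have : 0 < min c (ε' / 2) := lt_min hc (by positivity)
    positivity
  have hμc : 8 * μ ≤ c := by
    have := min_le_left c (ε' / 2)
    rw [hμ]; linarith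
  have hμε : 8 * μ ≤ ε' / 2 := by
    have := min_le_right c (ε' / 2)
    rw [hμ]; linarith
  obtain ⟨M1, hM1⟩ := eventually_atTop.1 (VdC.ev_le 3 (4 * μ) (by positivity))
  refine ⟨μ, hμ0, by linarith, max M1 1, ?_⟩
  intro M hM N h1 h2
  have hM2 := hM1 M (le_of_max_le_left hM)
  have hM3 : 1 ≤ M := le_of_max_le_right hM
  have hMR : (1 : ℝ) ≤ M := by exact_mod_cast hM3
  have hMp : (0 : ℝ) < M := by linarith
  have hN0 : (0 : ℝ) ≤ N := Nat.cast_nonneg N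
  -- the size of `N`
  have hpow : ∀ p : ℝ, 0 < p → (N : ℝ) ^ (p + ε) ≤ M → (N : ℝ) ^ (p + ε') ≤ M := by
    intro p hp h
    rcases Nat.eq_zero_or_pos N with rfl | hNpos
    · rw [Nat.cast_zero, Real.zero_rpow (by positivity)]
      exact hMp.le
    · have hN1 : (1 : ℝ) ≤ N := by exact_mod_cast hNpos
      exact (Real.rpow_le_rpow_of_exponent_le hN1 (by linarith)).trans h
  have h3 := hpow (1 / 2) (by norm_num) h1
  have hNle : (N : ℝ) ≤ (M : ℝ) ^ (2 - 2 * ε') := by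
    calc (N : ℝ) = ((N : ℝ) ^ (1 / 2 + ε')) ^ (1 / (1 / 2 + ε')) := by
          rw [← Real.rpow_mul hN0, mul_one_div_cancel (by positivity), Real.rpow_one]
      _ ≤ (M : ℝ) ^ (1 / (1 / 2 + ε')) := Real.rpow_le_rpow (by positivity) h3 (by positivity)
      _ ≤ (M : ℝ) ^ (2 - 2 * ε') := by
          apply Real.rpow_le_rpow_of_exponent_le hMR
          rw [div_le_iff₀ (by positivity)]
          nlinarith
  refine ⟨?_, ?_⟩
  · have h4 : (M : ℝ) ≤ (M : ℝ) ^ (2 - 2 * ε') := by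
      calc (M : ℝ) = (M : ℝ) ^ (1 : ℝ) := (Real.rpow_one _).symm
        _ ≤ _ := Real.rpow_le_rpow_of_exponent_le hMR (by linarith)
    have h5 : 1 ≤ (M : ℝ) ^ (2 - 2 * ε') := Real.one_le_rpow hMR (by linarith)
    calc (N : ℝ) + M + 1 ≤ 3 * (M : ℝ) ^ (2 - 2 * ε') := by linarith
      _ ≤ (M : ℝ) ^ (4 * μ) * (M : ℝ) ^ (2 - 2 * ε') := by gcongr
      _ = (M : ℝ) ^ (4 * μ + (2 - 2 * ε')) := (Real.rpow_add hMp _ _).symm
      _ ≤ _ := Real.rpow_le_rpow_of_exponent_le hMR (by linarith)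
  · rcases le_or_gt 1 c with hc1 | hc1
    · have h5 : ((N : ℝ) + M + 1) ^ (1 - c) ≤ 1 :=
        Real.rpow_le_one_of_one_le_of_nonpos (by linarith) (by linarith)
      exact h5.trans (Real.one_le_rpow hMR (by linarith))
    · have h4 := hpow (1 - c) (by linarith) h2
      have h5 : (N : ℝ) ^ (1 - c) ≤ (M : ℝ) ^ (1 - 8 * μ) := by
        have hpos : 0 < 1 - c + ε' := by linarith
        calc (N : ℝ) ^ (1 - c) = ((N : ℝ) ^ (1 - c + ε')) ^ ((1 - c) / (1 - c + ε')) := by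
              rw [← Real.rpow_mul hN0, mul_div_cancel₀ _ hpos.ne']
          _ ≤ (M : ℝ) ^ ((1 - c) / (1 - c + ε')) :=
              Real.rpow_le_rpow (by positivity) h4 (div_nonneg (by linarith) hpos.le)
          _ ≤ (M : ℝ) ^ (1 - 8 * μ) := by
              apply Real.rpow_le_rpow_of_exponent_le hMR
              rw [div_le_iff₀ hpos]
              nlinarith
      have h6 : (M : ℝ) ^ (1 - c) ≤ (M : ℝ) ^ (1 - 8 * μ) :=
        Real.rpow_le_rpow_of_exponent_le hMR (by linarith)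
      have h7 : (N : ℝ) + M + 1 ≤ 3 * max (N : ℝ) M := by
        have := le_max_left (N : ℝ) M
        have := le_max_right (N : ℝ) M
        linarith
      have h8 : max (N : ℝ) M ^ (1 - c) ≤ (M : ℝ) ^ (1 - 8 * μ) := by
        rcases le_total (N : ℝ) M with h | h
        · rw [max_eq_right h]; exact h6
        · rw [max_eq_left h]; exact h5
      calc ((N : ℝ) + M + 1) ^ (1 - c) ≤ (3 * max (N : ℝ) M) ^ (1 - c) :=
            Real.rpow_le_rpow (by positivity) h7 (by linarith)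
        _ = 3 ^ (1 - c) * max (N : ℝ) M ^ (1 - c) := Real.mul_rpow (by norm_num) (by positivity)
        _ ≤ 3 ^ (1 : ℝ) * (M : ℝ) ^ (1 - 8 * μ) := by
            gcongr
            · norm_num
            · linarith
        _ = 3 * (M : ℝ) ^ (1 - 8 * μ) := by rw [Real.rpow_one]
        _ ≤ (M : ℝ) ^ (4 * μ) * (M : ℝ) ^ (1 - 8 * μ) := by gcongr
        _ = (M : ℝ) ^ (1 - 4 * μ) := by
            rw [← Real.rpow_add hMp]
            congr 1
            ring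

/-- the measures of the problem: powers of the integers of an interval -/
def SR (c ε W : ℝ) (M : ℕ) : Set (Measure ℝ) :=
  {P | ∃ (N : ℕ) (ω y : ℝ), (N : ℝ) ^ (1 / 2 + ε) ≤ M ∧ (N : ℝ) ^ (1 - c + ε) ≤ M ∧
    1 ≤ |ω| ∧ |ω| ≤ (M : ℝ) ^ W ∧
    P = unif (Finset.Ioc N (N + M)) (fun m : ℕ => ω * (m : ℝ) ^ c + y)}

lemma SR_prob (c ε W : ℝ) (M : ℕ) (hM : 1 ≤ M) (P : Measure ℝ) (hP : P ∈ SR c ε W M) :
    IsProbabilityMeasure P := by
  obtain ⟨N, ω, y, _, _, _, _, rfl⟩ := hP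
  refine unif_prob ?_ _
  rw [Finset.nonempty_Ioc]
  omega

lemma size_freq {B k : ℕ} {A η : ℝ} {M : ℕ} (hM : 1 ≤ M) (hkM : k ≤ M)
    (b n : Fin k → ℕ) (h : Fin k → ℤ) (hb : ∀ i, 1 ≤ b i ∧ b i ≤ B)
    (hn : ∀ i, (n i : ℝ) ≤ A * log M) (hh : ∀ i, |(h i : ℝ)| ≤ (M : ℝ) ^ η) :
    |((∑ i, h i * (b i : ℤ) ^ n i : ℤ) : ℝ)| ≤ (M : ℝ) ^ (1 + η + A * log B) := by
  have hMR : (1 : ℝ) ≤ M := by exact_mod_cast hM
  have hMp : (0 : ℝ) < M := by linarith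
  push_cast
  refine (Finset.abs_sum_le_sum_abs _ _).trans ?_
  calc ∑ i, |(h i : ℝ) * (b i : ℝ) ^ n i| ≤ ∑ _i : Fin k, (M : ℝ) ^ η * (M : ℝ) ^ (A * log B) := by
        refine sum_le_sum fun i _ => ?_
        rw [abs_mul]
        have hb1 : (1 : ℝ) ≤ b i := by exact_mod_cast (hb i).1
        have hbB : (b i : ℝ) ≤ B := by exact_mod_cast (hb i).2
        have hB0 : (0 : ℝ) < B := by linarith
        have h1 : |(b i : ℝ) ^ n i| ≤ (M : ℝ) ^ (A * log B) := by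
          rw [abs_of_nonneg (by positivity), Real.rpow_def_of_pos hMp, ← Real.exp_log (by positivity :
            (0 : ℝ) < (b i : ℝ) ^ n i), Real.log_pow]
          apply Real.exp_le_exp.2
          have h2 : log (b i) ≤ log B := Real.log_le_log (by linarith) hbB
          have h3 : 0 ≤ log (b i) := Real.log_nonneg hb1
          calc (n i : ℝ) * log (b i) ≤ (n i : ℝ) * log B := by gcongr
            _ ≤ A * log M * log B := mul_le_mul_of_nonneg_right (hn i) (h3.trans h2)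
            _ = log M * (A * log B) := by ring
        have := hh i
        gcongr
    _ = k * ((M : ℝ) ^ η * (M : ℝ) ^ (A * log B)) := by
        rw [sum_const, card_univ, Fintype.card_fin, nsmul_eq_mul]
    _ ≤ (M : ℝ) ^ (1 : ℝ) * ((M : ℝ) ^ η * (M : ℝ) ^ (A * log B)) := by
        rw [Real.rpow_one]
        have : (k : ℝ) ≤ M := by exact_mod_cast hkM
        gcongr
    _ = (M : ℝ) ^ (1 + η + A * log B) := by
        rw [← mul_assoc, ← Real.rpow_add hMp, ← Real.rpow_add hMp]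

theorem good_root {c ε : ℝ} (hc0 : 0 < c) (hc : ∀ m : ℕ, c ≠ m) (hε : 0 < ε) (W : ℝ) (B k : ℕ)
    (A : ℝ) : Good B k A (SR c ε W) := by
  obtain ⟨μ, hμ, hμ1, M1, hM1⟩ := range_ok hc0 hε
  obtain ⟨ρ, hρ, M2, hM2⟩ := VdC.pow_sum hc (W + (1 + 1 + A * log B)) μ hμ hμ1
  refine ⟨min ρ 1, by positivity, max (max M1 M2) (max k 1), ?_⟩
  intro M hM P hP b n h hb hn hh hne
  obtain ⟨N, ω, y, hN1, hN2, hω1, hω2, rfl⟩ := hP
  have hMM1 : M1 ≤ M := le_of_max_le_left (le_of_max_le_left hM)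
  have hMM2 : M2 ≤ M := le_of_max_le_right (le_of_max_le_left hM)
  have hMk : k ≤ M := le_of_max_le_left (le_of_max_le_right hM)
  have hM1' : 1 ≤ M := le_of_max_le_right (le_of_max_le_right hM)
  have hMR : (1 : ℝ) ≤ M := by exact_mod_cast hM1'
  have hMp : (0 : ℝ) < M := by linarith
  obtain ⟨hr1, hr2⟩ := hM1 M hMM1 N hN1 hN2
  set l : ℤ := ∑ i, h i * (b i : ℤ) ^ n i with hl
  have hl1 : (1 : ℝ) ≤ |(l : ℝ)| := by
    have : (1 : ℤ) ≤ |l| := Int.one_le_abs hne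
    exact_mod_cast this
  have hl2 : |(l : ℝ)| ≤ (M : ℝ) ^ (1 + 1 + A * log B) := by
    refine (size_freq hM1' hMk b n h hb hn hh).trans ?_
    apply Real.rpow_le_rpow_of_exponent_le hMR
    have := min_le_right ρ 1
    linarith
  have hf1 : 1 ≤ |(l : ℝ) * ω| := by
    rw [abs_mul]
    nlinarith
  have hf2 : |(l : ℝ) * ω| ≤ (M : ℝ) ^ (W + (1 + 1 + A * log B)) := by
    rw [abs_mul, Real.rpow_add hMp, mul_comm]
    gcongr
  have key := hM2 M hMM2 N hr1 hr2 _ hf1 hf2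
  -- the Fourier coefficient
  unfold hat
  rw [integral_unif, Nat.card_Ioc, Nat.add_sub_cancel_left]
  have h1 : ∑ m ∈ Finset.Ioc N (N + M), e (l * (ω * (m : ℝ) ^ c + y)) =
      e (l * y) * ∑ m ∈ Finset.Ioc N (N + M), e ((l * ω) * (m : ℝ) ^ c) := by
    rw [mul_sum]
    refine sum_congr rfl fun m _ => ?_
    rw [← e_add]
    congr 1
    ring
  have h2 : ‖∑ m ∈ Finset.Ioc N (N + M), e ((l * ω) * (m : ℝ) ^ c)‖ =
      ‖∑ m ∈ Finset.Ioc N (N + M), e (|l * ω| * (m : ℝ) ^ c)‖ := by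
    rcases abs_choice ((l : ℝ) * ω) with h3 | h3
    · rw [h3]
    · rw [h3, ← Complex.norm_conj, map_sum]
      congr 1
      refine sum_congr rfl fun m _ => ?_
      rw [← e_neg]
      congr 1
      ring
  rw [h1, norm_mul, norm_mul, norm_e, one_mul, h2]
  have h4 : ‖(1 / (M : ℂ))‖ = (M : ℝ) ^ (-1 : ℝ) := by
    rw [norm_div, norm_one, Complex.norm_natCast, one_div, Real.rpow_neg_one]
  rw [h4]
  calc (M : ℝ) ^ (-1 : ℝ) * ‖∑ m ∈ Finset.Ioc N (N + M), e (|l * ω| * (m : ℝ) ^ c)‖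
      ≤ (M : ℝ) ^ (-1 : ℝ) * (M : ℝ) ^ (1 - ρ) := by
        gcongr
        exact key
    _ = (M : ℝ) ^ (-ρ) := by
        rw [← Real.rpow_add hMp]
        congr 1
        ring
    _ ≤ (M : ℝ) ^ (-(min ρ 1)) := by
        apply Real.rpow_le_rpow_of_exponent_le hMR
        have := min_le_left ρ 1
        linarith

/-- **`k`-digit tests** for powers of the integers of a short interval -/
theorem tests_root {c ε : ℝ} (hc0 : 0 < c) (hc : ∀ m : ℕ, c ≠ m) (hε : 0 < ε) (W : ℝ) (B k : ℕ)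
    (A : ℝ) :
    ∃ δ : ℝ, 0 < δ ∧ ∃ C : ℝ, ∀ M : ℕ, 1 ≤ M → ∀ N : ℕ, (N : ℝ) ^ (1 / 2 + ε) ≤ M →
      (N : ℝ) ^ (1 - c + ε) ≤ M → ∀ ω y : ℝ, 1 ≤ |ω| → |ω| ≤ (M : ℝ) ^ W → ∀ (b n : Fin k → ℕ),
      (∀ i, 1 ≤ b i ∧ b i ≤ B) → (∀ i, (n i : ℝ) ≤ A * log M) → ∀ u v : Fin k → ℝ,
      (∀ i, 0 ≤ u i) → (∀ i, v i ≤ 1) →
      |(unif (Finset.Ioc N (N + M)) (fun m : ℕ => ω * (m : ℝ) ^ c + y)).real (Ev b n u v) -
        Leb.real (Ev b n u v)| ≤ C * (M : ℝ) ^ (-δ) := by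
  obtain ⟨δ, hδ, C, hC⟩ := power (SR_prob c ε W) (good_root hc0 hc hε W B k A)
  exact ⟨δ, hδ, C, fun M hM N hN1 hN2 ω y hω1 hω2 b n hb hn u v hu hv =>
    hC M hM _ ⟨N, ω, y, hN1, hN2, hω1, hω2, rfl⟩ b n hb hn u v hu hv⟩

end Pool.Agent.Y933.KD
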