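import Pool.Agent.Y933.KD.Test

/-!
# Power saving for products of intervals (helper933)
-/

set_option autoImplicit false

namespace Pool.Agent.Y933.KD

open Finset Real MeasureTheory

/-- Lebesgue measure on `[0, 1)` -/
noncomputable def Leb : Measure ℝ := volume.restrict (Set.Ico 0 1)

instance : IsProbabilityMeasure Leb := ⟨by simp [Leb]⟩

lemma hat_Leb (l : ℤ) (hl : l ≠ 0) : hat Leb l = 0 := by
  unfold hat Leb
  rw [integral_Ico_eq_integral_Ioo, ← integral_Ioc_eq_integral_Ioo,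
    ← intervalIntegral.integral_of_le zero_le_one]
  have h1 : ∀ x : ℝ, e (l * x) = Complex.exp ((2 * π * l * Complex.I) * x) := by
    intro x
    unfold e
    congr 1
    push_cast
    ring
  simp only [h1]
  have hc : (2 * π * l * Complex.I : ℂ) ≠ 0 := by
    refine mul_ne_zero (mul_ne_zero (mul_ne_zero two_ne_zero ?_) ?_) Complex.I_ne_zero
    · exact_mod_cast pi_ne_zero
    · exact_mod_cast hl
  rw [integral_exp_mul_complex hc]
  have h2 : Complex.exp (2 * π * l * Complex.I * ((1 : ℝ) : ℂ)) = 1 := by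
    rw [Complex.exp_eq_one_iff]
    exact ⟨l, by push_cast; ring⟩
  have h3 : Complex.exp (2 * π * l * Complex.I * ((0 : ℝ) : ℂ)) = 1 := by simp
  rw [h2, h3, sub_self, zero_div]

/-- the event: the numbers `b i ^ n i * x` lie in the intervals `[u i, v i)` modulo one -/
def Ev {k : ℕ} (b n : Fin k → ℕ) (u v : Fin k → ℝ) : Set ℝ :=
  {x | ∀ i, u i ≤ Int.fract ((b i : ℝ) ^ n i * x) ∧ Int.fract ((b i : ℝ) ^ n i * x) < v i}

lemma measurableSet_Ev {k : ℕ} (b n : Fin k → ℕ) (u v : Fin k → ℝ) : MeasurableSet (Ev b n u v) := by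
  unfold Ev
  rw [Set.ofPred_forall]
  refine MeasurableSet.iInter fun i => ?_
  have h1 : Measurable (fun x : ℝ => Int.fract ((b i : ℝ) ^ n i * x)) :=
    measurable_fract.comp (measurable_const_mul _)
  exact (measurableSet_le measurable_const h1).inter (measurableSet_lt h1 measurable_const)

lemma integral_ind {k : ℕ} (P : Measure ℝ) [IsProbabilityMeasure P] (b n : Fin k → ℕ)
    (u v : Fin k → ℝ) :
    ∫ x, ∏ i, ind (u i) (v i) ((((b i : ℤ) ^ n i : ℤ) : ℝ) * x) ∂P = P.real (Ev b n u v) := by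
  classical
  rw [← integral_indicator_one (measurableSet_Ev b n u v)]
  refine integral_congr_ae (Filter.Eventually.of_forall fun x => ?_)
  simp only
  by_cases hx : x ∈ Ev b n u v
  · rw [Set.indicator_of_mem hx, Pi.one_apply]
    refine prod_eq_one fun i _ => ?_
    unfold ind
    rw [if_pos]
    have := hx i
    push_cast
    exact this
  · rw [Set.indicator_of_notMem hx]
    have h1 : ∃ i, ¬ (u i ≤ Int.fract ((b i : ℝ) ^ n i * x) ∧
        Int.fract ((b i : ℝ) ^ n i * x) < v i) := by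
      by_contra hcon
      push Not at hcon
      exact hx hcon
    obtain ⟨i, hi⟩ := h1
    refine prod_eq_zero (mem_univ i) ?_
    unfold ind
    rw [if_neg]
    push_cast
    exact hi

/-- small Fourier coefficients at all nonzero sums of `k` terms `h b ^ n` -/
def Good (B k : ℕ) (A : ℝ) (S : ℕ → Set (Measure ℝ)) : Prop :=
  ∃ η : ℝ, 0 < η ∧ ∃ M0 : ℕ, ∀ M : ℕ, M0 ≤ M → ∀ P ∈ S M, ∀ (b n : Fin k → ℕ) (h : Fin k → ℤ),
    (∀ i, 1 ≤ b i ∧ b i ≤ B) → (∀ i, (n i : ℝ) ≤ A * log M) → (∀ i, |(h i : ℝ)| ≤ (M : ℝ) ^ η) →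
    ∑ i, h i * (b i : ℤ) ^ n i ≠ 0 → ‖hat P (∑ i, h i * (b i : ℤ) ^ n i)‖ ≤ (M : ℝ) ^ (-η)

theorem power {B k : ℕ} {A : ℝ} {S : ℕ → Set (Measure ℝ)} (hS : ∀ M, 1 ≤ M → ∀ P ∈ S M,
    IsProbabilityMeasure P) (hG : Good B k A S) :
    ∃ δ : ℝ, 0 < δ ∧ ∃ C : ℝ, ∀ M : ℕ, 1 ≤ M → ∀ P ∈ S M, ∀ (b n : Fin k → ℕ),
      (∀ i, 1 ≤ b i ∧ b i ≤ B) → (∀ i, (n i : ℝ) ≤ A * log M) → ∀ u v : Fin k → ℝ,
      (∀ i, 0 ≤ u i) → (∀ i, v i ≤ 1) →
      |P.real (Ev b n u v) - Leb.real (Ev b n u v)| ≤ C * (M : ℝ) ^ (-δ) := by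
  obtain ⟨η, hη, M0, hM0⟩ := hG
  -- the exponent
  obtain ⟨δ, hδ, hδ1, hδ2⟩ : ∃ δ : ℝ, 0 < δ ∧ 3 * δ ≤ η ∧ 3 * δ * k + δ ≤ η := by
    refine ⟨η / (3 * k + 4), by positivity, ?_, ?_⟩
    · rw [mul_div_assoc', div_le_iff₀ (by positivity)]
      have : (0 : ℝ) ≤ k := Nat.cast_nonneg k
      nlinarith
    · have hk : (0 : ℝ) ≤ k := Nat.cast_nonneg k
      have e1 : 3 * (η / (3 * k + 4)) * k + η / (3 * k + 4) = η * ((3 * k + 1) / (3 * k + 4)) := by
        field_simp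
      rw [e1]
      have : (3 * (k : ℝ) + 1) / (3 * k + 4) ≤ 1 := by
        rw [div_le_one (by positivity)]; linarith
      nlinarith
  refine ⟨δ, hδ, max ((M0 : ℝ) ^ δ) (3 ^ k + k * 29), fun M hM P hP b n hb hn u v hu hv => ?_⟩
  have := hS M hM P hP
  have hM1 : (1 : ℝ) ≤ M := by exact_mod_cast hM
  have hMpos : (0 : ℝ) < M := by linarith
  have htriv : |P.real (Ev b n u v) - Leb.real (Ev b n u v)| ≤ 1 := by
    have h1 : P.real (Ev b n u v) ≤ 1 := measureReal_le_one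
    have h2 : Leb.real (Ev b n u v) ≤ 1 := measureReal_le_one
    have h3 : 0 ≤ P.real (Ev b n u v) := measureReal_nonneg
    have h4 : 0 ≤ Leb.real (Ev b n u v) := measureReal_nonneg
    rw [abs_le]
    constructor <;> linarith
  rcases lt_or_ge M M0 with hlt | hge
  · have h1 : (M : ℝ) ^ δ ≤ (M0 : ℝ) ^ δ := by
      apply Real.rpow_le_rpow hMpos.le _ hδ.le
      exact_mod_cast hlt.le
    calc |P.real (Ev b n u v) - Leb.real (Ev b n u v)| ≤ 1 := htriv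
      _ = (M : ℝ) ^ δ * (M : ℝ) ^ (-δ) := by
          rw [← Real.rpow_add hMpos]; simp
      _ ≤ max ((M0 : ℝ) ^ δ) (3 ^ k + k * 29) * (M : ℝ) ^ (-δ) := by
          gcongr
          exact h1.trans (le_max_left _ _)
  · -- the main case
    set K : ℕ := ⌊(M : ℝ) ^ δ⌋₊ with hKdef
    have hMδ : 1 ≤ (M : ℝ) ^ δ := Real.one_le_rpow hM1 hδ.le
    have hK : 0 < K := Nat.floor_pos.2 hMδ
    have hK1 : (K : ℝ) ≤ (M : ℝ) ^ δ := Nat.floor_le (by linarith)
    have hK2 : (M : ℝ) ^ δ ≤ 2 * K := by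
      have h1 := Nat.lt_floor_add_one ((M : ℝ) ^ δ)
      have h2 : (1 : ℝ) ≤ K := by exact_mod_cast hK
      rw [← hKdef] at h1
      linarith
    have hKR : (0 : ℝ) < K := by exact_mod_cast hK
    have hK3 : (K : ℝ) ^ 3 ≤ (M : ℝ) ^ (3 * δ) := by
      calc (K : ℝ) ^ 3 ≤ ((M : ℝ) ^ δ) ^ 3 := by gcongr
        _ = (M : ℝ) ^ (3 * δ) := by
            rw [← Real.rpow_natCast, ← Real.rpow_mul hMpos.le]
            congr 1
            push_cast
            ring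
    have hq : ∀ i, ((b i : ℤ) ^ n i) ≠ 0 := fun i => by
      have : (b i : ℤ) ≠ 0 := by have := (hb i).1; omega
      exact pow_ne_zero _ this
    have hΔ0 : 0 ≤ (M : ℝ) ^ (-η) := by positivity
    have key := test hK P Leb hat_Leb (fun i => (b i : ℤ) ^ n i) hq ((M : ℝ) ^ (-η))
      (by
        intro h hh hne
        refine hM0 M hge P hP b n h hb hn (fun i => ?_) hne
        have h1 : |(h i : ℝ)| ≤ (K : ℝ) ^ 3 := by exact_mod_cast hh i
        exact (h1.trans hK3).trans (Real.rpow_le_rpow_of_exponent_le hM1 hδ1)) hΔ0 u v hu hv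
    rw [integral_ind, integral_ind] at key
    refine key.trans ?_
    have hMM : (M : ℝ) ^ (-η) ≤ (M : ℝ) ^ (-δ) :=
      Real.rpow_le_rpow_of_exponent_le hM1 (by
        have : (0 : ℝ) ≤ k := Nat.cast_nonneg k
        nlinarith)
    have h1 : (2 * (K : ℝ) ^ 3 + 1) ^ k * (M : ℝ) ^ (-η) ≤ 3 ^ k * (M : ℝ) ^ (-δ) := by
      have h2 : 2 * (K : ℝ) ^ 3 + 1 ≤ 3 * (M : ℝ) ^ (3 * δ) := by
        have : 1 ≤ (M : ℝ) ^ (3 * δ) := Real.one_le_rpow hM1 (by positivity)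
        linarith
      calc (2 * (K : ℝ) ^ 3 + 1) ^ k * (M : ℝ) ^ (-η)
          ≤ (3 * (M : ℝ) ^ (3 * δ)) ^ k * (M : ℝ) ^ (-η) := by gcongr
        _ = 3 ^ k * ((M : ℝ) ^ (3 * δ * k) * (M : ℝ) ^ (-η)) := by
            rw [mul_pow, ← Real.rpow_natCast ((M : ℝ) ^ (3 * δ)), ← Real.rpow_mul hMpos.le]
            ring
        _ ≤ 3 ^ k * (M : ℝ) ^ (-δ) := by
            rw [← Real.rpow_add hMpos]
            refine mul_le_mul_of_nonneg_left ?_ (by positivity)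
            exact Real.rpow_le_rpow_of_exponent_le hM1 (by linarith)
    have h2 : 12 / (K : ℝ) ≤ 24 * (M : ℝ) ^ (-δ) := by
      rw [Real.rpow_neg hMpos.le, div_le_iff₀ hKR]
      have h3 : 0 < (M : ℝ) ^ δ := by positivity
      have h4 : 24 * ((M : ℝ) ^ δ)⁻¹ * K = 12 * ((2 * K) / (M : ℝ) ^ δ) := by field_simp; ring
      rw [h4]
      have h5 : 1 ≤ 2 * (K : ℝ) / (M : ℝ) ^ δ := by rw [le_div_iff₀ h3]; linarith
      linarith
    have hk : (0 : ℝ) ≤ k := Nat.cast_nonneg k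
    have h3 : (k : ℝ) * (12 / K + 5 * (M : ℝ) ^ (-η)) ≤ k * (29 * (M : ℝ) ^ (-δ)) := by
      refine mul_le_mul_of_nonneg_left ?_ hk
      linarith
    calc (2 * (K : ℝ) ^ 3 + 1) ^ k * (M : ℝ) ^ (-η) + k * (12 / K + 5 * (M : ℝ) ^ (-η))
        ≤ 3 ^ k * (M : ℝ) ^ (-δ) + k * (29 * (M : ℝ) ^ (-δ)) := add_le_add h1 h3
      _ = (3 ^ k + k * 29) * (M : ℝ) ^ (-δ) := by ring
      _ ≤ max ((M0 : ℝ) ^ δ) (3 ^ k + k * 29) * (M : ℝ) ^ (-δ) := by
          gcongr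
          exact le_max_right _ _

end Pool.Agent.Y933.KD
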