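import Pool.Agent.Y933.KD.Fej

/-!
# Trigonometric approximation of the indicator function of an interval (helper933)
-/

set_option autoImplicit false

namespace Pool.Agent.Y933.KD

open Finset Real

/-- the indicator function of `fract x ∈ [u, v)` -/
noncomputable def ind (u v x : ℝ) : ℝ := if u ≤ Int.fract x ∧ Int.fract x < v then 1 else 0

lemma ind_nonneg (u v x : ℝ) : 0 ≤ ind u v x := by unfold ind; split_ifs <;> norm_num

lemma ind_le_one (u v x : ℝ) : ind u v x ≤ 1 := by unfold ind; split_ifs <;> norm_num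

/-- the trigonometric approximation of degree less than `R` -/
noncomputable def g (R : ℕ) (u v x : ℝ) : ℝ :=
  ∑ j ∈ (range R).filter (fun j : ℕ => u ≤ (j / R : ℝ) ∧ (j / R : ℝ) < v),
    (1 / R : ℝ) * F R (x - j / R)

lemma g_nonneg (R : ℕ) (u v x : ℝ) : 0 ≤ g R u v x := by
  unfold g
  exact sum_nonneg fun j _ => mul_nonneg (by positivity) (F_nonneg _ _)

lemma g_le_one {R : ℕ} (hR : 0 < R) (u v x : ℝ) : g R u v x ≤ 1 := by
  rw [← F_partition hR x]
  unfold g
  exact sum_le_sum_of_subset_of_nonneg (filter_subset _ _) fun j _ _ =>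
    mul_nonneg (by positivity) (F_nonneg _ _)

lemma TP_g (R : ℕ) (u v : ℝ) : TP R (g R u v) := by
  classical
  choose c hc1 hc2 using fun j : ℕ => TP_F (le_refl R) (j / R : ℝ)
  refine ⟨fun h => ∑ j ∈ (range R).filter (fun j : ℕ => u ≤ (j / R : ℝ) ∧ (j / R : ℝ) < v),
    (1 / R : ℂ) * c j h, fun h => ?_, fun x => ?_⟩
  · refine (norm_sum_le _ _).trans ?_
    have h1 : ∀ j ∈ (range R).filter (fun j : ℕ => u ≤ (j / R : ℝ) ∧ (j / R : ℝ) < v),
        ‖(1 / R : ℂ) * c j h‖ ≤ 1 / R := by
      intro j _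
      rw [norm_mul]
      have h3 : ‖(1 / (R : ℂ))‖ = 1 / R := by simp
      rw [h3]
      calc 1 / (R : ℝ) * ‖c j h‖ ≤ 1 / R * 1 := by
            gcongr
            exact hc1 j h
        _ = 1 / R := mul_one _
    refine (sum_le_sum h1).trans ?_
    rw [sum_const, nsmul_eq_mul]
    have h2 : (((range R).filter (fun j : ℕ => u ≤ (j / R : ℝ) ∧ (j / R : ℝ) < v)).card : ℝ) ≤ R := by
      have := card_filter_le (range R) (fun j : ℕ => u ≤ (j / R : ℝ) ∧ (j / R : ℝ) < v)
      rw [card_range] at this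
      exact_mod_cast this
    rcases Nat.eq_zero_or_pos R with rfl | hR
    · simp
    · have hRR : (0 : ℝ) < R := by exact_mod_cast hR
      calc _ ≤ (R : ℝ) * (1 / R) := by gcongr
        _ = 1 := by field_simp
  · unfold g
    push_cast
    have h1 : ∀ j : ℕ, ((F R (x - j / R) : ℝ) : ℂ) =
        ∑ h ∈ Finset.Icc (-(R : ℤ)) R, c j h * e (h * x) := fun j => hc2 j x
    simp only [h1, sum_mul, mul_sum]
    rw [sum_comm]
    refine sum_congr rfl fun h _ => sum_congr rfl fun j _ => ?_
    ring

/-- distance to the end points, on the circle -/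
lemma dist_ends {u v s t : ℝ} (hu : 0 ≤ u) (hv : v ≤ 1) (hs0 : 0 ≤ s) (hs1 : s < 1)
    (ht0 : 0 ≤ t) (ht1 : t < 1) (hne : ¬ ((u ≤ s ∧ s < v) ↔ (u ≤ t ∧ t < v))) {ρ : ℝ}
    (h1 : ρ ≤ |s - u - round (s - u)|) (h2 : ρ ≤ |s - v - round (s - v)|) :
    ρ ≤ |s - t - round (s - t)| := by
  have ru : ∀ z : ℤ, ρ ≤ |s - u - z| := fun z => h1.trans (round_le _ _)
  have rv : ∀ z : ℤ, ρ ≤ |s - v - z| := fun z => h2.trans (round_le _ _)
  have r0 := ru 0
  have r1 := ru 1
  have r2 := ru (-1)
  have q0 := rv 0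
  have q1 := rv 1
  have q2 := rv (-1)
  push_cast at r0 r1 r2 q0 q1 q2
  have hst : |s - t| < 1 := by rw [abs_lt]; constructor <;> linarith
  -- the rounding is one of -1, 0, 1
  have hr : round (s - t) = 0 ∨ round (s - t) = 1 ∨ round (s - t) = -1 := by
    have h3 := abs_sub_round (s - t)
    rw [abs_le] at h3
    rw [abs_lt] at hst
    have h4 : (-2 : ℝ) < round (s - t) := by linarith [h3.1, h3.2]
    have h5 : (round (s - t) : ℝ) < 2 := by linarith [h3.1, h3.2]
    have h6 : (-2 : ℤ) < round (s - t) := by exact_mod_cast h4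
    have h7 : round (s - t) < 2 := by exact_mod_cast h5
    omega
  by_cases hs : u ≤ s ∧ s < v
  · have ht : t < u ∨ v ≤ t := by
      by_contra hcon
      push Not at hcon
      exact hne ⟨fun _ => hcon, fun _ => hs⟩
    obtain ⟨hs1', hs2'⟩ := hs
    have a0 : |s - u - 0| = s - u := by rw [sub_zero, abs_of_nonneg (by linarith)]
    have b0 : |s - v - 0| = v - s := by rw [sub_zero, abs_sub_comm, abs_of_nonneg (by linarith)]
    rw [a0] at r0
    rw [b0] at q0
    rcases hr with h | h | h <;> rw [h] <;> push_cast <;> rcases ht with ht | ht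
    · rw [sub_zero]; exact r0.trans ((by linarith : s - u ≤ s - t).trans (le_abs_self _))
    · rw [sub_zero, abs_sub_comm]
      exact q0.trans ((by linarith : v - s ≤ t - s).trans (le_abs_self _))
    · rw [abs_sub_comm]; exact q0.trans ((by linarith : v - s ≤ 1 - (s - t)).trans (le_abs_self _))
    · rw [abs_sub_comm]; exact q0.trans ((by linarith : v - s ≤ 1 - (s - t)).trans (le_abs_self _))
    · exact r0.trans ((by linarith : s - u ≤ s - t - -1).trans (le_abs_self _))
    · exact r0.trans ((by linarith : s - u ≤ s - t - -1).trans (le_abs_self _))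
  · have ht : u ≤ t ∧ t < v := by
      by_contra hcon
      exact hne ⟨fun h => absurd h hs, fun h => absurd h hcon⟩
    have hs' : s < u ∨ v ≤ s := by
      by_contra hcon
      push Not at hcon
      exact hs hcon
    obtain ⟨ht1', ht2'⟩ := ht
    rcases hs' with hs' | hs'
    · have a0 : |s - u - 0| = u - s := by rw [sub_zero, abs_sub_comm, abs_of_nonneg (by linarith)]
      have b0 : |s - v - -1| = 1 - (v - s) := by
        rw [show s - v - -1 = 1 - (v - s) by ring, abs_of_nonneg (by linarith)]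
      rw [a0] at r0
      rw [b0] at q2
      rcases hr with h | h | h <;> rw [h] <;> push_cast
      · rw [sub_zero, abs_sub_comm]
        exact r0.trans ((by linarith : u - s ≤ t - s).trans (le_abs_self _))
      · rw [abs_sub_comm]; exact r0.trans ((by linarith : u - s ≤ 1 - (s - t)).trans (le_abs_self _))
      · exact q2.trans ((by linarith : 1 - (v - s) ≤ s - t - -1).trans (le_abs_self _))
    · have a0 : |s - v - 0| = s - v := by rw [sub_zero, abs_of_nonneg (by linarith)]
      have b0 : |s - u - 1| = 1 - (s - u) := by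
        rw [abs_sub_comm, abs_of_nonneg (by linarith)]
      rw [a0] at q0
      rw [b0] at r1
      rcases hr with h | h | h <;> rw [h] <;> push_cast
      · rw [sub_zero]; exact q0.trans ((by linarith : s - v ≤ s - t).trans (le_abs_self _))
      · rw [abs_sub_comm]
        exact r1.trans ((by linarith : 1 - (s - u) ≤ 1 - (s - t)).trans (le_abs_self _))
      · exact q0.trans ((by linarith : s - v ≤ s - t - -1).trans (le_abs_self _))

/-- the majorant of the error -/
noncomputable def w (K R : ℕ) (u v x : ℝ) : ℝ :=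
  (K : ℝ) ^ 2 / R + π ^ 2 / (4 * K) * (F K (x - u) + F K (x - v))

lemma F_per (K : ℕ) (x : ℝ) (z : ℤ) : F K (x + z) = F K x := by
  unfold F
  congr 3
  unfold D
  refine sum_congr rfl fun j _ => ?_
  have : (j : ℝ) * (x + z) = j * x + ((j * z : ℤ) : ℝ) := by push_cast; ring
  rw [this, e_add_int]

lemma appr {K R : ℕ} (hK : 0 < K) (hR : 0 < R) {u v : ℝ} (hu : 0 ≤ u) (hv : v ≤ 1) (x : ℝ) :
    |ind u v x - g R u v x| ≤ w K R u v x := by
  have hKR : (0 : ℝ) < K := by exact_mod_cast hK
  have hRR : (0 : ℝ) < R := by exact_mod_cast hR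
  -- reduce to the fractional part
  have hx : x = Int.fract x + ⌊x⌋ := (Int.fract_add_floor x).symm
  have hg : g R u v x = g R u v (Int.fract x) := by
    unfold g
    refine sum_congr rfl fun j _ => ?_
    have : x - j / R = Int.fract x - j / R + ⌊x⌋ := by linarith
    rw [this, F_per]
  have hw : w K R u v x = w K R u v (Int.fract x) := by
    unfold w
    have h1 : x - u = Int.fract x - u + ⌊x⌋ := by linarith
    have h2 : x - v = Int.fract x - v + ⌊x⌋ := by linarith
    rw [h1, h2, F_per, F_per]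
  have hi : ind u v x = ind u v (Int.fract x) := by unfold ind; rw [Int.fract_fract]
  rw [hg, hw, hi]
  have hs0 := Int.fract_nonneg x
  have hs1 := Int.fract_lt_one x
  set s := Int.fract x with hs
  have hfs : Int.fract s = s := Int.fract_eq_self.2 ⟨hs0, hs1⟩
  have hle1 : |ind u v s - g R u v s| ≤ 1 := by
    have h1 := ind_nonneg u v s
    have h2 := ind_le_one u v s
    have h3 := g_nonneg R u v s
    have h4 := g_le_one hR u v s
    rw [abs_le]
    constructor <;> linarith
  have hFu := F_nonneg K (s - u)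
  have hFv := F_nonneg K (s - v)
  have hK2 : 0 ≤ (K : ℝ) ^ 2 / R := by positivity
  have hpc : 0 ≤ π ^ 2 / (4 * K) := by positivity
  have hnear : ∀ y : ℝ, |y - round y| ≤ 1 / (2 * K) → 1 ≤ π ^ 2 / (4 * K) * F K y := by
    intro y hy
    have h1 := F_ge hK hy
    calc (1 : ℝ) = π ^ 2 / (4 * K) * (4 * K / π ^ 2) := by field_simp
      _ ≤ π ^ 2 / (4 * K) * F K y := by gcongr
  unfold w
  by_cases h1 : |s - u - round (s - u)| ≤ 1 / (2 * K)
  · have h2 := hnear _ h1
    have h3 := mul_nonneg hpc hFv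
    rw [mul_add]
    linarith
  by_cases h2 : |s - v - round (s - v)| ≤ 1 / (2 * K)
  · have h3 := hnear _ h2
    have h4 := mul_nonneg hpc hFu
    rw [mul_add]
    linarith
  push Not at h1 h2
  -- far from the end points
  have hterm : ∀ j ∈ range R, ¬ ((u ≤ s ∧ s < v) ↔ (u ≤ (j / R : ℝ) ∧ (j / R : ℝ) < v)) →
      (1 / R : ℝ) * F R (s - j / R) ≤ 1 / R * ((K : ℝ) ^ 2 / R) := by
    intro j hj hne
    rw [mem_range] at hj
    have hjR : (j : ℝ) < R := by exact_mod_cast hj
    have h3 := dist_ends hu hv hs0 hs1 (by positivity : (0 : ℝ) ≤ j / R)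
      (by rw [div_lt_one hRR]; exact hjR) hne h1.le h2.le
    have h4 := F_le hR (by positivity) h3
    have h5 : 1 / (4 * (R : ℝ) * (1 / (2 * K)) ^ 2) = (K : ℝ) ^ 2 / R := by field_simp; ring
    rw [h5] at h4
    gcongr
  have hsum : ∑ j ∈ (range R).filter (fun j : ℕ =>
      ¬ ((u ≤ s ∧ s < v) ↔ (u ≤ (j / R : ℝ) ∧ (j / R : ℝ) < v))),
      (1 / R : ℝ) * F R (s - j / R) ≤ (K : ℝ) ^ 2 / R := by
    calc _ ≤ ∑ j ∈ (range R).filter (fun j : ℕ =>
          ¬ ((u ≤ s ∧ s < v) ↔ (u ≤ (j / R : ℝ) ∧ (j / R : ℝ) < v))),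
            (1 / R : ℝ) * ((K : ℝ) ^ 2 / R) := sum_le_sum fun j hj => by
              rw [mem_filter] at hj
              exact hterm j hj.1 hj.2
      _ ≤ ∑ j ∈ range R, (1 / R : ℝ) * ((K : ℝ) ^ 2 / R) :=
          sum_le_sum_of_subset_of_nonneg (filter_subset _ _) fun j _ _ => by positivity
      _ = (K : ℝ) ^ 2 / R := by
          rw [sum_const, card_range, nsmul_eq_mul]; field_simp
  have hcase : |ind u v s - g R u v s| ≤ (K : ℝ) ^ 2 / R := by
    by_cases hin : u ≤ s ∧ s < v
    · have e1 : ind u v s = 1 := by unfold ind; rw [hfs, if_pos hin]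
      have e2 : 1 - g R u v s = ∑ j ∈ (range R).filter (fun j : ℕ =>
          ¬ ((u ≤ s ∧ s < v) ↔ (u ≤ (j / R : ℝ) ∧ (j / R : ℝ) < v))),
          (1 / R : ℝ) * F R (s - j / R) := by
        have e0 := F_partition hR s
        rw [← sum_filter_add_sum_filter_not (range R)
          (fun j : ℕ => u ≤ (j / R : ℝ) ∧ (j / R : ℝ) < v)] at e0
        have e3 : (range R).filter (fun j : ℕ =>
            ¬ ((u ≤ s ∧ s < v) ↔ (u ≤ (j / R : ℝ) ∧ (j / R : ℝ) < v))) =
            (range R).filter (fun j : ℕ => ¬ (u ≤ (j / R : ℝ) ∧ (j / R : ℝ) < v)) := by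
          ext j
          simp only [mem_filter, hin, true_iff, and_self]
        rw [e3]
        unfold g
        linarith
      rw [e1, e2, abs_of_nonneg (sum_nonneg fun j _ => mul_nonneg (by positivity) (F_nonneg _ _))]
      exact hsum
    · have e1 : ind u v s = 0 := by unfold ind; rw [hfs, if_neg hin]
      have e2 : g R u v s = ∑ j ∈ (range R).filter (fun j : ℕ =>
          ¬ ((u ≤ s ∧ s < v) ↔ (u ≤ (j / R : ℝ) ∧ (j / R : ℝ) < v))),
          (1 / R : ℝ) * F R (s - j / R) := by
        unfold g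
        refine sum_congr ?_ fun _ _ => rfl
        ext j
        simp only [mem_filter, hin, false_iff, not_not]
      rw [e1, zero_sub, abs_neg, e2,
        abs_of_nonneg (sum_nonneg fun j _ => mul_nonneg (by positivity) (F_nonneg _ _))]
      exact hsum
  have h3 := mul_nonneg hpc hFu
  have h4 := mul_nonneg hpc hFv
  rw [mul_add]
  linarith

end Pool.Agent.Y933.KD
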