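import Pool.Agent.Y933.KD.Leb4
import Pool.Agent.Y933.KD.Unif

/-!
# The central limit theorem for the word sums in good families (helper933)
-/

set_option autoImplicit false

namespace Pool.Agent.Y933.KD

open Finset Real MeasureTheory Filter Topology ProbabilityTheory

section

variable {b w : ℕ} {G : ℕ → ℝ} {K : ℝ}

lemma WS_eq (s N : ℕ) (x : ℝ) :
    WS b w G s N x = ∑ n ∈ range N, Xw b w G n (Tb b s x) := by
  unfold WS
  refine sum_congr rfl fun n _ => ?_
  rw [← Xw_add]
  rfl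

/-- the normalised sum -/
noncomputable def ZN (b w : ℕ) (G : ℕ → ℝ) (s N : ℕ) (x : ℝ) : ℝ := WS b w G s N x / √(N : ℝ)

lemma measurable_ZN (b w : ℕ) (G : ℕ → ℝ) (s N : ℕ) : Measurable (ZN b w G s N) :=
  (measurable_WS b w G s N).div_const _

lemma abs_ZN_le (hG : ∀ c, |G c| ≤ K) (s N : ℕ) (x : ℝ) :
    |ZN b w G s N x| ≤ N * K / √(N : ℝ) := by
  unfold ZN
  rw [abs_div, abs_of_nonneg (Real.sqrt_nonneg _)]
  exact div_le_div_of_nonneg_right (abs_WS_le hG s N x) (Real.sqrt_nonneg _)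

/-- characteristic functions -/
theorem char_family (hb : 1 ≤ b) (hw : 1 ≤ w) (hG : ∀ c, |G c| ≤ K)
    (hG0 : ∑ c ∈ range (b ^ w), G c = 0) {A : ℝ} {S : ℕ → Set (Measure ℝ)}
    (hS : ∀ M, 1 ≤ M → ∀ P ∈ S M, IsProbabilityMeasure P) (hGood : ∀ k, Good b k A S)
    (P : ℕ → Measure ℝ) [∀ M, IsProbabilityMeasure (P M)] (hP : ∀ᶠ M in atTop, P M ∈ S M)
    (s N : ℕ → ℕ) (hN : Tendsto N atTop atTop)
    (hsN : ∀ᶠ M : ℕ in atTop, ((s M + N M : ℕ) : ℝ) ≤ A * log M) (t : ℝ) :
    Tendsto (fun M => ∫ x, Complex.exp ((t * ZN b w G (s M) (N M) x : ℝ) * Complex.I) ∂(P M)) atTop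
      (𝓝 (Complex.exp (-((sigma2 b w G : ℝ) : ℂ) * (t : ℂ) ^ 2 / 2))) := by
  have hK : 0 ≤ K := (abs_nonneg _).trans (hG 0)
  refine moments_limit (Q := Leb) (fun M => measurable_ZN _ _ _ _ _)
    (fun M => ⟨_, abs_ZN_le hG (s M) (N M)⟩) ?_ ?_ t ?_
  · -- moments
    intro j
    obtain ⟨δ, hδ, C, hC⟩ := power hS (hGood j)
    have hC0 : ∀ᶠ M : ℕ in atTop, |∫ x, ZN b w G (s M) (N M) x ^ j ∂(P M) -
        ∫ x, ZN b w G (s M) (N M) x ^ j ∂Leb| ≤
        ((b : ℝ) ^ w * K * A) ^ j * |C| * (log M ^ j * (M : ℝ) ^ (-δ)) := by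
      filter_upwards [hP, hsN, hN.eventually_ge_atTop 1, eventually_ge_atTop 1] with M h1 h2 h3 h4
      have hMR : (1 : ℝ) ≤ M := by exact_mod_cast h4
      have hMp : (0 : ℝ) < M := by linarith
      have hNR : (1 : ℝ) ≤ N M := by exact_mod_cast h3
      have hsq : 1 ≤ √(N M : ℝ) := Real.one_le_sqrt.2 hNR
      have hNA : (N M : ℝ) ≤ A * log M := by
        push_cast at h2
        have : (0 : ℝ) ≤ s M := Nat.cast_nonneg _
        linarith
      have h5 := mom_diff (w := w) hb hG (s M) (N M) j (P M) Leb (Δ := |C| * (M : ℝ) ^ (-δ))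
        (by positivity) (fun n u v hn hu hv => by
          refine (hC M h4 (P M) h1 (fun _ => b) n (fun i => ⟨hb, le_rfl⟩) (fun i => ?_) u v
            hu hv).trans ?_
          · refine le_trans ?_ h2
            exact_mod_cast hn i
          · exact mul_le_mul_of_nonneg_right (le_abs_self _) (by positivity))
      have h6 : ∀ Q : Measure ℝ, ∫ x, ZN b w G (s M) (N M) x ^ j ∂Q =
          (∫ x, WS b w G (s M) (N M) x ^ j ∂Q) / √(N M : ℝ) ^ j := by
        intro Q
        unfold ZN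
        simp only [div_pow]
        rw [integral_div]
      rw [h6, h6, ← sub_div, abs_div, abs_of_nonneg (by positivity : 0 ≤ √(N M : ℝ) ^ j)]
      have h7 : 1 ≤ √(N M : ℝ) ^ j := one_le_pow₀ hsq
      calc |∫ x, WS b w G (s M) (N M) x ^ j ∂(P M) - ∫ x, WS b w G (s M) (N M) x ^ j ∂Leb| /
            √(N M : ℝ) ^ j
          ≤ |∫ x, WS b w G (s M) (N M) x ^ j ∂(P M) - ∫ x, WS b w G (s M) (N M) x ^ j ∂Leb| :=
            div_le_self (abs_nonneg _) h7
        _ ≤ (N M * b ^ w * K) ^ j * (|C| * (M : ℝ) ^ (-δ)) := h5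
        _ ≤ (A * log M * b ^ w * K) ^ j * (|C| * (M : ℝ) ^ (-δ)) := by gcongr
        _ = ((b : ℝ) ^ w * K * A) ^ j * |C| * (log M ^ j * (M : ℝ) ^ (-δ)) := by
            rw [mul_pow, mul_pow, mul_pow, mul_pow, mul_pow]
            ring
    have hlim : Tendsto (fun M : ℕ => ((b : ℝ) ^ w * K * A) ^ j * |C| *
        (log M ^ j * (M : ℝ) ^ (-δ))) atTop (𝓝 0) := by
      have h1 : Tendsto (fun x : ℝ => log x ^ j * x ^ (-δ)) atTop (𝓝 0) := by
        have h2 := (isLittleO_log_rpow_rpow_atTop (j : ℝ) hδ).tendsto_div_nhds_zero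
        refine h2.congr' ?_
        filter_upwards [eventually_gt_atTop (0 : ℝ)] with x hx
        rw [Real.rpow_natCast, Real.rpow_neg hx.le, div_eq_mul_inv]
      have h3 := (h1.comp tendsto_natCast_atTop_atTop).const_mul (((b : ℝ) ^ w * K * A) ^ j * |C|)
      simpa using h3
    exact squeeze_zero_norm' (by simpa only [Real.norm_eq_abs] using hC0) hlim
  · -- exponential moments
    intro r
    refine ⟨exp (|r| * (w * K)) * exp (K ^ 2 * (r * w) ^ 2 / 2), ?_⟩
    filter_upwards [hN.eventually_ge_atTop 1] with M hM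
    have h1 : ∀ x, exp (r * ZN b w G (s M) (N M) x) =
        (fun y => exp (r * ((∑ n ∈ range (N M), Xw b w G n y) / √(N M : ℝ)))) (Tb b (s M) x) := by
      intro x
      simp only
      unfold ZN
      rw [WS_eq]
    simp only [h1]
    rw [invariance_real hb (h := fun y => exp (r * ((∑ n ∈ range (N M), Xw b w G n y) /
      √(N M : ℝ)))) ?_ (C := exp (|r| * (((range (N M)).card : ℝ) * K / √(N M : ℝ)))) ?_]
    · exact exp_norm hb hw hG hG0 r (N M) hM
    · exact Real.measurable_exp.comp (((Finset.measurable_fun_sum _ fun j _ =>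
        measurable_Xw _ _ _ _).div_const _).const_mul _)
    · intro y
      rw [abs_of_pos (exp_pos _)]
      apply exp_le_exp.2
      refine (le_abs_self _).trans ?_
      rw [abs_mul, abs_div, abs_of_nonneg (Real.sqrt_nonneg _)]
      have := abs_sum_Xw_le (b := b) (w := w) hG (range (N M)) y
      gcongr
  · -- the characteristic function under Lebesgue measure
    have h1 := (clt_Leb hb hw hG hG0 t).comp hN
    refine h1.congr fun M => ?_
    simp only [Function.comp_apply]
    have h2 : ∀ x, Complex.exp ((t * ZN b w G (s M) (N M) x : ℝ) * Complex.I) =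
        (fun y => Complex.exp ((t * ((∑ n ∈ range (N M), Xw b w G n y) / √(N M : ℝ)) : ℝ) *
          Complex.I)) (Tb b (s M) x) := by
      intro x
      simp only
      unfold ZN
      rw [WS_eq]
    simp only [h2]
    rw [invariance hb (h := fun y => Complex.exp ((t * ((∑ n ∈ range (N M), Xw b w G n y) /
      √(N M : ℝ)) : ℝ) * Complex.I)) ?_ (C := 1) ?_]
    · exact Complex.measurable_exp.comp ((Complex.measurable_ofReal.comp
        (((Finset.measurable_fun_sum _ fun j _ => measurable_Xw _ _ _ _).div_const _).const_mul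
          t)).mul_const _)
    · intro y
      rw [Complex.norm_exp_ofReal_mul_I]

/-- **the central limit theorem** in good families -/
theorem clt_family (hb : 1 ≤ b) (hw : 1 ≤ w) (hG : ∀ c, |G c| ≤ K)
    (hG0 : ∑ c ∈ range (b ^ w), G c = 0) (hσ : 0 < sigma2 b w G) {A : ℝ}
    {S : ℕ → Set (Measure ℝ)} (hS : ∀ M, 1 ≤ M → ∀ P ∈ S M, IsProbabilityMeasure P)
    (hGood : ∀ k, Good b k A S) (P : ℕ → Measure ℝ) [∀ M, IsProbabilityMeasure (P M)]
    (hP : ∀ᶠ M in atTop, P M ∈ S M) (s N : ℕ → ℕ) (hN : Tendsto N atTop atTop)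
    (hsN : ∀ᶠ M : ℕ in atTop, ((s M + N M : ℕ) : ℝ) ≤ A * log M) (a : ℝ) :
    Tendsto (fun M => (P M).real {x | WS b w G (s M) (N M) x ≤ a * √(sigma2 b w G * N M)}) atTop
      (𝓝 ((gaussianReal 0 1).real (Set.Iic a))) := by
  set σ := √(sigma2 b w G) with hσdef
  have hσ0 : 0 < σ := Real.sqrt_pos.2 hσ
  have hσ2 : σ ^ 2 = sigma2 b w G := Real.sq_sqrt hσ.le
  -- the laws of the normalised sums
  have hm : ∀ M, Measurable (fun x => ZN b w G (s M) (N M) x / σ) := fun M =>
    (measurable_ZN _ _ _ _ _).div_const _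
  set μ : ℕ → ProbabilityMeasure ℝ := fun M =>
    ⟨(P M).map (fun x => ZN b w G (s M) (N M) x / σ),
      Measure.isProbabilityMeasure_map (hm M).aemeasurable⟩ with hμ
  set γ : ProbabilityMeasure ℝ := ⟨gaussianReal 0 1, inferInstance⟩ with hγ
  have hconv : Tendsto μ atTop (𝓝 γ) := by
    refine ProbabilityMeasure.tendsto_of_tendsto_charFun fun t => ?_
    have h1 := char_family hb hw hG hG0 hS hGood P hP s N hN hsN (t / σ)
    have h2 : charFun (γ : Measure ℝ) t =
        Complex.exp (-((sigma2 b w G : ℝ) : ℂ) * ((t / σ : ℝ) : ℂ) ^ 2 / 2) := by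
      change charFun (gaussianReal 0 1) t = _
      rw [charFun_gaussianReal]
      congr 1
      rw [← hσ2]
      have : (σ : ℂ) ≠ 0 := by exact_mod_cast hσ0.ne'
      push_cast
      field_simp
      ring
    rw [h2]
    refine h1.congr fun M => ?_
    change _ = charFun ((P M).map (fun x => ZN b w G (s M) (N M) x / σ)) t
    rw [charFun_apply_real, integral_map (hm M).aemeasurable (by fun_prop)]
    congr 1
    ext x
    congr 1
    have : (σ : ℂ) ≠ 0 := by exact_mod_cast hσ0.ne'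
    push_cast
    field_simp
  have hfr : γ (frontier (Set.Iic a)) = 0 := by
    rw [frontier_Iic]
    have h1 : (gaussianReal 0 1) {a} = 0 := by
      have := noAtoms_gaussianReal (μ := 0) (v := 1) one_ne_zero
      exact measure_singleton a
    have h2 : ((γ {a} : NNReal) : ENNReal) = 0 := by
      rw [ProbabilityMeasure.ennreal_coeFn_eq_coeFn_toMeasure]
      exact h1
    exact_mod_cast h2
  have h3 := ProbabilityMeasure.tendsto_measure_of_null_frontier_of_tendsto hconv hfr
  have h4 : Tendsto (fun M => ((μ M (Set.Iic a) : NNReal) : ℝ)) atTop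
      (𝓝 ((γ (Set.Iic a) : NNReal) : ℝ)) := (NNReal.continuous_coe.tendsto _).comp h3
  refine h4.congr' ?_
  filter_upwards [hN.eventually_ge_atTop 1] with M hM
  have hNR : (0 : ℝ) < N M := by exact_mod_cast hM
  change ((P M).map (fun x => ZN b w G (s M) (N M) x / σ)).real (Set.Iic a) = _
  rw [map_measureReal_apply (hm M) measurableSet_Iic]
  congr 1
  ext x
  simp only [Set.mem_preimage, Set.mem_Iic, Set.mem_ofPred_eq]
  unfold ZN
  rw [Real.sqrt_mul hσ.le, ← hσdef, div_div, div_le_iff₀ (by positivity)]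
  constructor
  · intro h; linarith
  · intro h; linarith

end

end Pool.Agent.Y933.KD
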