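import Mathlib
import Pool.Agent.TH419.WI.ArithF

/-!
# The diophantine input (helper933)

Nonzero sums of `k` terms `h b ^ n` times an algebraic irrational number are not very close to
integers, uniformly for coefficients `h` up to a small exponential.
-/

set_option autoImplicit false

open Finset Filter Topology

namespace Pool.Agent.Y933.KD

open Pool.Agent.TH419.WI

/-- the exponent vector of `b ^ n` for `1 ≤ b ≤ B` -/
def ex (B b n : ℕ) : Fin B → ℕ := fun v => if (v : ℕ) + 1 = b then n else 0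

lemma mon_ex {B b : ℕ} (hb : 1 ≤ b) (hB : b ≤ B) (n : ℕ) :
    mon (fun v : Fin B => (v : ℕ) + 1) (ex B b n) = (b : ℤ) ^ n := by
  unfold mon ex
  rw [Finset.prod_eq_single (⟨b - 1, by omega⟩ : Fin B)]
  · have h1 : b - 1 + 1 = b := by omega
    simp only [h1, if_true]
  · intro v _ hv
    have : ¬ ((v : ℕ) + 1 = b) := by
      intro h
      apply hv
      ext
      simp only
      omega
    rw [if_neg this, pow_zero]
  · intro h
    exact absurd (Finset.mem_univ _) h

theorem dioph (ξ : ℝ) (halg : IsAlgebraic ℚ ξ) (hirr : Irrational ξ) (B k : ℕ) (δ : ℝ)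
    (hδ : 0 < δ) :
    ∃ η : ℝ, 0 < η ∧ ∃ L0 : ℝ, ∀ L : ℝ, L0 ≤ L → ∀ (b n : Fin k → ℕ) (h : Fin k → ℤ) (P : ℤ),
      (∀ i, 1 ≤ b i ∧ b i ≤ B) → (∀ i, (n i : ℝ) ≤ L) → (∀ i, |(h i : ℝ)| ≤ Real.exp (η * L)) →
      ∑ i, h i * (b i : ℤ) ^ n i ≠ 0 →
      Real.exp (-(δ * L)) < |ξ * ((∑ i, h i * (b i : ℤ) ^ n i : ℤ) : ℝ) - P| := by
  by_contra hcon
  push Not at hcon
  have hpos : ∀ j : ℕ, (0 : ℝ) < 1 / ((j : ℝ) + 1) := fun j => by positivity
  choose L hL b n h P h1 h2 h3 h4 h5 using fun j : ℕ => hcon (1 / ((j : ℝ) + 1)) (hpos j) j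
  have hLt : Tendsto L atTop atTop := tendsto_atTop_mono hL tendsto_natCast_atTop_atTop
  obtain ⟨A, d, hd, hfin, hA⟩ := exists_order (fun _ : Fin 1 => ξ) (fun _ => halg)
  have hdR : (d : ℝ) ≠ 0 := by exact_mod_cast hd
  let ρ : A →+* ℝ := A.val.toRingHom
  have hρ : ∀ x : A, ρ x = (x : ℝ) := fun x => rfl
  have hmon : ∀ j i, mon (fun v : Fin B => (v : ℕ) + 1) (ex B (b j i) (n j i)) =
      (b j i : ℤ) ^ n j i := fun j i => mon_ex (h1 j i).1 (h1 j i).2 _
  have hsum : ∀ j, ∑ i, ρ (⟨(d : ℝ) * ξ, hA 0⟩ : A) *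
      ((mon (fun v : Fin B => (v : ℕ) + 1) (ex B (b j i) (n j i)) * h j i : ℤ) : ℝ) =
      (d : ℝ) * (ξ * ((∑ i, h j i * (b j i : ℤ) ^ n j i : ℤ) : ℝ)) := by
    intro j
    simp only [hmon, hρ]
    push_cast
    rw [← Finset.mul_sum, mul_assoc]
    congr 2
    refine Finset.sum_congr rfl fun i _ => ?_
    ring
  have hC : (0 : ℝ) ≤ Real.log (B + 1) := Real.log_nonneg (by
    have : (0 : ℝ) ≤ B := Nat.cast_nonneg B
    linarith)
  refine claim A ρ (g := fun v : Fin B => (v : ℕ) + 1) (fun v => Nat.succ_pos _) hC k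
    (fun _ => (⟨(d : ℝ) * ξ, hA 0⟩ : A)) (δ / 2) (by positivity) L hLt (fun _ => 0)
    (fun j i => ex B (b j i) (n j i)) (fun j i => h j i) (fun j => d * P j) ?_ ?_ ?_ ?_ ?_ ?_
  · filter_upwards [hLt.eventually_ge_atTop 0] with j hj
    rw [mon_zero]
    push_cast
    exact Real.one_le_exp (mul_nonneg hC hj)
  · refine Eventually.of_forall fun j i => ?_
    rw [mon_zero, hmon]
    have : (1 : ℤ) ≤ b j i := by exact_mod_cast (h1 j i).1
    exact one_le_pow₀ this
  · filter_upwards [hLt.eventually_ge_atTop 0] with j hj i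
    rw [hmon]
    push_cast
    have hb1 : (1 : ℝ) ≤ b j i := by exact_mod_cast (h1 j i).1
    have hb2 : (b j i : ℝ) ≤ B + 1 := by
      have : (b j i : ℝ) ≤ B := by exact_mod_cast (h1 j i).2
      linarith
    calc (b j i : ℝ) ^ n j i = Real.exp (Real.log (b j i) * n j i) := by
          rw [mul_comm, Real.exp_nat_mul, Real.exp_log (by linarith)]
      _ ≤ Real.exp (Real.log (B + 1) * L j) := by
          refine Real.exp_le_exp.2 ?_
          exact mul_le_mul (Real.log_le_log (by linarith) hb2) (h2 j i) (Nat.cast_nonneg _) hC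
  · intro ε hε
    have h6 : Tendsto (fun j : ℕ => 1 / ((j : ℝ) + 1)) atTop (𝓝 0) :=
      tendsto_one_div_add_atTop_nhds_zero_nat
    filter_upwards [hLt.eventually_ge_atTop 0, h6.eventually_le_const hε] with j hj hj2 i
    refine (h3 j i).trans (Real.exp_le_exp.2 ?_)
    exact mul_le_mul_of_nonneg_right hj2 hj
  · refine Eventually.of_forall fun j => ?_
    rw [hsum j]
    have h6 : Irrational ((d : ℝ) * (ξ * ((∑ i, h j i * (b j i : ℤ) ^ n j i : ℤ) : ℝ))) := by
      rw [irrational_intCast_mul_iff]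
      refine ⟨hd, ?_⟩
      rw [mul_comm, irrational_intCast_mul_iff]
      exact ⟨h4 j, hirr⟩
    exact h6
  · filter_upwards [ev_const_le hLt |(d : ℝ)| (δ / 2) (by positivity)] with j h6
    rw [hsum j, mon_zero, one_mul]
    push_cast
    rw [← mul_sub, abs_mul, one_mul]
    have h7 := h5 j
    push_cast at h7
    calc |(d : ℝ)| * |ξ * (∑ i, (h j i : ℝ) * (b j i : ℝ) ^ n j i) - (P j : ℝ)|
        ≤ Real.exp (δ / 2 * L j) * Real.exp (-(δ * L j)) :=
          mul_le_mul h6 h7 (abs_nonneg _) (Real.exp_pos _).le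
      _ = Real.exp (-(δ / 2 * L j)) := by
          rw [← Real.exp_add]; congr 1; ring

end Pool.Agent.Y933.KD
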