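import Pool.Agent.Y933.KD.Unif
import Pool.Agent.Y933.KD.Dioph

/-!
# Integral linear combinations of algebraic numbers (helper933)
-/

set_option autoImplicit false

namespace Pool.Agent.Y933.KD

open Finset Real MeasureTheory

/-- the measures of the problem: all shifts -/
def SM {d : ℕ} (ω : Fin d → ℝ) (M : ℕ) : Set (Measure ℝ) :=
  {P | ∃ y : ℝ, P = unif (box d M) (comb ω y)}

lemma SM_prob {d : ℕ} (ω : Fin d → ℝ) (M : ℕ) (hM : 1 ≤ M) (P : Measure ℝ) (hP : P ∈ SM ω M) :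
    IsProbabilityMeasure P := by
  obtain ⟨y, rfl⟩ := hP
  refine unif_prob ?_ _
  rw [← Finset.card_pos, card_box]
  positivity

theorem good_mult {d : ℕ} (ω : Fin d → ℝ) (j0 : Fin d) (halg : IsAlgebraic ℚ (ω j0))
    (hirr : Irrational (ω j0)) (B k : ℕ) (A : ℝ) : Good B k A (SM ω) := by
  obtain ⟨η0, hη0, L0, hL0⟩ := dioph (ω j0) halg hirr B k (1 / (2 * max A 1)) (by positivity)
  have hA : 0 < max A 1 := by positivity
  refine ⟨min (η0 * max A 1) (1 / 4), by positivity, ⌈exp |L0|⌉₊ + 1, ?_⟩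
  intro M hM P hP b n h hb hn hh hne
  obtain ⟨y, rfl⟩ := hP
  have hM1 : 1 ≤ M := by omega
  have hMR : (1 : ℝ) ≤ M := by exact_mod_cast hM1
  have hMp : (0 : ℝ) < M := by linarith
  have hlog : |L0| ≤ log M := by
    rw [← Real.log_exp |L0|]
    apply Real.log_le_log (exp_pos _)
    calc exp |L0| ≤ (⌈exp |L0|⌉₊ : ℝ) := Nat.le_ceil _
      _ ≤ M := by exact_mod_cast (by omega : ⌈exp |L0|⌉₊ ≤ M)
  have hlog0 : 0 ≤ log M := (abs_nonneg _).trans hlog
  have hL : L0 ≤ max A 1 * log M := by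
    calc L0 ≤ |L0| := le_abs_self _
      _ ≤ log M := hlog
      _ = 1 * log M := (one_mul _).symm
      _ ≤ max A 1 * log M := by gcongr; exact le_max_right _ _
  have key := hL0 (max A 1 * log M) hL b n h
  have hexp : exp (-(1 / (2 * max A 1) * (max A 1 * log M))) = (M : ℝ) ^ (-(1 / 2) : ℝ) := by
    rw [Real.rpow_def_of_pos hMp]
    congr 1
    field_simp
  have h1 : ∀ P : ℤ, (M : ℝ) ^ (-(1 / 2) : ℝ) ≤
      |((∑ i, h i * (b i : ℤ) ^ n i : ℤ) : ℝ) * ω j0 - P| := by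
    intro P
    have h2 := key P hb (fun i => (hn i).trans (by gcongr; exact le_max_left _ _))
      (fun i => (hh i).trans (by
        rw [Real.rpow_def_of_pos hMp]
        apply Real.exp_le_exp.2
        calc log M * min (η0 * max A 1) (1 / 4) ≤ log M * (η0 * max A 1) := by
              gcongr
              exact min_le_left _ _
          _ = η0 * (max A 1 * log M) := by ring)) hne
    rw [hexp] at h2
    rw [mul_comm]
    exact h2.le
  refine (hat_comb hM1 ω y _ j0 (by positivity) h1).trans ?_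
  have h3 : 1 / ((M : ℝ) * (2 * (M : ℝ) ^ (-(1 / 2) : ℝ))) = 1 / 2 * (M : ℝ) ^ (-(1 / 2) : ℝ) := by
    have h4 : (M : ℝ) * (M : ℝ) ^ (-(1 / 2) : ℝ) * (M : ℝ) ^ (-(1 / 2) : ℝ) = 1 := by
      rw [mul_assoc, ← Real.rpow_add hMp]
      norm_num
      rw [Real.rpow_neg_one]
      field_simp
    have h5 : (M : ℝ) ^ (-(1 / 2) : ℝ) ≠ 0 := by positivity
    field_simp
    linarith
  rw [h3]
  calc 1 / 2 * (M : ℝ) ^ (-(1 / 2) : ℝ) ≤ 1 * (M : ℝ) ^ (-(1 / 2) : ℝ) := by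
        gcongr; norm_num
    _ = (M : ℝ) ^ (-(1 / 2) : ℝ) := one_mul _
    _ ≤ (M : ℝ) ^ (-(min (η0 * max A 1) (1 / 4))) := by
        apply Real.rpow_le_rpow_of_exponent_le hMR
        have := min_le_right (η0 * max A 1) (1 / 4)
        linarith

/-- **`k`-digit tests** for integral linear combinations of real numbers, one of which is an
algebraic irrational number -/
theorem tests_mult {d : ℕ} (ω : Fin d → ℝ) (j0 : Fin d) (halg : IsAlgebraic ℚ (ω j0))
    (hirr : Irrational (ω j0)) (B k : ℕ) (A : ℝ) :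
    ∃ δ : ℝ, 0 < δ ∧ ∃ C : ℝ, ∀ M : ℕ, 1 ≤ M → ∀ y : ℝ, ∀ (b n : Fin k → ℕ),
      (∀ i, 1 ≤ b i ∧ b i ≤ B) → (∀ i, (n i : ℝ) ≤ A * log M) → ∀ u v : Fin k → ℝ,
      (∀ i, 0 ≤ u i) → (∀ i, v i ≤ 1) →
      |(unif (box d M) (comb ω y)).real (Ev b n u v) - Leb.real (Ev b n u v)| ≤
        C * (M : ℝ) ^ (-δ) := by
  obtain ⟨δ, hδ, C, hC⟩ := power (SM_prob ω) (good_mult ω j0 halg hirr B k A)
  exact ⟨δ, hδ, C, fun M hM y b n hb hn u v hu hv => hC M hM _ ⟨y, rfl⟩ b n hb hn u v hu hv⟩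

end Pool.Agent.Y933.KD
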