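import Pool.Agent.Y933.KD.Clt
import Pool.Agent.Y933.KD.Mult
import Pool.Agent.Y933.KD.Roots

/-!
# The central limit theorem for the word counts of multiples and powers (helper933)
-/

set_option autoImplicit false

namespace Pool.Agent.Y933.KD

open Finset Real MeasureTheory Filter Topology ProbabilityTheory

/-- the covariances as finite sums -/
lemma cov_formula {b w : ℕ} {G : ℕ → ℝ} (hb : 1 ≤ b) (h : ℕ) :
    cov b w G h = (∑ c ∈ range (b ^ (w + h)), G (c / b ^ h) * G (c % b ^ w)) /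
      (b : ℝ) ^ (w + h) := by
  have hb' : (0 : ℝ) < b := by exact_mod_cast hb
  have h1 := int_renew (b ^ (w + h)) (Nat.one_le_pow _ _ hb)
    (fun c => ((G ((c / b ^ h) % b ^ w) * G (c % b ^ w) : ℝ) : ℂ)) (fun _ => 1)
    measurable_const (C := 1) (by simp)
  simp only [mul_one, integral_const, probReal_univ, one_smul] at h1
  have h2 : cov b w G h = ∫ x, G ((⌊((b ^ (w + h) : ℕ) : ℝ) * x⌋₊ / b ^ h) % b ^ w) *
      G (⌊((b ^ (w + h) : ℕ) : ℝ) * x⌋₊ % b ^ w) ∂Leb := by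
    unfold cov
    refine int_Leb_congr' fun x hx => ?_
    unfold Xw
    rw [wd_eq_mod hb w 0 hx.1, wd_eq_mod hb w h hx.1, zero_add]
    have e1 : ⌊(b : ℝ) ^ w * x⌋₊ = ⌊((b ^ (w + h) : ℕ) : ℝ) * x⌋₊ / b ^ h := by
      rw [← Nat.floor_div_natCast]
      congr 1
      push_cast
      rw [pow_add]
      have : (b : ℝ) ^ h ≠ 0 := by positivity
      field_simp
    have e2 : ⌊(b : ℝ) ^ (h + w) * x⌋₊ = ⌊((b ^ (w + h) : ℕ) : ℝ) * x⌋₊ := by
      rw [Nat.add_comm h w]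
      push_cast
      rfl
    rw [e1, e2]
  have h3 : ((∫ x, G ((⌊((b ^ (w + h) : ℕ) : ℝ) * x⌋₊ / b ^ h) % b ^ w) *
      G (⌊((b ^ (w + h) : ℕ) : ℝ) * x⌋₊ % b ^ w) ∂Leb : ℝ) : ℂ) =
      (((∑ c ∈ range (b ^ (w + h)), G (c / b ^ h) * G (c % b ^ w)) / (b : ℝ) ^ (w + h) : ℝ) :
        ℂ) := by
    rw [← integral_complex_ofReal, h1]
    push_cast
    rw [one_div, inv_mul_eq_div]
    congr 1
    refine sum_congr rfl fun c hc => ?_
    have hc' : c / b ^ h < b ^ w := by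
      rw [Nat.div_lt_iff_lt_mul (Nat.pos_of_ne_zero (by positivity)), ← pow_add]
      exact mem_range.1 hc
    rw [Nat.mod_eq_of_lt hc']
  rw [h2]
  exact_mod_cast h3

/-- the mean of `F` over the words of length `w` -/
noncomputable def mn (b w : ℕ) (F : ℕ → ℝ) : ℝ := (∑ c ∈ range (b ^ w), F c) / (b : ℝ) ^ w

/-- the covariance at the distance `h`, as a finite sum -/
noncomputable def cv (b w : ℕ) (F : ℕ → ℝ) (h : ℕ) : ℝ :=
  (∑ c ∈ range (b ^ (w + h)), (F (c / b ^ h) - mn b w F) * (F (c % b ^ w) - mn b w F)) /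
    (b : ℝ) ^ (w + h)

/-- the centred function -/
noncomputable def cen (b w : ℕ) (F : ℕ → ℝ) (c : ℕ) : ℝ := if c < b ^ w then F c - mn b w F else 0

lemma cen_le (b w : ℕ) (F : ℕ → ℝ) (c : ℕ) :
    |cen b w F c| ≤ ∑ c ∈ range (b ^ w), |F c - mn b w F| := by
  unfold cen
  split_ifs with h
  · exact single_le_sum (f := fun c => |F c - mn b w F|) (fun _ _ => abs_nonneg _)
      (mem_range.2 h)
  · rw [abs_zero]; exact sum_nonneg fun _ _ => abs_nonneg _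

lemma cen_sum {b w : ℕ} (hb : 1 ≤ b) (F : ℕ → ℝ) : ∑ c ∈ range (b ^ w), cen b w F c = 0 := by
  have hb' : (0 : ℝ) < b := by exact_mod_cast hb
  have h1 : ∀ c ∈ range (b ^ w), cen b w F c = F c - mn b w F := fun c hc => by
    unfold cen
    rw [if_pos (mem_range.1 hc)]
  rw [sum_congr rfl h1, sum_sub_distrib, sum_const, card_range, nsmul_eq_mul]
  unfold mn
  push_cast
  field_simp
  ring

lemma cov_cen {b w : ℕ} (hb : 1 ≤ b) (F : ℕ → ℝ) (h : ℕ) : cov b w (cen b w F) h = cv b w F h := by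
  rw [cov_formula hb]
  unfold cv
  congr 1
  refine sum_congr rfl fun c hc => ?_
  have hc' : c / b ^ h < b ^ w := by
    rw [Nat.div_lt_iff_lt_mul (Nat.pos_of_ne_zero (by positivity)), ← pow_add]
    exact mem_range.1 hc
  have hc'' : c % b ^ w < b ^ w := Nat.mod_lt _ (Nat.pos_of_ne_zero (by positivity))
  unfold cen
  rw [if_pos hc', if_pos hc'']

lemma sigma2_cen {b w : ℕ} (hb : 1 ≤ b) (F : ℕ → ℝ) :
    sigma2 b w (cen b w F) = cv b w F 0 + 2 * ∑ h ∈ Ico 1 w, cv b w F h := by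
  unfold sigma2
  rw [cov_cen hb]
  congr 2
  exact sum_congr rfl fun h _ => cov_cen hb F h

lemma WS_cen {b w : ℕ} (hb : 1 ≤ b) (F : ℕ → ℝ) (s N : ℕ) (x : ℝ) :
    WS b w (cen b w F) s N x = ∑ i ∈ range N, F (wd b w (s + i) x) - N * mn b w F := by
  unfold WS
  have h1 : ∀ i ∈ range N, cen b w F (wd b w (s + i) x) = F (wd b w (s + i) x) - mn b w F := by
    intro i _
    unfold cen
    rw [if_pos (wd_lt hb _ _ _)]
  rw [sum_congr rfl h1, sum_sub_distrib, sum_const, card_range, nsmul_eq_mul]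

lemma unif_shift (L M : ℕ) (ξ y : ℝ) :
    unif (Finset.Ioc L (L + M)) (fun m : ℕ => m * ξ + y) =
      unif (box 1 M) (comb (fun _ : Fin 1 => ξ) (y + L * ξ)) := by
  unfold unif
  rw [card_box, Nat.card_Ioc, Nat.add_sub_cancel_left, pow_one]
  congr 1
  unfold box comb
  refine sum_nbij' (fun m => fun _ => m - L) (fun f => f 0 + L) ?_ ?_ ?_ ?_ ?_
  · intro m hm
    rw [mem_Ioc] at hm
    rw [Fintype.mem_piFinset]
    intro _
    rw [mem_Icc]
    omega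
  · intro f hf
    rw [Fintype.mem_piFinset] at hf
    have := hf 0
    rw [mem_Icc] at this
    rw [mem_Ioc]
    omega
  · intro m hm
    rw [mem_Ioc] at hm
    change m - L + L = m
    omega
  · intro f _
    ext i
    have : i = 0 := Subsingleton.elim _ _
    rw [this]
    change f 0 + L - L = f 0
    omega
  · intro m hm
    rw [mem_Ioc] at hm
    congr 1
    simp only [univ_unique, sum_singleton]
    rw [Nat.cast_sub hm.1.le]
    ring

/-- the measures of a sequence of families, with a convention for `M = 0` -/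
noncomputable def Pf (L : ℕ → ℕ) (x : ℕ → ℕ → ℝ) (M : ℕ) : Measure ℝ :=
  if M = 0 then Leb else unif (Finset.Ioc (L M) (L M + M)) (x M)

instance (L : ℕ → ℕ) (x : ℕ → ℕ → ℝ) (M : ℕ) : IsProbabilityMeasure (Pf L x M) := by
  unfold Pf
  split_ifs with h
  · infer_instance
  · refine unif_prob ?_ _
    rw [Finset.nonempty_Ioc]
    omega

theorem clt_count {b w : ℕ} (hb : 1 ≤ b) (hw : 1 ≤ w) (F : ℕ → ℝ)
    (hσ : 0 < cv b w F 0 + 2 * ∑ h ∈ Finset.Ico 1 w, cv b w F h) {A : ℝ}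
    {S : ℕ → Set (Measure ℝ)} (hS : ∀ M, 1 ≤ M → ∀ P ∈ S M, IsProbabilityMeasure P)
    (hGood : ∀ k, Good b k A S) (L : ℕ → ℕ) (x : ℕ → ℕ → ℝ)
    (hP : ∀ M : ℕ, 1 ≤ M → unif (Finset.Ioc (L M) (L M + M)) (x M) ∈ S M)
    (s N : ℕ → ℕ) (hN : Tendsto N atTop atTop)
    (hsN : ∀ᶠ M : ℕ in atTop, (s M : ℝ) + N M ≤ A * log M) (a : ℝ) :
    Tendsto (fun M : ℕ => (((Finset.Ioc (L M) (L M + M)).filter (fun m =>
      ∑ i ∈ range (N M), F (wd b w (s M + i) (x M m)) - N M * mn b w F ≤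
        a * √((cv b w F 0 + 2 * ∑ h ∈ Finset.Ico 1 w, cv b w F h) * N M))).card : ℝ) / M) atTop
      (𝓝 ((gaussianReal 0 1).real (Set.Iic a))) := by
  classical
  have h1 := clt_family (G := cen b w F) hb hw (cen_le b w F) (cen_sum hb F)
    (by rw [sigma2_cen hb]; exact hσ) hS hGood (Pf L x) (by
      filter_upwards [eventually_ge_atTop 1] with M hM
      unfold Pf
      rw [if_neg (by omega)]
      exact hP M hM) s N hN (by
      filter_upwards [hsN] with M hM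
      push_cast
      exact hM) a
  refine h1.congr' ?_
  filter_upwards [eventually_ge_atTop 1] with M hM
  have hmeas : MeasurableSet {z | WS b w (cen b w F) (s M) (N M) z ≤
      a * √(sigma2 b w (cen b w F) * N M)} :=
    measurableSet_le (measurable_WS _ _ _ _ _) measurable_const
  unfold Pf
  rw [if_neg (by omega), real_unif _ _ hmeas, Nat.card_Ioc, Nat.add_sub_cancel_left]
  congr 3
  ext m
  simp only [Set.mem_ofPred_eq, WS_cen hb, sigma2_cen hb, mem_filter]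

theorem clt_mult {b w : ℕ} (hb : 1 ≤ b) (hw : 1 ≤ w) (F : ℕ → ℝ)
    (hσ : 0 < cv b w F 0 + 2 * ∑ h ∈ Finset.Ico 1 w, cv b w F h) {A : ℝ} (L : ℕ → ℕ)
    (ξ : ℝ) (halg : IsAlgebraic ℚ ξ) (hirr : Irrational ξ) (y : ℕ → ℝ)
    (s N : ℕ → ℕ) (hN : Tendsto N atTop atTop)
    (hsN : ∀ᶠ M : ℕ in atTop, (s M : ℝ) + N M ≤ A * log M) (a : ℝ) :
    Tendsto (fun M : ℕ => (((Finset.Ioc (L M) (L M + M)).filter (fun m : ℕ =>
      ∑ i ∈ range (N M), F (wd b w (s M + i) (m * ξ + y M)) - N M * mn b w F ≤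
        a * √((cv b w F 0 + 2 * ∑ h ∈ Finset.Ico 1 w, cv b w F h) * N M))).card : ℝ) / M) atTop
      (𝓝 ((gaussianReal 0 1).real (Set.Iic a))) :=
  clt_count hb hw F hσ (SM_prob (fun _ : Fin 1 => ξ))
    (fun k => good_mult (fun _ : Fin 1 => ξ) 0 halg hirr b k A) L (fun M m => m * ξ + y M)
    (fun M _ => ⟨_, unif_shift (L M) M ξ (y M)⟩) s N hN hsN a

theorem clt_root {b w : ℕ} (hb : 1 ≤ b) (hw : 1 ≤ w) (F : ℕ → ℝ)
    (hσ : 0 < cv b w F 0 + 2 * ∑ h ∈ Finset.Ico 1 w, cv b w F h) {A : ℝ} (L : ℕ → ℕ)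
    {θ ε W : ℝ} (hθ : 0 < θ) (hθ' : ∀ r : ℕ, θ ≠ r) (hε : 0 < ε) (ω y : ℕ → ℝ)
    (hL : ∀ M : ℕ, 1 ≤ M → (L M : ℝ) ^ (1 / 2 + ε) ≤ M ∧ (L M : ℝ) ^ (1 - θ + ε) ≤ M ∧
      1 ≤ |ω M| ∧ |ω M| ≤ (M : ℝ) ^ W)
    (s N : ℕ → ℕ) (hN : Tendsto N atTop atTop)
    (hsN : ∀ᶠ M : ℕ in atTop, (s M : ℝ) + N M ≤ A * log M) (a : ℝ) :
    Tendsto (fun M : ℕ => (((Finset.Ioc (L M) (L M + M)).filter (fun m : ℕ =>
      ∑ i ∈ range (N M), F (wd b w (s M + i) (ω M * (m : ℝ) ^ θ + y M)) - N M * mn b w F ≤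
        a * √((cv b w F 0 + 2 * ∑ h ∈ Finset.Ico 1 w, cv b w F h) * N M))).card : ℝ) / M) atTop
      (𝓝 ((gaussianReal 0 1).real (Set.Iic a))) :=
  clt_count hb hw F hσ (SR_prob θ ε W) (fun k => good_root hθ hθ' hε W b k A) L
    (fun M m => ω M * (m : ℝ) ^ θ + y M)
    (fun M hM => ⟨L M, ω M, y M, (hL M hM).1, (hL M hM).2.1, (hL M hM).2.2.1, (hL M hM).2.2.2, rfl⟩)
    s N hN hsN a

end Pool.Agent.Y933.KD
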