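import Pool.Agent.Y933.KD.Power
import Pool.Agent.Y933.KD.Tay

/-!
# Words of digits and their moments (helper933)
-/

set_option autoImplicit false

namespace Pool.Agent.Y933.KD

open Finset Real MeasureTheory Filter Topology

/-- the word of the `w` digits in base `b` after the `n`-th place, as a number `< b ^ w` -/
noncomputable def wd (b w n : ℕ) (x : ℝ) : ℕ := ⌊(b : ℝ) ^ w * Int.fract ((b : ℝ) ^ n * x)⌋₊

lemma wd_eq_iff {b w n c : ℕ} (hb : 1 ≤ b) (x : ℝ) :
    wd b w n x = c ↔ (c : ℝ) / (b : ℝ) ^ w ≤ Int.fract ((b : ℝ) ^ n * x) ∧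
      Int.fract ((b : ℝ) ^ n * x) < ((c : ℝ) + 1) / (b : ℝ) ^ w := by
  have hb' : (0 : ℝ) < b := by exact_mod_cast hb
  have hbw : (0 : ℝ) < (b : ℝ) ^ w := by positivity
  unfold wd
  rw [Nat.floor_eq_iff (mul_nonneg hbw.le (Int.fract_nonneg _)), div_le_iff₀ hbw, lt_div_iff₀ hbw,
    mul_comm]

lemma wd_lt {b : ℕ} (hb : 1 ≤ b) (w n : ℕ) (x : ℝ) : wd b w n x < b ^ w := by
  have hb' : (0 : ℝ) < b := by exact_mod_cast hb
  have hbw : (0 : ℝ) < (b : ℝ) ^ w := by positivity
  unfold wd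
  rw [Nat.floor_lt (mul_nonneg hbw.le (Int.fract_nonneg _))]
  push_cast
  have := Int.fract_lt_one ((b : ℝ) ^ n * x)
  nlinarith

lemma measurable_wd (b w n : ℕ) : Measurable (wd b w n) := by
  unfold wd
  exact Nat.measurable_floor.comp ((measurable_fract.comp (measurable_const_mul _)).const_mul _)

/-- the condition that the word at the place `n` is `c` -/
noncomputable def cnd (b w n c : ℕ) (x : ℝ) : ℝ := if wd b w n x = c then 1 else 0

lemma word_sum {b w : ℕ} (hb : 1 ≤ b) (G : ℕ → ℝ) (n : ℕ) (x : ℝ) :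
    G (wd b w n x) = ∑ c ∈ range (b ^ w), G c * cnd b w n c x := by
  unfold cnd
  simp only [mul_ite, mul_one, mul_zero]
  rw [Finset.sum_ite_eq, if_pos (mem_range.2 (wd_lt hb w n x))]

lemma prod_cnd {b w j : ℕ} (hb : 1 ≤ b) (p : Fin j → ℕ × ℕ) (x : ℝ) :
    ∏ i, cnd b w (p i).1 (p i).2 x =
      (Ev (fun _ : Fin j => b) (fun i => (p i).1) (fun i => ((p i).2 : ℝ) / (b : ℝ) ^ w)
        (fun i => (((p i).2 : ℝ) + 1) / (b : ℝ) ^ w)).indicator 1 x := by
  by_cases hx : x ∈ Ev (fun _ : Fin j => b) (fun i => (p i).1)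
      (fun i => ((p i).2 : ℝ) / (b : ℝ) ^ w) (fun i => (((p i).2 : ℝ) + 1) / (b : ℝ) ^ w)
  · rw [Set.indicator_of_mem hx, Pi.one_apply]
    refine prod_eq_one fun i _ => ?_
    unfold cnd
    rw [if_pos]
    rw [wd_eq_iff hb]
    exact hx i
  · rw [Set.indicator_of_notMem hx]
    have h1 : ∃ i, ¬ (((p i).2 : ℝ) / (b : ℝ) ^ w ≤ Int.fract ((b : ℝ) ^ (p i).1 * x) ∧
        Int.fract ((b : ℝ) ^ (p i).1 * x) < (((p i).2 : ℝ) + 1) / (b : ℝ) ^ w) := by
      by_contra hcon
      push Not at hcon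
      exact hx hcon
    obtain ⟨i, hi⟩ := h1
    refine prod_eq_zero (mem_univ i) ?_
    unfold cnd
    rw [if_neg]
    rw [wd_eq_iff hb]
    exact hi

/-- the sum of a function of the words at the places `s, …, s + N - 1` -/
noncomputable def WS (b w : ℕ) (G : ℕ → ℝ) (s N : ℕ) (x : ℝ) : ℝ :=
  ∑ n ∈ range N, G (wd b w (s + n) x)

lemma measurable_WS (b w : ℕ) (G : ℕ → ℝ) (s N : ℕ) : Measurable (WS b w G s N) := by
  unfold WS
  exact Finset.measurable_fun_sum _ fun n _ => (measurable_of_countable G).comp (measurable_wd _ _ _)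

lemma abs_WS_le {b w : ℕ} {G : ℕ → ℝ} {K : ℝ} (hG : ∀ c, |G c| ≤ K) (s N : ℕ) (x : ℝ) :
    |WS b w G s N x| ≤ N * K := by
  unfold WS
  refine (Finset.abs_sum_le_sum_abs _ _).trans ?_
  calc ∑ n ∈ range N, |G (wd b w (s + n) x)| ≤ ∑ _n ∈ range N, K := sum_le_sum fun n _ => hG _
    _ = N * K := by rw [sum_const, card_range, nsmul_eq_mul]

lemma WS_pow {b w : ℕ} (hb : 1 ≤ b) (G : ℕ → ℝ) (s N j : ℕ) (x : ℝ) :
    WS b w G s N x ^ j = ∑ p ∈ Fintype.piFinset fun _ : Fin j => range N ×ˢ range (b ^ w),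
      (∏ i, G (p i).2) * (Ev (fun _ : Fin j => b) (fun i => s + (p i).1)
        (fun i => ((p i).2 : ℝ) / (b : ℝ) ^ w)
        (fun i => (((p i).2 : ℝ) + 1) / (b : ℝ) ^ w)).indicator (1 : ℝ → ℝ) x := by
  have h1 : WS b w G s N x = ∑ q ∈ range N ×ˢ range (b ^ w), G q.2 * cnd b w (s + q.1) q.2 x := by
    unfold WS
    rw [sum_product]
    refine sum_congr rfl fun n _ => ?_
    exact word_sum hb G (s + n) x
  have h2 : WS b w G s N x ^ j = ∏ _i : Fin j, WS b w G s N x := by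
    rw [prod_const, card_univ, Fintype.card_fin]
  rw [h2]
  simp only [h1]
  rw [prod_univ_sum]
  refine sum_congr rfl fun p _ => ?_
  rw [prod_mul_distrib]
  congr 1
  exact prod_cnd hb (fun i => (s + (p i).1, (p i).2)) x

lemma integral_WS_pow {b w : ℕ} (hb : 1 ≤ b) (G : ℕ → ℝ) (s N j : ℕ) (P : Measure ℝ)
    [IsProbabilityMeasure P] :
    ∫ x, WS b w G s N x ^ j ∂P =
      ∑ p ∈ Fintype.piFinset fun _ : Fin j => range N ×ˢ range (b ^ w),
      (∏ i, G (p i).2) * P.real (Ev (fun _ : Fin j => b) (fun i => s + (p i).1)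
        (fun i => ((p i).2 : ℝ) / (b : ℝ) ^ w) (fun i => (((p i).2 : ℝ) + 1) / (b : ℝ) ^ w)) := by
  simp only [WS_pow hb]
  rw [integral_finsetSum]
  · refine sum_congr rfl fun p _ => ?_
    rw [MeasureTheory.integral_const_mul, integral_indicator_one (measurableSet_Ev _ _ _ _)]
  · intro p _
    refine Integrable.const_mul ?_ _
    exact (integrable_const (1 : ℝ)).indicator (measurableSet_Ev _ _ _ _)

/-- comparison of the moments of word sums for two measures -/
lemma mom_diff {b w : ℕ} (hb : 1 ≤ b) {G : ℕ → ℝ} {K : ℝ} (hG : ∀ c, |G c| ≤ K) (s N j : ℕ)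
    (P Q : Measure ℝ) [IsProbabilityMeasure P] [IsProbabilityMeasure Q] {Δ : ℝ} (hΔ : 0 ≤ Δ)
    (h : ∀ (n : Fin j → ℕ) (u v : Fin j → ℝ), (∀ i, n i ≤ s + N) → (∀ i, 0 ≤ u i) →
      (∀ i, v i ≤ 1) → |P.real (Ev (fun _ => b) n u v) - Q.real (Ev (fun _ => b) n u v)| ≤ Δ) :
    |∫ x, WS b w G s N x ^ j ∂P - ∫ x, WS b w G s N x ^ j ∂Q| ≤ (N * b ^ w * K) ^ j * Δ := by
  have hK : 0 ≤ K := (abs_nonneg _).trans (hG 0)
  have hb' : (0 : ℝ) < b := by exact_mod_cast hb
  rw [integral_WS_pow hb, integral_WS_pow hb, ← sum_sub_distrib]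
  refine (Finset.abs_sum_le_sum_abs _ _).trans ?_
  calc _ ≤ ∑ _p ∈ Fintype.piFinset fun _ : Fin j => range N ×ˢ range (b ^ w), K ^ j * Δ := by
        refine sum_le_sum fun p hp => ?_
        rw [Fintype.mem_piFinset] at hp
        rw [← mul_sub, abs_mul]
        have h1 : |∏ i, G (p i).2| ≤ K ^ j := by
          rw [Finset.abs_prod]
          calc ∏ i, |G (p i).2| ≤ ∏ _i : Fin j, K :=
                prod_le_prod (fun i _ => abs_nonneg _) fun i _ => hG _
            _ = K ^ j := by rw [prod_const, card_univ, Fintype.card_fin]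
        refine mul_le_mul h1 (h _ _ _ ?_ ?_ ?_) (abs_nonneg _) (by positivity)
        · intro i
          have := (mem_product.1 (hp i)).1
          rw [mem_range] at this
          omega
        · intro i; positivity
        · intro i
          have := (mem_product.1 (hp i)).2
          rw [mem_range] at this
          rw [div_le_one (by positivity)]
          exact_mod_cast this
    _ = (N * b ^ w * K) ^ j * Δ := by
        rw [sum_const, Fintype.card_piFinset]
        simp only [card_product, card_range, prod_const, card_univ, Fintype.card_fin,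
          nsmul_eq_mul]
        push_cast
        rw [mul_pow]
        ring

end Pool.Agent.Y933.KD
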