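import Pool.Agent.Y933.KD.Norm

/-!
# Normality up to a multiple of `log M` digits: the union bound (helper933)
-/

set_option autoImplicit false

namespace Pool.Agent.Y933.KD

open Finset Real MeasureTheory Filter Topology

lemma WS_add (b k : ℕ) (G : ℕ → ℝ) (s M N : ℕ) (x : ℝ) :
    WS b k G s (M + N) x = WS b k G s M x + WS b k G (s + M) N x := by
  unfold WS
  rw [sum_range_add]
  congr 1
  exact sum_congr rfl fun i _ => by rw [Nat.add_assoc]

/-- from blocks to long sums -/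
lemma det_block {b k : ℕ} {G : ℕ → ℝ} (hG : ∀ c, |G c| ≤ 1) {L : ℕ} (hL : 1 ≤ L) {τ T x : ℝ}
    (hτ : 0 ≤ τ) (h : ∀ s : ℕ, (s : ℝ) ≤ T → x ∉ Dv b k G s L τ) (s N : ℕ)
    (hsN : (s : ℝ) + N ≤ T) : |WS b k G s N x| ≤ (N : ℝ) / L * τ + L := by
  have hLR : (0 : ℝ) < L := by exact_mod_cast hL
  have key : ∀ J : ℕ, (s : ℝ) + (L * J : ℕ) ≤ T → |WS b k G s (L * J) x| ≤ J * τ := by
    intro J
    induction J with
    | zero => intro _; simp [WS]
    | succ J ih =>
      intro hJ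
      have h0 : (s : ℝ) + (L * J : ℕ) ≤ T := by
        refine le_trans ?_ hJ
        have : (L * J : ℕ) ≤ L * (J + 1) := Nat.mul_le_mul_left _ (by omega)
        have h2 : ((L * J : ℕ) : ℝ) ≤ ((L * (J + 1) : ℕ) : ℝ) := by exact_mod_cast this
        linarith
      have h1 := ih h0
      have h2 := h (s + L * J) (by push_cast at h0 ⊢; exact h0)
      unfold Dv at h2
      rw [Set.mem_ofPred_eq, not_lt] at h2
      rw [Nat.mul_succ, WS_add]
      refine (abs_add_le _ _).trans ?_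
      push_cast
      linarith
  have hdm := Nat.div_add_mod N L
  have h1 : WS b k G s N x = WS b k G s (L * (N / L)) x + WS b k G (s + L * (N / L)) (N % L) x := by
    rw [← WS_add, hdm]
  have h2 : (s : ℝ) + (L * (N / L) : ℕ) ≤ T := by
    refine le_trans ?_ hsN
    have : L * (N / L) ≤ N := Nat.mul_div_le N L
    have h3 : ((L * (N / L) : ℕ) : ℝ) ≤ N := by exact_mod_cast this
    linarith
  have h3 := key (N / L) h2
  have h4 := abs_WS_le (b := b) (w := k) (K := 1) hG (s + L * (N / L)) (N % L) x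
  have h5 : ((N % L : ℕ) : ℝ) ≤ L := by exact_mod_cast (Nat.mod_lt N hL).le
  have h6 : ((N / L : ℕ) : ℝ) ≤ (N : ℝ) / L := Nat.cast_div_le
  rw [h1]
  refine (abs_add_le _ _).trans ?_
  have h7 : ((N / L : ℕ) : ℝ) * τ ≤ (N : ℝ) / L * τ := mul_le_mul_of_nonneg_right h6 hτ
  linarith

lemma sqrt_le_lin {z η : ℝ} (hz : 0 ≤ z) (hη : 0 < η) : √z ≤ η * z + 1 / (4 * η) := by
  have h1 := sq_nonneg (√z * (2 * η) - 1)
  have h2 : √z ^ 2 = z := Real.sq_sqrt hz
  have h3 : (√z * (2 * η) - 1) ^ 2 = 4 * η * (η * z + 1 / (4 * η) - √z) := by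
    have : (√z * (2 * η) - 1) ^ 2 = 4 * η ^ 2 * √z ^ 2 - 4 * η * √z + 1 := by ring
    rw [this, h2]
    field_simp
    ring
  rw [h3] at h1
  have h4 : 0 ≤ η * z + 1 / (4 * η) - √z := by
    by_contra hcon
    push Not at hcon
    nlinarith
  linarith

/-- **normality with power saving exceptional sets** in good families -/
theorem normal_family {B w : ℕ} (hw : 1 ≤ w) {A ε : ℝ} (hε : 0 < ε)
    {S : ℕ → Set (Measure ℝ)} (hS : ∀ M, 1 ≤ M → ∀ P ∈ S M, IsProbabilityMeasure P)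
    (hG : Good B 1 A S) :
    ∃ c : ℝ, 0 < c ∧ ∃ M0 : ℕ, ∀ M : ℕ, M0 ≤ M → ∃ U : Set ℝ, MeasurableSet U ∧
      (∀ P ∈ S M, P.real U ≤ (M : ℝ) ^ (-c)) ∧
      ∀ x, x ∉ U → ∀ b k j s N : ℕ, 2 ≤ b → b ≤ B → 1 ≤ k → k ≤ w → j < b ^ k →
        (s : ℝ) + N ≤ A * log M → |WS b k (ci b k j) s N x| ≤ ε * log M := by
  classical
  obtain ⟨δ, hδ, C, hC⟩ := power hS hG
  -- parameters
  set A1 : ℝ := max A 1 with hA1
  have hA1' : 1 ≤ A1 := le_max_right _ _
  have hA1A : A ≤ A1 := le_max_left _ _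
  set ε' : ℝ := ε / (2 * A1) with hε'
  have hε'0 : 0 < ε' := by positivity
  set lB : ℝ := log (max (B : ℝ) 2) with hlB
  have hlB0 : 0 < lB := Real.log_pos (by have := le_max_right (B : ℝ) 2; linarith)
  set κ : ℝ := min (ε / 2) (δ / (2 * lB)) with hκ
  have hκ0 : 0 < κ := lt_min (by positivity) (by positivity)
  have hκε : κ ≤ ε / 2 := min_le_left _ _
  have hκδ : κ * lB ≤ δ / 2 := by
    have : κ ≤ δ / (2 * lB) := min_le_right _ _
    calc κ * lB ≤ δ / (2 * lB) * lB := by gcongr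
      _ = δ / 2 := by field_simp
  have hwR : (1 : ℝ) ≤ w := by exact_mod_cast hw
  set c0 : ℝ := 3 / 8 * (ε' ^ 2 * κ / w ^ 2) with hc0
  have hc00 : 0 < c0 := by positivity
  set C1 : ℝ := 2 * exp (2 * w ^ 2 + ε' ^ 2 / (2 * w)) with hC1
  have hC10 : 0 < C1 := by positivity
  set c2 : ℝ := min c0 (δ / 2) with hc2
  have hc20 : 0 < c2 := lt_min hc00 (by positivity)
  set nU : ℝ := (B + 1) * (w + 1) * (B : ℝ) ^ w with hnU
  set C3 : ℝ := (nU * (A1 + 1)) * (C1 + |C|) * (1 + 1 / (c2 / 4)) with hC3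
  have hC30 : 0 ≤ C3 := by positivity
  -- large `M`
  have hlog : Tendsto (fun M : ℕ => log (M : ℝ)) atTop atTop :=
    Real.tendsto_log_atTop.comp tendsto_natCast_atTop_atTop
  obtain ⟨M1, hM1⟩ := eventually_atTop.1 ((hlog.eventually_ge_atTop (((w : ℝ) + 1) / κ)).and
    (VdC.ev_le C3 (c2 / 4) (by positivity)))
  refine ⟨c2 / 2, by positivity, max M1 2, fun M hM => ?_⟩
  obtain ⟨hM2, hM3⟩ := hM1 M (le_of_max_le_left hM)
  have hM4 : 2 ≤ M := le_of_max_le_right hM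
  have hMR : (2 : ℝ) ≤ M := by exact_mod_cast hM4
  have hMp : (0 : ℝ) < M := by linarith
  have hM1' : (1 : ℝ) ≤ M := by linarith
  set t : ℝ := log M with ht
  have ht0 : 0 < t := Real.log_pos (by linarith)
  have hκt : (w : ℝ) + 1 ≤ κ * t := by
    rw [div_le_iff₀ hκ0] at hM2
    linarith
  set ℓ : ℕ := ⌊κ * t⌋₊ with hℓ
  have hℓ1 : (ℓ : ℝ) ≤ κ * t := Nat.floor_le (by positivity)
  have hℓ2 : κ * t < ℓ + 1 := Nat.lt_floor_add_one _
  have hwℓ : w ≤ ℓ := by
    have : (w : ℝ) < ℓ + 1 := by linarith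
    have : w < ℓ + 1 := by exact_mod_cast this
    omega
  -- the index set and the exceptional set
  set I : Finset (((ℕ × ℕ) × ℕ) × ℕ) := (((Finset.Icc 2 B ×ˢ Finset.Icc 1 w) ×ˢ range (B ^ w)) ×ˢ
    range (⌊A1 * t⌋₊ + 1)).filter (fun q => q.1.2 < q.1.1.1 ^ q.1.1.2 ∧ (q.2 : ℝ) ≤ A * t) with hI
  set E : ((ℕ × ℕ) × ℕ) × ℕ → Set ℝ := fun q => Dv q.1.1.1 q.1.1.2 (ci q.1.1.1 q.1.1.2 q.1.2) q.2
    (ℓ + 1 - q.1.1.2) (ε' * ((ℓ + 1 - q.1.1.2 : ℕ) : ℝ)) with hE
  refine ⟨⋃ q ∈ I, E q, ?_, ?_, ?_⟩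
  · exact MeasurableSet.biUnion (Finset.countable_toSet I) fun q _ => measurableSet_Dv _ _ _ _ _ _
  · intro P hP
    have := hS M (by omega) P hP
    have hone : ∀ q ∈ I, P.real (E q) ≤ (C1 + |C|) * (M : ℝ) ^ (-c2) := by
      intro q hq
      rw [hI, mem_filter, mem_product, mem_product, mem_product] at hq
      obtain ⟨⟨⟨⟨hb, hk⟩, _⟩, _⟩, hjb, hsA⟩ := hq
      obtain ⟨⟨⟨b, k⟩, j⟩, s⟩ := q
      simp only at hb hk hjb hsA ⊢
      rw [mem_Icc] at hb hk
      have hb1 : 1 ≤ b := by omega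
      have hbR : (1 : ℝ) ≤ b := by exact_mod_cast hb1
      have hkR : (1 : ℝ) ≤ k := by exact_mod_cast hk.1
      have hkwR : (k : ℝ) ≤ w := by exact_mod_cast hk.2
      set L : ℕ := ℓ + 1 - k with hL
      have hL1 : 1 ≤ L := by omega
      have hLk : L + k ≤ ℓ + 1 := by omega
      have hLR : (L : ℝ) = ℓ + 1 - k := by
        rw [hL, Nat.cast_sub (by omega)]; push_cast; ring
      have hLκ : (L : ℝ) ≤ κ * t := by rw [hLR]; linarith
      have hLlow : κ * t - w ≤ L := by rw [hLR]; linarith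
      obtain ⟨φ, hφ⟩ := WS_inside (b := b) hb1 (k := k) (L := L) (ℓ := ℓ) hLk (ci b k j)
      have hEq : E (((b, k), j), s) = {x | ε' * (L : ℝ) < |φ (wd b ℓ s x)|} := by
        rw [hE]
        ext x
        unfold Dv
        simp only [Set.mem_ofPred_eq]
        rw [hφ]
      have h1 := event_le (b := b) (ℓ := ℓ) hb1 s P (Δ := C * (M : ℝ) ^ (-δ))
        (fun u v hu hv => hC M (by omega) P hP (fun _ => b) (fun _ => s)
          (fun _ => ⟨hb1, hb.2⟩) (fun _ => hsA) (fun _ => u) (fun _ => v) (fun _ => hu)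
          (fun _ => hv)) (fun c => ε' * (L : ℝ) < |φ c|)
      rw [← hEq] at h1
      have h2 := dev_Leb (b := b) (k := k) (c := j) hb1 hk.1 hjb s L hL1 hε'0
      have hEq2 : E (((b, k), j), s) = Dv b k (ci b k j) s L (ε' * L) := rfl
      rw [← hEq2] at h2
      -- the Lebesgue part
      have h3 : ε' / k * √(L : ℝ) - ε' ^ 2 * L / (2 * k ^ 2) ≤
          -(c0 * t) + (2 * w ^ 2 + ε' ^ 2 / (2 * w)) := by
        have h4 : ε' / k * √(L : ℝ) ≤ ε' * √(κ * t) := by
          have h5 : ε' / k ≤ ε' := div_le_self hε'0.le hkR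
          have h6 : √(L : ℝ) ≤ √(κ * t) := Real.sqrt_le_sqrt hLκ
          exact mul_le_mul h5 h6 (Real.sqrt_nonneg _) hε'0.le
        have h5 := sqrt_le_lin (z := κ * t) (η := ε' / (8 * w ^ 2)) (by positivity) (by positivity)
        have h6 : ε' * √(κ * t) ≤ ε' ^ 2 * (κ * t) / (8 * w ^ 2) + 2 * w ^ 2 := by
          calc ε' * √(κ * t) ≤ ε' * (ε' / (8 * w ^ 2) * (κ * t) + 1 / (4 * (ε' / (8 * w ^ 2)))) := by
                gcongr
            _ = ε' ^ 2 * (κ * t) / (8 * w ^ 2) + 2 * w ^ 2 := by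
                field_simp
                ring
        have h7 : ε' ^ 2 * (κ * t - w) / (2 * w ^ 2) ≤ ε' ^ 2 * L / (2 * k ^ 2) := by
          have h8 : 0 ≤ κ * t - w := by linarith
          apply div_le_div₀ (by positivity)
          · gcongr
          · positivity
          · gcongr
        have h9 : ε' ^ 2 * (κ * t - w) / (2 * w ^ 2) =
            ε' ^ 2 * (κ * t) / (2 * w ^ 2) - ε' ^ 2 / (2 * w) := by
          field_simp
        have h10 : c0 * t = 3 / 8 * (ε' ^ 2 * (κ * t) / w ^ 2) := by rw [hc0]; ring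
        have h11 : ε' ^ 2 * (κ * t) / (8 * w ^ 2) - ε' ^ 2 * (κ * t) / (2 * w ^ 2) =
            -(3 / 8 * (ε' ^ 2 * (κ * t) / w ^ 2)) := by
          field_simp
          ring
        rw [h10]
        linarith
      have h4 : Leb.real (E (((b, k), j), s)) ≤ C1 * (M : ℝ) ^ (-c0) := by
        refine h2.trans ?_
        rw [hC1, Real.rpow_def_of_pos hMp, mul_assoc, ← Real.exp_add, ← ht]
        refine mul_le_mul_of_nonneg_left (Real.exp_le_exp.2 ?_) (by norm_num)
        refine h3.trans (le_of_eq ?_)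
        ring
      have h5 : (b : ℝ) ^ ℓ * (C * (M : ℝ) ^ (-δ)) ≤ |C| * (M : ℝ) ^ (-(δ / 2)) := by
        have h6 : (b : ℝ) ^ ℓ ≤ (M : ℝ) ^ (δ / 2) := by
          rw [Real.rpow_def_of_pos hMp, ← Real.exp_log (by positivity : (0 : ℝ) < (b : ℝ) ^ ℓ),
            Real.log_pow, ← ht]
          apply Real.exp_le_exp.2
          have h7 : log b ≤ lB := by
            apply Real.log_le_log (by linarith)
            refine le_trans ?_ (le_max_left _ _)
            exact_mod_cast hb.2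
          have h8 : 0 ≤ log (b : ℝ) := Real.log_nonneg hbR
          calc (ℓ : ℝ) * log b ≤ (κ * t) * lB := by gcongr
            _ = t * (κ * lB) := by ring
            _ ≤ t * (δ / 2) := by gcongr
        calc (b : ℝ) ^ ℓ * (C * (M : ℝ) ^ (-δ)) ≤ (b : ℝ) ^ ℓ * (|C| * (M : ℝ) ^ (-δ)) := by
              gcongr
              exact le_abs_self C
          _ ≤ (M : ℝ) ^ (δ / 2) * (|C| * (M : ℝ) ^ (-δ)) := by gcongr
          _ = |C| * (M : ℝ) ^ (-(δ / 2)) := by
              rw [mul_left_comm, ← Real.rpow_add hMp]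
              congr 2
              ring
      have h6 : (M : ℝ) ^ (-c0) ≤ (M : ℝ) ^ (-c2) := by
        apply Real.rpow_le_rpow_of_exponent_le hM1'
        have := min_le_left c0 (δ / 2)
        linarith
      have h7 : (M : ℝ) ^ (-(δ / 2)) ≤ (M : ℝ) ^ (-c2) := by
        apply Real.rpow_le_rpow_of_exponent_le hM1'
        have := min_le_right c0 (δ / 2)
        linarith
      calc P.real (E (((b, k), j), s)) ≤ Leb.real (E (((b, k), j), s)) +
            (b : ℝ) ^ ℓ * (C * (M : ℝ) ^ (-δ)) := h1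
        _ ≤ C1 * (M : ℝ) ^ (-c2) + |C| * (M : ℝ) ^ (-c2) := by
            refine add_le_add (h4.trans ?_) (h5.trans ?_)
            · gcongr
            · gcongr
        _ = (C1 + |C|) * (M : ℝ) ^ (-c2) := by ring
    have hcard : (I.card : ℝ) ≤ nU * ((A1 + 1) * (1 + t)) := by
      have h1 : I.card ≤ ((Finset.Icc 2 B).card * (Finset.Icc 1 w).card * (B ^ w)) *
          (⌊A1 * t⌋₊ + 1) := by
        refine (card_filter_le _ _).trans (le_of_eq ?_)
        rw [card_product, card_product, card_product, card_range, card_range]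
      have h2 : ((Finset.Icc 2 B).card : ℝ) ≤ B + 1 := by
        rw [Nat.card_Icc]
        have : B + 1 - 2 ≤ B + 1 := Nat.sub_le _ _
        exact_mod_cast this
      have h3 : ((Finset.Icc 1 w).card : ℝ) ≤ w + 1 := by
        rw [Nat.card_Icc]
        have : w + 1 - 1 ≤ w + 1 := Nat.sub_le _ _
        exact_mod_cast this
      have h4 : (⌊A1 * t⌋₊ : ℝ) ≤ A1 * t := Nat.floor_le (by positivity)
      calc (I.card : ℝ) ≤ ((((Finset.Icc 2 B).card * (Finset.Icc 1 w).card * (B ^ w)) *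
            (⌊A1 * t⌋₊ + 1) : ℕ) : ℝ) := by exact_mod_cast h1
        _ = (((Finset.Icc 2 B).card : ℝ) * ((Finset.Icc 1 w).card : ℝ) * (B : ℝ) ^ w) *
            ((⌊A1 * t⌋₊ : ℝ) + 1) := by push_cast; ring
        _ ≤ ((B + 1) * (w + 1) * (B : ℝ) ^ w) * (A1 * t + 1) := by gcongr
        _ ≤ nU * ((A1 + 1) * (1 + t)) := by
            rw [hnU]
            gcongr
            nlinarith
    have h1 : P.real (⋃ q ∈ I, E q) ≤ ∑ q ∈ I, P.real (E q) := measureReal_biUnion_finset_le _ _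
    have h2 : 1 + t ≤ (1 + 1 / (c2 / 4)) * (M : ℝ) ^ (c2 / 4) :=
      VdC.one_add_log_le hM1' (by positivity)
    calc P.real (⋃ q ∈ I, E q) ≤ ∑ q ∈ I, P.real (E q) := h1
      _ ≤ ∑ _q ∈ I, (C1 + |C|) * (M : ℝ) ^ (-c2) := sum_le_sum hone
      _ = I.card * ((C1 + |C|) * (M : ℝ) ^ (-c2)) := by rw [sum_const, nsmul_eq_mul]
      _ ≤ (nU * ((A1 + 1) * ((1 + 1 / (c2 / 4)) * (M : ℝ) ^ (c2 / 4)))) *
          ((C1 + |C|) * (M : ℝ) ^ (-c2)) := by
          refine mul_le_mul_of_nonneg_right (hcard.trans ?_) (by positivity)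
          gcongr
      _ = C3 * ((M : ℝ) ^ (c2 / 4) * (M : ℝ) ^ (-c2)) := by rw [hC3]; ring
      _ ≤ (M : ℝ) ^ (c2 / 4) * ((M : ℝ) ^ (c2 / 4) * (M : ℝ) ^ (-c2)) := by gcongr
      _ = (M : ℝ) ^ (-(c2 / 2)) := by
          rw [← Real.rpow_add hMp, ← Real.rpow_add hMp]
          congr 1
          ring
  · intro x hx b k j s N hb hbB hk hkw hj hsN
    have hb1 : 1 ≤ b := by omega
    have hkR : (1 : ℝ) ≤ k := by exact_mod_cast hk
    set L : ℕ := ℓ + 1 - k with hL
    have hL1 : 1 ≤ L := by omega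
    have hLR : (L : ℝ) = ℓ + 1 - k := by
      rw [hL, Nat.cast_sub (by omega)]; push_cast; ring
    have hLR0 : (0 : ℝ) < L := by exact_mod_cast hL1
    have hLκ : (L : ℝ) ≤ κ * t := by rw [hLR]; linarith
    have hdet := det_block (b := b) (k := k) (G := ci b k j) (L := L) (τ := ε' * L)
      (T := A * t) (x := x) (ci_le hb1 k j) hL1 (by positivity) (by
      intro s' hs' hmem
      apply hx
      rw [Set.mem_iUnion₂]
      refine ⟨(((b, k), j), s'), ?_, hmem⟩
      rw [hI, mem_filter, mem_product, mem_product, mem_product]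
      refine ⟨⟨⟨⟨mem_Icc.2 ⟨hb, hbB⟩, mem_Icc.2 ⟨hk, hkw⟩⟩, ?_⟩, ?_⟩, hj, hs'⟩
      · rw [mem_range]
        calc j < b ^ k := hj
          _ ≤ B ^ k := Nat.pow_le_pow_left hbB k
          _ ≤ B ^ w := Nat.pow_le_pow_right (by omega) hkw
      · rw [mem_range, Nat.lt_succ_iff]
        apply Nat.le_floor
        refine hs'.trans ?_
        gcongr) s N hsN
    refine hdet.trans ?_
    have h1 : (N : ℝ) / L * (ε' * L) = N * ε' := by field_simp
    have hN : (N : ℝ) ≤ A1 * t := by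
      have h2 : (0 : ℝ) ≤ s := Nat.cast_nonneg s
      have h3 : A * t ≤ A1 * t := by gcongr
      linarith
    rw [h1]
    calc (N : ℝ) * ε' + L ≤ A1 * t * ε' + κ * t := by gcongr
      _ = ε / 2 * t + κ * t := by rw [hε']; field_simp
      _ ≤ ε / 2 * t + ε / 2 * t := by gcongr
      _ = ε * t := by ring

end Pool.Agent.Y933.KD
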