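import Pool.Agent.Y933.KD.Clt2
import Pool.Agent.Y933.KD.Norm2

/-!
# The three results for arbitrary families with small Fourier coefficients (helper933)
-/

set_option autoImplicit false

namespace Pool.Agent.Y933.KD

open Finset Real MeasureTheory Filter Topology ProbabilityTheory

variable {ι : Type*}

open Classical in
/-- digit tests in counts -/
theorem tests_gen {B k : ℕ} {A : ℝ} {S : ℕ → Set (Measure ℝ)}
    (hS : ∀ M, 1 ≤ M → ∀ P ∈ S M, IsProbabilityMeasure P) (hG : Good B k A S) :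
    ∃ δ : ℝ, 0 < δ ∧ ∃ C : ℝ, ∀ M : ℕ, 1 ≤ M → ∀ (T : Finset ι) (x : ι → ℝ), unif T x ∈ S M →
      ∀ (b n : Fin k → ℕ), (∀ i, 1 ≤ b i ∧ b i ≤ B) → (∀ i, (n i : ℝ) ≤ A * log M) →
      ∀ u v : Fin k → ℝ, (∀ i, 0 ≤ u i) → (∀ i, v i ≤ 1) →
      |((T.filter (fun m => ∀ i, Int.fract ((b i : ℝ) ^ n i * x m) ∈ Set.Ico (u i) (v i))).card : ℝ)
          / T.card -
        (volume {t : ℝ | t ∈ Set.Ico (0 : ℝ) 1 ∧
          ∀ i, Int.fract ((b i : ℝ) ^ n i * t) ∈ Set.Ico (u i) (v i)}).toReal| ≤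
        C * (M : ℝ) ^ (-δ) := by
  obtain ⟨δ, hδ, C, hC⟩ := power hS hG
  refine ⟨δ, hδ, C, fun M hM T x hT b n hb hn u v hu hv => ?_⟩
  have key := hC M hM _ hT b n hb hn u v hu hv
  have h1 : (unif T x).real (Ev b n u v) =
      ((T.filter (fun m => ∀ i, Int.fract ((b i : ℝ) ^ n i * x m) ∈
        Set.Ico (u i) (v i))).card : ℝ) / T.card := by
    rw [real_unif _ _ (measurableSet_Ev b n u v)]
    congr 2
    apply congrArg Finset.card
    ext m
    simp only [Finset.mem_filter]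
    rfl
  have h2 : Leb.real (Ev b n u v) =
      (volume {t : ℝ | t ∈ Set.Ico (0 : ℝ) 1 ∧
          ∀ i, Int.fract ((b i : ℝ) ^ n i * t) ∈ Set.Ico (u i) (v i)}).toReal := by
    unfold Measure.real Leb
    rw [Measure.restrict_apply (measurableSet_Ev b n u v)]
    congr 2
    ext t
    constructor
    · rintro ⟨h3, h4⟩
      exact ⟨h4, h3⟩
    · rintro ⟨h3, h4⟩
      exact ⟨h4, h3⟩
  rw [h1, h2] at key
  exact key

open Classical in
/-- normality in counts -/
theorem normal_gen {B w : ℕ} {A ε : ℝ} (hε : 0 < ε) {S : ℕ → Set (Measure ℝ)}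
    (hS : ∀ M, 1 ≤ M → ∀ P ∈ S M, IsProbabilityMeasure P) (hG : Good B 1 A S) :
    ∃ c : ℝ, 0 < c ∧ ∃ M0 : ℕ, ∀ M : ℕ, M0 ≤ M → ∀ (T : Finset ι) (x : ι → ℝ), unif T x ∈ S M →
      ((T.filter (fun m => ¬ ∀ b k j s N : ℕ, 2 ≤ b → b ≤ B → 1 ≤ k →
        k ≤ w → j < b ^ k → (s : ℝ) + N ≤ A * Real.log M →
        |(((Finset.range N).filter (fun i => wd b k (s + i) (x m) = j)).card : ℝ) -
          N / (b : ℝ) ^ k| ≤ ε * Real.log M)).card : ℝ) ≤ T.card * (M : ℝ) ^ (-c) := by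
  obtain ⟨c, hc, M0, h⟩ := normal_family (B := B) (w := max w 1)
    (le_max_right _ _) (A := A) hε hS hG
  refine ⟨c, hc, max M0 1, fun M hM T x hT => ?_⟩
  obtain ⟨U, hU, hP, hx⟩ := h M (le_of_max_le_left hM)
  have hM1 : 1 ≤ M := le_of_max_le_right hM
  rcases T.eq_empty_or_nonempty with rfl | hne
  · simp
  have hT0 : (0 : ℝ) < T.card := by exact_mod_cast hne.card_pos
  have h1 := hP _ hT
  rw [real_unif _ _ hU, div_le_iff₀ hT0, mul_comm] at h1
  refine le_trans ?_ h1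
  refine Nat.cast_le.2 (Finset.card_le_card fun m hm => ?_)
  rw [Finset.mem_filter] at hm ⊢
  refine ⟨hm.1, ?_⟩
  by_contra hmU
  apply hm.2
  intro b k j s N hb hbB hk hkw hj hsN
  have h2 := hx _ hmU b k j s N hb hbB hk (hkw.trans (le_max_left _ _)) hj hsN
  rw [WS_ci (by omega)] at h2
  exact h2

/-- the uniform measures on a sequence of finite families -/
noncomputable def Pg (T : ℕ → Finset ι) (x : ℕ → ι → ℝ) (M : ℕ) : Measure ℝ :=
  open Classical in if (T M).Nonempty then unif (T M) (x M) else Leb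

instance (T : ℕ → Finset ι) (x : ℕ → ι → ℝ) (M : ℕ) : IsProbabilityMeasure (Pg T x M) := by
  unfold Pg
  split_ifs with h
  · exact unif_prob h _
  · infer_instance

/-- the central limit theorem in counts -/
theorem clt_gen {b w : ℕ} (hb : 1 ≤ b) (hw : 1 ≤ w) (F : ℕ → ℝ)
    (hσ : 0 < cv b w F 0 + 2 * ∑ h ∈ Finset.Ico 1 w, cv b w F h) {A : ℝ}
    {S : ℕ → Set (Measure ℝ)} (hS : ∀ M, 1 ≤ M → ∀ P ∈ S M, IsProbabilityMeasure P)
    (hGood : ∀ k, Good b k A S) (T : ℕ → Finset ι) (x : ℕ → ι → ℝ)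
    (hP : ∀ᶠ M : ℕ in atTop, (T M).Nonempty ∧ unif (T M) (x M) ∈ S M)
    (s N : ℕ → ℕ) (hN : Tendsto N atTop atTop)
    (hsN : ∀ᶠ M : ℕ in atTop, (s M : ℝ) + N M ≤ A * log M) (a : ℝ) :
    Tendsto (fun M : ℕ => (((T M).filter (fun m =>
      ∑ i ∈ range (N M), F (wd b w (s M + i) (x M m)) - N M * mn b w F ≤
        a * √((cv b w F 0 + 2 * ∑ h ∈ Finset.Ico 1 w, cv b w F h) * N M))).card : ℝ) /
        (T M).card) atTop
      (𝓝 ((gaussianReal 0 1).real (Set.Iic a))) := by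
  classical
  have h1 := clt_family (G := cen b w F) hb hw (cen_le b w F) (cen_sum hb F)
    (by rw [sigma2_cen hb]; exact hσ) hS hGood (Pg T x) (by
      filter_upwards [hP] with M hM
      unfold Pg
      rw [if_pos hM.1]
      exact hM.2) s N hN (by
      filter_upwards [hsN] with M hM
      push_cast
      exact hM) a
  refine h1.congr' ?_
  filter_upwards [hP] with M hM
  have hmeas : MeasurableSet {z | WS b w (cen b w F) (s M) (N M) z ≤
      a * √(sigma2 b w (cen b w F) * N M)} :=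
    measurableSet_le (measurable_WS _ _ _ _ _) measurable_const
  unfold Pg
  rw [if_pos hM.1, real_unif _ _ hmeas]
  congr 3
  ext m
  simp only [Set.mem_ofPred_eq, WS_cen hb, sigma2_cen hb, mem_filter]

end Pool.Agent.Y933.KD
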