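import Mathlib

/-!
# Fejer kernels and trigonometric approximation of intervals (helper933)
-/

set_option autoImplicit false

namespace Pool.Agent.Y933.KD

open Finset Real

/-- `e(x) = exp(2 π i x)` -/
noncomputable def e (x : ℝ) : ℂ := Complex.exp ((2 * π * x : ℝ) * Complex.I)

lemma e_zero : e 0 = 1 := by simp [e]

lemma e_add (x y : ℝ) : e (x + y) = e x * e y := by
  unfold e
  rw [← Complex.exp_add]
  congr 1
  push_cast
  ring

lemma norm_e (x : ℝ) : ‖e x‖ = 1 := by
  unfold e
  exact Complex.norm_exp_ofReal_mul_I _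

lemma e_neg (x : ℝ) : e (-x) = (starRingEnd ℂ) (e x) := by
  unfold e
  rw [← Complex.exp_conj]
  congr 1
  rw [map_mul, Complex.conj_ofReal, Complex.conj_I]
  push_cast
  ring

lemma e_int (n : ℤ) : e n = 1 := by
  unfold e
  rw [Complex.exp_eq_one_iff]
  exact ⟨n, by push_cast; ring⟩

lemma e_nat_mul (n : ℕ) (x : ℝ) : e (n * x) = e x ^ n := by
  unfold e
  rw [← Complex.exp_nat_mul]
  congr 1
  push_cast
  ring

lemma e_ne_zero (x : ℝ) : e x ≠ 0 := by
  intro h
  have := norm_e x
  rw [h, norm_zero] at this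
  exact zero_ne_one this

lemma e_add_int (x : ℝ) (n : ℤ) : e (x + n) = e x := by rw [e_add, e_int, mul_one]

lemma norm_e_sub_one (x : ℝ) : ‖e x - 1‖ = 2 * |sin (π * x)| := by
  unfold e
  have h := Complex.norm_exp_I_mul_ofReal_sub_one (2 * π * x)
  rw [mul_comm Complex.I] at h
  rw [h, Real.norm_eq_abs, abs_mul, abs_of_pos (by norm_num : (0 : ℝ) < 2)]
  congr 3
  ring

lemma continuous_e : Continuous e := by
  unfold e
  fun_prop

/-- the Dirichlet sum -/
noncomputable def D (K : ℕ) (x : ℝ) : ℂ := ∑ j ∈ range K, e (j * x)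

lemma D_mul (K : ℕ) (x : ℝ) : ‖D K x‖ * |sin (π * x)| = |sin (π * (K * x))| := by
  have h1 : D K x * (e x - 1) = e (K * x) - 1 := by
    unfold D
    simp only [e_nat_mul]
    exact geom_sum_mul _ _
  have h2 := congrArg norm h1
  rw [norm_mul, norm_e_sub_one, norm_e_sub_one] at h2
  linarith

/-- the Fejer kernel -/
noncomputable def F (K : ℕ) (x : ℝ) : ℝ := (1 / K) * ‖D K x‖ ^ 2

lemma F_nonneg (K : ℕ) (x : ℝ) : 0 ≤ F K x := by unfold F; positivity

lemma abs_sin_pi (x : ℝ) : |sin (π * x)| = sin (π * |x - round x|) := by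
  have h1 : |sin (π * x)| = |sin (π * (x - round x))| := by
    have : π * (x - round x) = π * x - (round x : ℤ) * π := by ring
    rw [this, Real.sin_sub_int_mul_pi, abs_mul]
    rcases Int.even_or_odd (round x) with h | h
    · simp [h.neg_one_zpow]
    · simp [h.neg_one_zpow]
  rw [h1]
  have h2 := abs_sub_round x
  have h3 : |sin (π * (x - round x))| = sin |π * (x - round x)| := by
    apply Real.abs_sin_eq_sin_abs_of_abs_le_pi
    rw [abs_mul, abs_of_pos pi_pos]
    nlinarith [pi_pos, abs_nonneg (x - round x)]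
  rw [h3, abs_mul, abs_of_pos pi_pos]

lemma two_mul_le_sin {y : ℝ} (h0 : 0 ≤ y) (h1 : y ≤ 1 / 2) : 2 * y ≤ sin (π * y) := by
  have h := Real.mul_le_sin (x := π * y) (by positivity) (by nlinarith [pi_pos])
  have e1 : 2 / π * (π * y) = 2 * y := by field_simp
  linarith [h, e1]

lemma F_le {K : ℕ} (hK : 0 < K) {x ρ : ℝ} (hρ : 0 < ρ) (h : ρ ≤ |x - round x|) :
    F K x ≤ 1 / (4 * K * ρ ^ 2) := by
  have h0 : 2 * |x - round x| ≤ |sin (π * x)| := by
    rw [abs_sin_pi]
    exact two_mul_le_sin (abs_nonneg _) (abs_sub_round x)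
  have h1 := D_mul K x
  have h2 : |sin (π * (K * x))| ≤ 1 := abs_sin_le_one _
  have h3 : 2 * ρ ≤ |sin (π * x)| := by linarith
  have h4 : ‖D K x‖ ≤ 1 / (2 * ρ) := by
    rw [le_div_iff₀ (by positivity)]
    calc ‖D K x‖ * (2 * ρ) ≤ ‖D K x‖ * |sin (π * x)| := by gcongr
      _ ≤ 1 := by rw [h1]; exact h2
  have hKR : (0 : ℝ) < K := by exact_mod_cast hK
  unfold F
  calc 1 / (K : ℝ) * ‖D K x‖ ^ 2 ≤ 1 / (K : ℝ) * (1 / (2 * ρ)) ^ 2 := by gcongr
    _ = 1 / (4 * K * ρ ^ 2) := by field_simp; ring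

lemma F_ge {K : ℕ} (hK : 0 < K) {x : ℝ} (h : |x - round x| ≤ 1 / (2 * K)) :
    4 * K / π ^ 2 ≤ F K x := by
  have hKR : (0 : ℝ) < K := by exact_mod_cast hK
  -- replace `x` by `x - round x`
  have hper : D K x = D K (x - round x) := by
    unfold D
    refine sum_congr rfl fun j _ => ?_
    have : (j : ℝ) * x = j * (x - round x) + ((j * round x : ℤ) : ℝ) := by push_cast; ring
    rw [this, e_add_int]
  have hF : F K x = F K (x - round x) := by unfold F; rw [hper]
  rw [hF]
  set y := x - round x with hy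
  rcases eq_or_ne y 0 with h0 | h0
  · rw [h0]
    have : D K 0 = K := by simp [D, e_zero]
    unfold F
    rw [this, Complex.norm_natCast]
    rw [div_le_iff₀ (by positivity)]
    have hpi : (4 : ℝ) ≤ π ^ 2 := by nlinarith [pi_gt_three]
    have : 1 / (K : ℝ) * (K : ℝ) ^ 2 = K := by field_simp
    rw [this]
    have h3 := mul_le_mul_of_nonneg_left hpi hKR.le
    linarith
  · have h1 := D_mul K y
    have hy2 : |y| ≤ 1 / 2 := abs_sub_round x
    have hyp : 0 < |y| := abs_pos.2 h0
    have h2 : |sin (π * y)| ≤ π * |y| := by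
      have := Real.abs_sin_le_one (π * y)
      calc |sin (π * y)| ≤ |π * y| := Real.abs_sin_le_abs
        _ = π * |y| := by rw [abs_mul, abs_of_pos pi_pos]
    have h3 : 2 * (K * |y|) ≤ |sin (π * (K * y))| := by
      have e1 : |sin (π * (K * y))| = sin (π * (K * |y|)) := by
        rw [Real.abs_sin_eq_sin_abs_of_abs_le_pi]
        · rw [abs_mul, abs_mul, abs_of_pos pi_pos, abs_of_pos hKR]
        · rw [abs_mul, abs_mul, abs_of_pos pi_pos, abs_of_pos hKR]
          have : (K : ℝ) * |y| ≤ 1 / 2 := by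
            rw [le_div_iff₀ (by positivity)] at h
            nlinarith
          nlinarith [pi_pos]
      rw [e1]
      refine two_mul_le_sin (by positivity) ?_
      rw [le_div_iff₀ (by positivity)] at h
      nlinarith
    have h4 : 2 * K / π ≤ ‖D K y‖ := by
      have h5 : 2 * (K * |y|) ≤ ‖D K y‖ * (π * |y|) := by
        calc 2 * (K * |y|) ≤ |sin (π * (K * y))| := h3
          _ = ‖D K y‖ * |sin (π * y)| := h1.symm
          _ ≤ ‖D K y‖ * (π * |y|) := by gcongr
      have h6 : 2 * (K : ℝ) ≤ ‖D K y‖ * π := by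
        have : (2 * (K : ℝ)) * |y| ≤ (‖D K y‖ * π) * |y| := by nlinarith
        exact le_of_mul_le_mul_right this hyp
      rw [div_le_iff₀ pi_pos]
      exact h6
    unfold F
    calc 4 * (K : ℝ) / π ^ 2 = 1 / K * (2 * K / π) ^ 2 := by field_simp; ring
      _ ≤ 1 / K * ‖D K y‖ ^ 2 := by gcongr

lemma F_expand (K : ℕ) (x : ℝ) :
    (F K x : ℂ) = (1 / K) * ∑ p ∈ range K ×ˢ range K, e (((p.1 : ℤ) - (p.2 : ℤ) : ℤ) * x) := by
  unfold F
  have h1 : ((‖D K x‖ ^ 2 : ℝ) : ℂ) = D K x * (starRingEnd ℂ) (D K x) := by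
    rw [Complex.mul_conj, Complex.normSq_eq_norm_sq]
  push_cast
  rw [show ((‖D K x‖ : ℂ)) ^ 2 = ((‖D K x‖ ^ 2 : ℝ) : ℂ) by push_cast; rfl, h1]
  congr 1
  unfold D
  rw [map_sum, sum_mul_sum, sum_product]
  refine sum_congr rfl fun i _ => sum_congr rfl fun j _ => ?_
  rw [← e_neg, ← e_add]
  congr 1
  push_cast
  ring

/-- real trigonometric polynomials of degree at most `H` with coefficients of norm at most `1` -/
def TP (H : ℕ) (f : ℝ → ℝ) : Prop :=
  ∃ c : ℤ → ℂ, (∀ h, ‖c h‖ ≤ 1) ∧ ∀ x, (f x : ℂ) = ∑ h ∈ Finset.Icc (-(H : ℤ)) H, c h * e (h * x)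

lemma TP_F {K H : ℕ} (hKH : K ≤ H) (u : ℝ) : TP H (fun x => F K (x - u)) := by
  classical
  refine ⟨fun h => (1 / K) * ∑ p ∈ (range K ×ˢ range K).filter
    (fun p => (p.1 : ℤ) - (p.2 : ℤ) = h), e (-(h * u)), fun h => ?_, fun x => ?_⟩
  · rw [norm_mul]
    have h1 : ‖∑ p ∈ (range K ×ˢ range K).filter
        (fun p => (p.1 : ℤ) - (p.2 : ℤ) = h), e (-(h * u))‖ ≤ K := by
      refine (norm_sum_le _ _).trans ?_
      simp only [norm_e, sum_const, nsmul_eq_mul, mul_one]
      have h2 : ((range K ×ˢ range K).filter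
          (fun p => (p.1 : ℤ) - (p.2 : ℤ) = h)).card ≤ (range K).card := by
        refine card_le_card_of_injOn (fun p => p.1) (fun p hp => ?_) ?_
        · simp only [coe_filter, mem_product, Set.mem_ofPred_eq] at hp
          exact hp.1.1
        · intro p hp p' hp' hpp
          simp only [coe_filter, mem_product, Set.mem_ofPred_eq] at hp hp' hpp
          have := hp.2
          have := hp'.2
          ext
          · exact hpp
          · omega
      rw [card_range] at h2
      exact_mod_cast h2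
    rcases Nat.eq_zero_or_pos K with rfl | hK
    · simp
    · have hKR : (0 : ℝ) < K := by exact_mod_cast hK
      have h3 : ‖(1 / (K : ℂ))‖ = 1 / K := by simp
      rw [h3]
      calc 1 / (K : ℝ) * _ ≤ 1 / (K : ℝ) * K := by gcongr
        _ = 1 := by field_simp
  · show ((F K (x - u) : ℝ) : ℂ) = _
    rw [F_expand]
    have h1 : ∀ p ∈ range K ×ˢ range K, (p.1 : ℤ) - (p.2 : ℤ) ∈ Finset.Icc (-(H : ℤ)) H := by
      intro p hp
      rw [mem_product, mem_range, mem_range] at hp
      rw [Finset.mem_Icc]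
      omega
    rw [← sum_fiberwise_of_maps_to h1, mul_sum]
    refine sum_congr rfl fun h _ => ?_
    rw [mul_assoc, sum_mul]
    congr 1
    refine sum_congr rfl fun p hp => ?_
    rw [mem_filter] at hp
    rw [hp.2, ← e_add]
    congr 1
    ring

lemma TP.cont {H : ℕ} {f : ℝ → ℝ} (hf : TP H f) : Continuous f := by
  obtain ⟨c, _, h⟩ := hf
  have h1 : Continuous (fun x => (f x : ℂ)) := by
    have : (fun x => (f x : ℂ)) = fun x => ∑ h ∈ Finset.Icc (-(H : ℤ)) H, c h * e (h * x) :=
      funext h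
    rw [this]
    refine continuous_finsetSum _ fun i _ => continuous_const.mul (continuous_e.comp ?_)
    fun_prop
  have h2 : f = fun x => (f x : ℂ).re := by funext x; simp
  rw [h2]
  exact Complex.continuous_re.comp h1

/-- partition of unity -/
lemma F_partition {R : ℕ} (hR : 0 < R) (x : ℝ) :
    ∑ j ∈ range R, (1 / R : ℝ) * F R (x - j / R) = 1 := by
  have hRC : (R : ℂ) ≠ 0 := by exact_mod_cast hR.ne'
  have hRR : (R : ℝ) ≠ 0 := by exact_mod_cast hR.ne'
  have key : ∀ m : ℤ, |m| < R → ∑ j ∈ range R, e (-(m * (j / R : ℝ))) = if m = 0 then (R : ℂ) else 0 := by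
    intro m hm
    split_ifs with h0
    · subst h0
      simp [e_zero]
    · have h1 : ∀ j : ℕ, e (-(m * (j / R : ℝ))) = e (-(m / R : ℝ)) ^ j := by
        intro j
        rw [← e_nat_mul]
        congr 1
        ring
      simp only [h1]
      have hne : e (-(m / R : ℝ)) ≠ 1 := by
        intro h
        unfold e at h
        rw [Complex.exp_eq_one_iff] at h
        obtain ⟨n, hn⟩ := h
        have h2 : (-(m / R : ℝ)) = n := by
          have h3 : ((2 * π * -(m / R : ℝ) : ℝ) : ℂ) = ((n * (2 * π) : ℝ) : ℂ) := by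
            have h4 : ((2 * π * -(m / R : ℝ) : ℝ) : ℂ) * Complex.I =
                ((n * (2 * π) : ℝ) : ℂ) * Complex.I := by
              rw [hn]; push_cast; ring
            exact mul_right_cancel₀ Complex.I_ne_zero h4
          have h5 : 2 * π * -(m / R : ℝ) = n * (2 * π) := by exact_mod_cast h3
          have hpi := pi_pos
          have : (2 * π) * (-(m / R : ℝ) - n) = 0 := by linarith
          rcases mul_eq_zero.1 this with h6 | h6
          · linarith
          · linarith
        have h3 : (-(m : ℝ)) = n * R := by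
          field_simp at h2
          linarith
        have h4 : -m = n * (R : ℤ) := by exact_mod_cast h3
        have h5 : n ≠ 0 := by
          rintro rfl
          simp at h4
          exact h0 h4
        have h6 : (R : ℤ) ≤ |m| := by
          have : |m| = |n| * R := by
            rw [← abs_neg, h4, abs_mul, Nat.abs_cast]
          rw [this]
          have h7 : 1 ≤ |n| := Int.one_le_abs h5
          nlinarith [Int.natCast_nonneg R]
        omega
      have h2 := geom_sum_mul (e (-(m / R : ℝ))) R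
      have h3 : e (-(m / R : ℝ)) ^ R = 1 := by
        rw [← e_nat_mul]
        have : (R : ℝ) * -(m / R : ℝ) = ((-m : ℤ) : ℝ) := by push_cast; field_simp
        rw [this, e_int]
      rw [h3, sub_self] at h2
      exact (mul_eq_zero.1 h2).resolve_right (sub_ne_zero.2 hne)
  have h1 : ((∑ j ∈ range R, (1 / R : ℝ) * F R (x - j / R) : ℝ) : ℂ) = 1 := by
    push_cast
    simp only [F_expand]
    have h2 : ∀ j : ℕ, (1 / (R : ℂ)) * ((1 / R) * ∑ p ∈ range R ×ˢ range R,
        e (((p.1 : ℤ) - (p.2 : ℤ) : ℤ) * (x - j / R))) =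
        (1 / R) * (1 / R) * ∑ p ∈ range R ×ˢ range R, e (((p.1 : ℤ) - (p.2 : ℤ) : ℤ) * x) *
          e (-((((p.1 : ℤ) - (p.2 : ℤ) : ℤ) : ℝ) * (j / R : ℝ))) := by
      intro j
      rw [mul_assoc]
      congr 2
      refine sum_congr rfl fun p _ => ?_
      rw [← e_add]
      congr 1
      ring
    rw [sum_congr rfl fun j _ => h2 j, ← mul_sum, sum_comm]
    have h3 : ∀ p ∈ range R ×ˢ range R, ∑ j ∈ range R, e (((p.1 : ℤ) - (p.2 : ℤ) : ℤ) * x) *
        e (-((((p.1 : ℤ) - (p.2 : ℤ) : ℤ) : ℝ) * (j / R : ℝ))) =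
        if p.1 = p.2 then (R : ℂ) else 0 := by
      intro p hp
      rw [mem_product, mem_range, mem_range] at hp
      rw [← mul_sum, key _ (by rw [abs_lt]; omega)]
      by_cases h : p.1 = p.2
      · rw [if_pos h, if_pos (by omega)]
        rw [h]
        simp [e_zero]
      · rw [if_neg h, if_neg (by omega), mul_zero]
    rw [sum_congr rfl h3, sum_product]
    simp only [sum_ite_eq, mem_range]
    rw [sum_congr rfl (fun i hi => if_pos (mem_range.1 hi)), sum_const, card_range, nsmul_eq_mul]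
    field_simp
  exact_mod_cast h1

end Pool.Agent.Y933.KD
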