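import Pool.Agent.Y933.KD.Ren

/-!
# Word sums of a random real number: second moments and exponential moments (helper933)
-/

set_option autoImplicit false

namespace Pool.Agent.Y933.KD

open Finset Real MeasureTheory Filter Topology

/-- the mean over the words of length `w` -/
lemma int_word {b : ℕ} (hb : 1 ≤ b) (w n : ℕ) (F : ℕ → ℝ) :
    ∫ x, F (wd b w n x) ∂Leb = (∑ c ∈ range (b ^ w), F c) / (b : ℝ) ^ w := by
  have hb' : (0 : ℝ) < b := by exact_mod_cast hb
  -- a bounded modification of `F`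
  set F' : ℕ → ℝ := fun c => if c < b ^ w then F c else 0 with hF'
  have hFF : ∀ m : ℕ, ∀ x, F (wd b w m x) = F' (wd b w m x) := fun m x => by
    rw [hF']
    simp only
    rw [if_pos (wd_lt hb w m x)]
  have hbd : ∀ c, |F' c| ≤ ∑ c ∈ range (b ^ w), |F c| := by
    intro c
    rw [hF']
    simp only
    split_ifs with h
    · exact single_le_sum (f := fun c => |F c|) (fun _ _ => abs_nonneg _) (mem_range.2 h)
    · rw [abs_zero]; exact sum_nonneg fun _ _ => abs_nonneg _
  simp only [hFF n]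
  have h1 : ∀ x, F' (wd b w n x) = (fun y => F' (wd b w 0 y)) (Tb b n x) := fun x => by
    simp only
    rw [← wd_add, Nat.add_zero]
  simp only [h1]
  rw [invariance_real hb (h := fun y => F' (wd b w 0 y))
    ((measurable_of_countable F').comp (measurable_wd b w 0))
    (C := ∑ c ∈ range (b ^ w), |F c|) (fun x => hbd _)]
  have h2 := int_renew (b ^ w) (Nat.one_le_pow _ _ hb) (fun c => (F' c : ℂ)) (fun _ => 1)
    measurable_const (C := 1) (by simp)
  simp only [mul_one, integral_const, probReal_univ, one_smul] at h2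
  have h3 : ∫ x, F' (wd b w 0 x) ∂Leb = ∫ x, F' ⌊((b ^ w : ℕ) : ℝ) * x⌋₊ ∂Leb := by
    refine int_Leb_congr' fun x hx => ?_
    rw [wd_eq_mod hb w 0 hx.1, zero_add]
    congr 1
    push_cast
    apply Nat.mod_eq_of_lt
    rw [Nat.floor_lt (by have := hx.1; positivity)]
    push_cast
    have := hx.2
    have h4 : (0 : ℝ) < (b : ℝ) ^ w := by positivity
    nlinarith
  rw [h3]
  have h4 : ((∫ x, F' ⌊((b ^ w : ℕ) : ℝ) * x⌋₊ ∂Leb : ℝ) : ℂ) =
      (((∑ c ∈ range (b ^ w), F c) / (b : ℝ) ^ w : ℝ) : ℂ) := by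
    rw [← integral_complex_ofReal, h2]
    push_cast
    rw [one_div, inv_mul_eq_div]
    congr 1
    refine sum_congr rfl fun c hc => ?_
    rw [hF']
    simp only
    rw [if_pos (mem_range.1 hc)]
  exact_mod_cast h4

section

variable {b w : ℕ} {G : ℕ → ℝ} {K : ℝ}

/-- the function of the word at the place `n` -/
noncomputable def Xw (b w : ℕ) (G : ℕ → ℝ) (n : ℕ) (x : ℝ) : ℝ := G (wd b w n x)

lemma measurable_Xw (b w : ℕ) (G : ℕ → ℝ) (n : ℕ) : Measurable (Xw b w G n) :=
  (measurable_of_countable G).comp (measurable_wd b w n)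

lemma Xw_add (b w : ℕ) (G : ℕ → ℝ) (p n : ℕ) (x : ℝ) :
    Xw b w G (p + n) x = Xw b w G n (Tb b p x) := by
  unfold Xw
  rw [wd_add]

lemma dep_Xw (hb : 1 ≤ b) {n p : ℕ} (h : n + w ≤ p) : Dep b p (Xw b w G n) :=
  (dep_wd hb h).comp G

/-- covariance of the words at the places `0` and `h` -/
noncomputable def cov (b w : ℕ) (G : ℕ → ℝ) (h : ℕ) : ℝ := ∫ x, Xw b w G 0 x * Xw b w G h x ∂Leb

lemma int_Xw (hb : 1 ≤ b) (hG0 : ∑ c ∈ range (b ^ w), G c = 0) (n : ℕ) :
    ∫ x, Xw b w G n x ∂Leb = 0 := by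
  unfold Xw
  rw [int_word hb w n G, hG0, zero_div]

lemma int_Xw_mul (hb : 1 ≤ b) (hG : ∀ c, |G c| ≤ K) (n h : ℕ) :
    ∫ x, Xw b w G n x * Xw b w G (n + h) x ∂Leb = cov b w G h := by
  unfold cov
  have h1 : ∀ x, Xw b w G n x * Xw b w G (n + h) x =
      (fun y => Xw b w G 0 y * Xw b w G h y) (Tb b n x) := by
    intro x
    simp only
    rw [← Xw_add, ← Xw_add, Nat.add_zero]
  simp only [h1]
  refine invariance_real hb ((measurable_Xw _ _ _ _).mul (measurable_Xw _ _ _ _)) (C := K * K) ?_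
  intro x
  change |Xw b w G 0 x * Xw b w G h x| ≤ K * K
  rw [abs_mul]
  exact mul_le_mul (hG _) (hG _) (abs_nonneg _) ((abs_nonneg _).trans (hG 0))

lemma cov_eq_zero (hb : 1 ≤ b) (hG : ∀ c, |G c| ≤ K) (hG0 : ∑ c ∈ range (b ^ w), G c = 0) {h : ℕ}
    (hh : w ≤ h) : cov b w G h = 0 := by
  unfold cov
  have h1 : ∀ x, Xw b w G h x = Xw b w G 0 (Tb b h x) := fun x => by
    rw [← Xw_add, Nat.add_zero]
  simp only [h1]
  rw [renewal_real hb (dep_Xw hb (by omega)) (measurable_Xw _ _ _ _) (C := K) (fun x => hG _),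
    int_Xw hb hG0, zero_mul]

lemma abs_cov_le (hG : ∀ c, |G c| ≤ K) (h : ℕ) : |cov b w G h| ≤ K ^ 2 := by
  unfold cov
  have hK : 0 ≤ K := (abs_nonneg _).trans (hG 0)
  have h1 : ‖∫ x, Xw b w G 0 x * Xw b w G h x ∂Leb‖ ≤ K ^ 2 * Leb.real Set.univ := by
    refine norm_integral_le_of_norm_le_const (Eventually.of_forall fun x => ?_)
    rw [Real.norm_eq_abs, abs_mul, sq]
    exact mul_le_mul (hG _) (hG _) (abs_nonneg _) hK
  rwa [probReal_univ, mul_one, Real.norm_eq_abs] at h1

lemma integrable_Xw_mul (hG : ∀ c, |G c| ≤ K) (n m : ℕ) :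
    Integrable (fun x => Xw b w G n x * Xw b w G m x) Leb := by
  refine integrable_of_bdd ((measurable_Xw _ _ _ _).mul (measurable_Xw _ _ _ _)) (R := K * K) ?_
  intro x
  rw [abs_mul]
  exact mul_le_mul (hG _) (hG _) (abs_nonneg _) ((abs_nonneg _).trans (hG 0))

lemma int_sq_sum (hG : ∀ c, |G c| ≤ K) (s : Finset ℕ) :
    ∫ x, (∑ n ∈ s, Xw b w G n x) ^ 2 ∂Leb =
      ∑ n ∈ s, ∑ m ∈ s, ∫ x, Xw b w G n x * Xw b w G m x ∂Leb := by
  have h1 : ∀ x, (∑ n ∈ s, Xw b w G n x) ^ 2 =
      ∑ n ∈ s, ∑ m ∈ s, Xw b w G n x * Xw b w G m x := by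
    intro x
    rw [sq, sum_mul_sum]
  simp only [h1]
  rw [integral_finsetSum _ (fun n _ => integrable_finsetSum _ fun m _ => integrable_Xw_mul hG n m)]
  refine sum_congr rfl fun n _ => ?_
  rw [integral_finsetSum _ (fun m _ => integrable_Xw_mul hG n m)]

/-- second moment of a sum over any finite set of places -/
lemma sq_sum_le (hb : 1 ≤ b) (hG : ∀ c, |G c| ≤ K) (hG0 : ∑ c ∈ range (b ^ w), G c = 0)
    (s : Finset ℕ) : ∫ x, (∑ n ∈ s, Xw b w G n x) ^ 2 ∂Leb ≤ s.card * (2 * w * K ^ 2) := by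
  rw [int_sq_sum hG]
  have hK : 0 ≤ K := (abs_nonneg _).trans (hG 0)
  calc ∑ n ∈ s, ∑ m ∈ s, ∫ x, Xw b w G n x * Xw b w G m x ∂Leb
      ≤ ∑ _n ∈ s, 2 * w * K ^ 2 := by
        refine sum_le_sum fun n _ => ?_
        have h1 : ∀ m ∈ s, ∫ x, Xw b w G n x * Xw b w G m x ∂Leb ≤
            if m ∈ Ico (n + 1 - w) (n + w) then K ^ 2 else 0 := by
          intro m _
          rcases le_total n m with h | h
          · obtain ⟨h', rfl⟩ := Nat.exists_eq_add_of_le h
            rw [int_Xw_mul hb hG]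
            split_ifs with h2
            · exact (le_abs_self _).trans (abs_cov_le hG _)
            · rw [cov_eq_zero hb hG hG0]
              rw [mem_Ico] at h2
              omega
          · obtain ⟨h', rfl⟩ := Nat.exists_eq_add_of_le h
            have e1 : ∫ x, Xw b w G (m + h') x * Xw b w G m x ∂Leb = cov b w G h' := by
              rw [← int_Xw_mul hb hG m h']
              congr 1
              ext x
              ring
            rw [e1]
            split_ifs with h2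
            · exact (le_abs_self _).trans (abs_cov_le hG _)
            · rw [cov_eq_zero hb hG hG0]
              rw [mem_Ico] at h2
              omega
        refine (sum_le_sum h1).trans ?_
        rw [← sum_filter, sum_const, nsmul_eq_mul]
        refine mul_le_mul_of_nonneg_right ?_ (by positivity)
        have h3 : (s.filter (fun m => m ∈ Ico (n + 1 - w) (n + w))).card ≤
            (Ico (n + 1 - w) (n + w)).card := by
          apply card_le_card
          intro m hm
          exact (mem_filter.1 hm).2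
        have h4 : (Ico (n + 1 - w) (n + w)).card ≤ 2 * w := by
          rw [Nat.card_Ico]; omega
        exact_mod_cast h3.trans h4
    _ = s.card * (2 * w * K ^ 2) := by rw [sum_const, nsmul_eq_mul]

/-- the asymptotic variance -/
noncomputable def sigma2 (b w : ℕ) (G : ℕ → ℝ) : ℝ :=
  cov b w G 0 + 2 * ∑ h ∈ Ico 1 w, cov b w G h

/-- the variance of the sum over `L` consecutive places -/
noncomputable def VL (b w : ℕ) (G : ℕ → ℝ) (L : ℕ) : ℝ :=
  ∫ x, (∑ n ∈ range L, Xw b w G n x) ^ 2 ∂Leb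

lemma VL_succ (hb : 1 ≤ b) (hG : ∀ c, |G c| ≤ K) (L : ℕ) :
    VL b w G (L + 1) = VL b w G L + (cov b w G 0 + 2 * ∑ h ∈ Ico 1 (L + 1), cov b w G h) := by
  unfold VL
  rw [int_sq_sum hG, int_sq_sum hG, sum_range_succ]
  simp only [sum_range_succ, sum_add_distrib]
  have h1 : ∫ x, Xw b w G L x * Xw b w G L x ∂Leb = cov b w G 0 := int_Xw_mul hb hG L 0
  have h2 : ∀ n ∈ range L, ∫ x, Xw b w G n x * Xw b w G L x ∂Leb = cov b w G (L - n) := by
    intro n hn
    have := int_Xw_mul (w := w) hb hG n (L - n)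
    rwa [Nat.add_sub_cancel' (mem_range.1 hn).le] at this
  have h3 : ∀ n ∈ range L, ∫ x, Xw b w G L x * Xw b w G n x ∂Leb = cov b w G (L - n) := by
    intro n hn
    rw [← h2 n hn]
    congr 1
    ext x
    ring
  rw [h1, sum_congr rfl h2, sum_congr rfl h3]
  have h4 : ∑ n ∈ range L, cov b w G (L - n) = ∑ h ∈ Ico 1 (L + 1), cov b w G h := by
    rw [← Finset.sum_range_reflect, Finset.sum_Ico_eq_sum_range]
    refine sum_congr rfl fun n hn => ?_
    rw [mem_range] at hn
    congr 1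
    omega
  rw [h4]
  ring

lemma VL_eq (hb : 1 ≤ b) (hw : 1 ≤ w) (hG : ∀ c, |G c| ≤ K) (hG0 : ∑ c ∈ range (b ^ w), G c = 0)
    (m : ℕ) : VL b w G (w - 1 + m) = VL b w G (w - 1) + m * sigma2 b w G := by
  induction m with
  | zero => simp
  | succ m ih =>
    rw [← Nat.add_assoc, VL_succ hb hG, ih]
    have h1 : ∑ h ∈ Ico 1 (w - 1 + m + 1), cov b w G h = ∑ h ∈ Ico 1 w, cov b w G h := by
      have e1 : w - 1 + m + 1 = w + m := by omega
      rw [e1, ← Finset.sum_Ico_consecutive _ hw (by omega : w ≤ w + m)]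
      have : ∑ i ∈ Ico w (w + m), cov b w G i = 0 :=
        sum_eq_zero fun i hi => cov_eq_zero hb hG hG0 (mem_Ico.1 hi).1
      rw [this, add_zero]
    rw [h1]
    unfold sigma2
    push_cast
    ring

lemma VL_nonneg (L : ℕ) : 0 ≤ VL b w G L := integral_nonneg fun x => sq_nonneg _

lemma sigma2_nonneg (hb : 1 ≤ b) (hw : 1 ≤ w) (hG : ∀ c, |G c| ≤ K)
    (hG0 : ∑ c ∈ range (b ^ w), G c = 0) : 0 ≤ sigma2 b w G := by
  by_contra hcon
  push Not at hcon
  obtain ⟨m, hm⟩ := exists_nat_gt (VL b w G (w - 1) / (-sigma2 b w G))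
  have h1 := VL_eq hb hw hG hG0 m
  have h2 := VL_nonneg (b := b) (w := w) (G := G) (w - 1 + m)
  rw [div_lt_iff₀ (by linarith)] at hm
  linarith

/-- exponential moment of one term -/
lemma exp_one (hb : 1 ≤ b) (hG : ∀ c, |G c| ≤ K) (hG0 : ∑ c ∈ range (b ^ w), G c = 0) (s : ℝ) :
    ∫ x, exp (s * Xw b w G 0 x) ∂Leb ≤ exp (K ^ 2 * s ^ 2 / 2) := by
  have h1 := ProbabilityTheory.hasSubgaussianMGF_of_mem_Icc_of_integral_eq_zero (μ := Leb)
    (X := Xw b w G 0) (a := -K) (b := K) (measurable_Xw _ _ _ _).aemeasurable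
    (Eventually.of_forall fun x => abs_le.1 (hG _)) (int_Xw hb hG0 0)
  have h2 := h1.mgf_le s
  have hK : 0 ≤ K := (abs_nonneg _).trans (hG 0)
  have e1 : ((((‖K - -K‖₊ / 2) ^ 2 : NNReal)) : ℝ) = K ^ 2 := by
    push_cast
    rw [Real.norm_eq_abs, abs_of_nonneg (by linarith)]
    ring
  rw [e1] at h2
  exact h2

/-- exponential moment along a progression with difference `w` -/
lemma exp_prog (hb : 1 ≤ b) (hG : ∀ c, |G c| ≤ K) (hG0 : ∑ c ∈ range (b ^ w), G c = 0) (s : ℝ)
    (r J : ℕ) :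
    ∫ x, exp (s * ∑ j ∈ range J, Xw b w G (r + w * j) x) ∂Leb ≤ exp (K ^ 2 * s ^ 2 / 2) ^ J := by
  have hK : 0 ≤ K := (abs_nonneg _).trans (hG 0)
  set A : ℝ → ℝ := fun x => exp (s * Xw b w G 0 x) with hA
  have hAm : Measurable A := Real.measurable_exp.comp ((measurable_Xw _ _ _ _).const_mul s)
  have hAb : ∀ x, |A x| ≤ exp (|s| * K) := by
    intro x
    rw [hA, abs_of_pos (exp_pos _)]
    apply exp_le_exp.2
    calc s * Xw b w G 0 x ≤ |s * Xw b w G 0 x| := le_abs_self _
      _ = |s| * |Xw b w G 0 x| := abs_mul _ _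
      _ ≤ |s| * K := by gcongr; exact hG _
  have h1 : ∀ x, exp (s * ∑ j ∈ range J, Xw b w G (r + w * j) x) =
      (fun y => ∏ j ∈ range J, A (Tb b (w * j) y)) (Tb b r x) := by
    intro x
    simp only [hA]
    rw [← Real.exp_sum, mul_sum]
    congr 1
    refine sum_congr rfl fun j _ => ?_
    rw [Xw_add, ← Xw_add b w G (w * j) 0, Nat.add_zero]
  simp only [h1]
  rw [invariance_real hb (h := fun y => ∏ j ∈ range J, A (Tb b (w * j) y))
    (Finset.measurable_fun_prod _ fun j _ => hAm.comp (measurable_Tb _ _))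
    (C := exp (|s| * K) ^ J)]
  · rw [block_prod_real hb ((dep_Xw (G := G) hb (n := 0) (p := w) (by omega)).comp
      (fun y => exp (s * y))) hAm hAb]
    have h2 : 0 ≤ ∫ x, A x ∂Leb := integral_nonneg fun x => (exp_pos _).le
    exact pow_le_pow_left₀ h2 (exp_one hb hG hG0 s) J
  · intro x
    rw [Finset.abs_prod]
    calc ∏ j ∈ range J, |A (Tb b (w * j) x)| ≤ ∏ _j ∈ range J, exp (|s| * K) :=
          prod_le_prod (fun _ _ => abs_nonneg _) fun j _ => hAb _
      _ = exp (|s| * K) ^ J := by rw [prod_const, card_range]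

lemma sum_range_blocks {E : Type*} [AddCommMonoid E] (f : ℕ → E) (w J : ℕ) :
    ∑ n ∈ range (w * J), f n = ∑ r ∈ range w, ∑ j ∈ range J, f (r + w * j) := by
  induction J with
  | zero => simp
  | succ J ih =>
    rw [Nat.mul_succ, sum_range_add, ih, ← sum_add_distrib]
    refine sum_congr rfl fun r _ => ?_
    rw [sum_range_succ, Nat.add_comm (w * J) r]

/-- exponential moment of the sum over `w J` consecutive places -/
lemma exp_blocks (hb : 1 ≤ b) (hw : 1 ≤ w) (hG : ∀ c, |G c| ≤ K)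
    (hG0 : ∑ c ∈ range (b ^ w), G c = 0) (s : ℝ) (J : ℕ) :
    ∫ x, exp (s * ∑ n ∈ range (w * J), Xw b w G n x) ∂Leb ≤
      exp (K ^ 2 * (s * w) ^ 2 / 2) ^ J := by
  have hwR : (0 : ℝ) < w := by exact_mod_cast hw
  have hK : 0 ≤ K := (abs_nonneg _).trans (hG 0)
  have hm : ∀ r, Measurable (fun x => exp ((s * w) * ∑ j ∈ range J, Xw b w G (r + w * j) x)) :=
    fun r => Real.measurable_exp.comp
      ((Finset.measurable_fun_sum _ fun j _ => measurable_Xw _ _ _ _).const_mul _)
  have hint : ∀ r, Integrable (fun x => exp ((s * w) * ∑ j ∈ range J, Xw b w G (r + w * j) x))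
      Leb := by
    intro r
    refine integrable_of_bdd (hm r) (R := exp (|s * w| * (J * K))) fun x => ?_
    rw [abs_of_pos (exp_pos _)]
    apply exp_le_exp.2
    refine (le_abs_self _).trans ?_
    rw [abs_mul]
    gcongr
    refine (Finset.abs_sum_le_sum_abs _ _).trans ?_
    calc ∑ j ∈ range J, |Xw b w G (r + w * j) x| ≤ ∑ _j ∈ range J, K :=
          sum_le_sum fun j _ => hG _
      _ = J * K := by rw [sum_const, card_range, nsmul_eq_mul]
  have h1 : ∀ x, exp (s * ∑ n ∈ range (w * J), Xw b w G n x) ≤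
      ∑ r ∈ range w, (1 / (w : ℝ)) * exp ((s * w) * ∑ j ∈ range J, Xw b w G (r + w * j) x) := by
    intro x
    rw [sum_range_blocks]
    have h2 := convexOn_exp.map_sum_le (t := range w) (w := fun _ => 1 / (w : ℝ))
      (p := fun r => (s * w) * ∑ j ∈ range J, Xw b w G (r + w * j) x)
      (fun _ _ => by positivity) (by rw [sum_const, card_range, nsmul_eq_mul]; field_simp)
      (fun _ _ => Set.mem_univ _)
    simp only [smul_eq_mul] at h2
    refine le_trans (le_of_eq ?_) h2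
    congr 1
    rw [mul_sum]
    refine sum_congr rfl fun r _ => ?_
    field_simp
  calc ∫ x, exp (s * ∑ n ∈ range (w * J), Xw b w G n x) ∂Leb
      ≤ ∫ x, ∑ r ∈ range w, (1 / (w : ℝ)) *
          exp ((s * w) * ∑ j ∈ range J, Xw b w G (r + w * j) x) ∂Leb :=
        integral_mono_of_nonneg (Eventually.of_forall fun x => (exp_pos _).le)
          (integrable_finsetSum _ fun r _ => (hint r).const_mul _) (Eventually.of_forall h1)
    _ = ∑ r ∈ range w, (1 / (w : ℝ)) *
          ∫ x, exp ((s * w) * ∑ j ∈ range J, Xw b w G (r + w * j) x) ∂Leb := by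
        rw [integral_finsetSum _ fun r _ => (hint r).const_mul _]
        simp only [MeasureTheory.integral_const_mul]
    _ ≤ ∑ r ∈ range w, (1 / (w : ℝ)) * exp (K ^ 2 * (s * w) ^ 2 / 2) ^ J := by
        gcongr with r _
        exact exp_prog hb hG hG0 (s * w) r J
    _ = exp (K ^ 2 * (s * w) ^ 2 / 2) ^ J := by
        rw [sum_const, card_range, nsmul_eq_mul]
        field_simp

/-- exponential moment of the normalised sum -/
lemma exp_norm (hb : 1 ≤ b) (hw : 1 ≤ w) (hG : ∀ c, |G c| ≤ K)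
    (hG0 : ∑ c ∈ range (b ^ w), G c = 0) (s : ℝ) (N : ℕ) (hN : 1 ≤ N) :
    ∫ x, exp (s * ((∑ n ∈ range N, Xw b w G n x) / √N)) ∂Leb ≤
      exp (|s| * (w * K)) * exp (K ^ 2 * (s * w) ^ 2 / 2) := by
  have hwR : (0 : ℝ) < w := by exact_mod_cast hw
  have hK : 0 ≤ K := (abs_nonneg _).trans (hG 0)
  have hNR : (1 : ℝ) ≤ N := by exact_mod_cast hN
  have hsq1 : 1 ≤ √(N : ℝ) := Real.one_le_sqrt.2 hNR
  have hsq : 0 < √(N : ℝ) := by linarith
  have hdm := Nat.div_add_mod N w
  have hJN : ((N / w : ℕ) : ℝ) ≤ N := by exact_mod_cast Nat.div_le_self N w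
  have hmod : N % w < w := Nat.mod_lt _ hw
  have h1 : ∀ x, exp (s * ((∑ n ∈ range N, Xw b w G n x) / √N)) ≤
      exp (|s| * (w * K)) * exp ((s / √N) * ∑ n ∈ range (w * (N / w)), Xw b w G n x) := by
    intro x
    rw [← Real.exp_add]
    apply exp_le_exp.2
    have h2 : ∑ n ∈ range N, Xw b w G n x = ∑ n ∈ range (w * (N / w)), Xw b w G n x +
        ∑ n ∈ range (N % w), Xw b w G (w * (N / w) + n) x := by
      rw [← sum_range_add, hdm]
    have h3 : |∑ n ∈ range (N % w), Xw b w G (w * (N / w) + n) x| ≤ w * K := by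
      refine (Finset.abs_sum_le_sum_abs _ _).trans ?_
      calc ∑ n ∈ range (N % w), |Xw b w G (w * (N / w) + n) x| ≤ ∑ _n ∈ range (N % w), K :=
            sum_le_sum fun j _ => hG _
        _ = (N % w : ℕ) * K := by rw [sum_const, card_range, nsmul_eq_mul]
        _ ≤ w * K := by
            gcongr
    rw [h2]
    have h4 : s * ((∑ n ∈ range (w * (N / w)), Xw b w G n x +
        ∑ n ∈ range (N % w), Xw b w G (w * (N / w) + n) x) / √N) =
        (s / √N) * (∑ n ∈ range (N % w), Xw b w G (w * (N / w) + n) x) +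
        (s / √N) * ∑ n ∈ range (w * (N / w)), Xw b w G n x := by ring
    rw [h4]
    refine add_le_add ?_ le_rfl
    refine (le_abs_self _).trans ?_
    rw [abs_mul, abs_div, abs_of_pos hsq]
    have h5 : |s| / √(N : ℝ) ≤ |s| := div_le_self (abs_nonneg _) hsq1
    exact mul_le_mul h5 h3 (abs_nonneg _) (abs_nonneg _)
  have hbd : ∀ (a : ℝ) (L : ℕ) (x : ℝ), |exp (a * ∑ n ∈ range L, Xw b w G n x)| ≤
      exp (|a| * (L * K)) := by
    intro a L x
    rw [abs_of_pos (exp_pos _)]
    apply exp_le_exp.2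
    refine (le_abs_self _).trans ?_
    rw [abs_mul]
    gcongr
    refine (Finset.abs_sum_le_sum_abs _ _).trans ?_
    calc ∑ j ∈ range L, |Xw b w G j x| ≤ ∑ _j ∈ range L, K :=
          sum_le_sum fun j _ => hG _
      _ = L * K := by rw [sum_const, card_range, nsmul_eq_mul]
  have hint : Integrable (fun x => exp ((s / √N) * ∑ n ∈ range (w * (N / w)), Xw b w G n x))
      Leb := by
    refine integrable_of_bdd ?_ (hbd (s / √N) (w * (N / w)))
    exact Real.measurable_exp.comp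
      ((Finset.measurable_fun_sum _ fun j _ => measurable_Xw _ _ _ _).const_mul _)
  calc ∫ x, exp (s * ((∑ n ∈ range N, Xw b w G n x) / √N)) ∂Leb
      ≤ ∫ x, exp (|s| * (w * K)) *
          exp ((s / √N) * ∑ n ∈ range (w * (N / w)), Xw b w G n x) ∂Leb :=
        integral_mono_of_nonneg (Eventually.of_forall fun x => (exp_pos _).le)
          (hint.const_mul _) (Eventually.of_forall h1)
    _ = exp (|s| * (w * K)) *
          ∫ x, exp ((s / √N) * ∑ n ∈ range (w * (N / w)), Xw b w G n x) ∂Leb :=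
        MeasureTheory.integral_const_mul _ _
    _ ≤ exp (|s| * (w * K)) * exp (K ^ 2 * (s / √N * w) ^ 2 / 2) ^ (N / w) := by
        gcongr
        exact exp_blocks hb hw hG hG0 _ _
    _ ≤ exp (|s| * (w * K)) * exp (K ^ 2 * (s * w) ^ 2 / 2) := by
        rw [← Real.exp_nat_mul]
        gcongr
        have e1 : K ^ 2 * (s / √(N : ℝ) * w) ^ 2 / 2 = K ^ 2 * (s * w) ^ 2 / 2 / N := by
          rw [div_mul_eq_mul_div, div_pow, Real.sq_sqrt (by linarith)]
          ring
        rw [e1, mul_div_assoc', div_le_iff₀ (by linarith)]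
        have : 0 ≤ K ^ 2 * (s * w) ^ 2 / 2 := by positivity
        nlinarith

end

end Pool.Agent.Y933.KD
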