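import Pool.Agent.Y933.KD.Leb2

/-!
# The central limit theorem for the word sums of a random real number (helper933)
-/

set_option autoImplicit false

namespace Pool.Agent.Y933.KD

open Finset Real MeasureTheory Filter Topology

/-- powers of characteristic functions, any variance -/
lemma pow_limit {P : Measure ℝ} [IsProbabilityMeasure P] {X : ℝ → ℝ} (hX : Measurable X) {R : ℝ}
    (hR : ∀ x, |X x| ≤ R) (h0 : ∫ x, X x ∂P = 0) (t : ℝ) :
    Tendsto (fun n : ℕ => (charFun (P.map X) ((√(n : ℝ))⁻¹ * t)) ^ n) atTop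
      (𝓝 (Complex.exp (-((∫ x, X x ^ 2 ∂P : ℝ) : ℂ) * (t : ℂ) ^ 2 / 2))) := by
  set v := ∫ x, X x ^ 2 ∂P with hv
  have hv0 : 0 ≤ v := integral_nonneg fun x => sq_nonneg _
  rcases hv0.eq_or_lt with hv1 | hv1
  · -- variance zero
    have h1 : X =ᵐ[P] 0 := by
      have h2 : (fun x => X x ^ 2) =ᵐ[P] 0 := by
        rw [← integral_eq_zero_iff_of_nonneg (fun x => sq_nonneg _) (integrable_pow_of_bdd hX hR 2)]
        exact hv1.symm
      filter_upwards [h2] with x hx
      simpa using hx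
    have h2 : ∀ s : ℝ, charFun (P.map X) s = 1 := by
      intro s
      rw [charFun_apply_real, integral_map hX.aemeasurable (by fun_prop)]
      have h3 : ∫ x, Complex.exp (s * X x * Complex.I) ∂P = ∫ x, (1 : ℂ) ∂P := by
        refine integral_congr_ae ?_
        filter_upwards [h1] with x hx
        rw [hx]
        simp
      rw [h3]
      simp
    simp only [h2, one_pow]
    rw [← hv1]
    simp
  · have hsv : 0 < √v := Real.sqrt_pos.2 hv1
    have h1 := ProbabilityTheory.tendsto_charFun_inv_sqrt_mul_pow (P := P) (X := fun x => X x / √v)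
      (hX.div_const _).aemeasurable (by
        rw [integral_div, h0, zero_div]) (by
        have : (fun x => X x / √v) ^ 2 = fun x => X x ^ 2 / v := by
          ext x
          rw [Pi.pow_apply, div_pow, Real.sq_sqrt hv0]
        rw [this, integral_div, ← hv, div_self hv1.ne']) (√v * t)
    have h2 : ∀ n : ℕ, charFun (P.map (fun x => X x / √v)) ((√(n : ℝ))⁻¹ * (√v * t)) =
        charFun (P.map X) ((√(n : ℝ))⁻¹ * t) := by
      intro n
      rw [charFun_apply_real, charFun_apply_real, integral_map (hX.div_const _).aemeasurable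
        (by fun_prop), integral_map hX.aemeasurable (by fun_prop)]
      congr 1
      ext x
      congr 1
      have : ((√v : ℝ) : ℂ) ≠ 0 := by exact_mod_cast hsv.ne'
      push_cast
      field_simp
    simp only [h2] at h1
    have e1 : (-(((√v * t : ℝ) : ℂ)) ^ 2 / 2) = -(v : ℂ) * (t : ℂ) ^ 2 / 2 := by
      have : ((√v : ℝ) : ℂ) ^ 2 = (v : ℂ) := by
        rw [← Complex.ofReal_pow, Real.sq_sqrt hv0]
      push_cast
      rw [mul_pow, this]
      ring
    rw [e1] at h1
    exact h1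

/-- Lipschitz bound for the exponential -/
lemma norm_exp_sub_le (a c : ℝ) :
    ‖Complex.exp (a * Complex.I) - Complex.exp (c * Complex.I)‖ ≤ |a - c| := by
  have h1 : Complex.exp (a * Complex.I) - Complex.exp (c * Complex.I) =
      Complex.exp (c * Complex.I) * RT 1 (a - c) := by
    unfold RT
    rw [mul_sub, ← Complex.exp_add]
    simp only [sum_range_one, pow_zero, Nat.factorial_zero, Nat.cast_one, div_one, mul_one]
    congr 2
    push_cast
    ring
  rw [h1, norm_mul, Complex.norm_exp_ofReal_mul_I, one_mul]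
  simpa using RT_le 1 (a - c)

/-- comparison in the mean square -/
lemma exp_diff_le {Y Z : ℝ → ℝ} (hY : Measurable Y) (hZ : Measurable Z) {R : ℝ}
    (hYR : ∀ x, |Y x| ≤ R) (hZR : ∀ x, |Z x| ≤ R) (t : ℝ) :
    ‖∫ x, Complex.exp ((t * Y x : ℝ) * Complex.I) ∂Leb -
      ∫ x, Complex.exp ((t * Z x : ℝ) * Complex.I) ∂Leb‖ ≤
      |t| * √(∫ x, (Y x - Z x) ^ 2 ∂Leb) := by
  have hint : ∀ {V : ℝ → ℝ}, Measurable V →
      Integrable (fun x => Complex.exp ((t * V x : ℝ) * Complex.I)) Leb := by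
    intro V hV
    refine Integrable.of_bound ?_ 1 (Eventually.of_forall fun x => ?_)
    · have : Measurable (fun x => Complex.exp ((t * V x : ℝ) * Complex.I)) :=
        Complex.measurable_exp.comp
          ((Complex.measurable_ofReal.comp (hV.const_mul t)).mul_const _)
      exact this.aestronglyMeasurable
    · rw [Complex.norm_exp_ofReal_mul_I]
  have hD : Measurable (fun x => Y x - Z x) := hY.sub hZ
  have hDR : ∀ x, |Y x - Z x| ≤ 2 * R := fun x =>
    (abs_sub _ _).trans (by linarith [hYR x, hZR x])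
  rw [← integral_sub (hint hY) (hint hZ)]
  have h1 : ‖∫ x, (Complex.exp ((t * Y x : ℝ) * Complex.I) -
      Complex.exp ((t * Z x : ℝ) * Complex.I)) ∂Leb‖ ≤ ∫ x, |t| * |Y x - Z x| ∂Leb := by
    refine (norm_integral_le_integral_norm _).trans ?_
    refine integral_mono_of_nonneg (Eventually.of_forall fun x => norm_nonneg _)
      (((integrable_of_bdd hD hDR).abs).const_mul _) (Eventually.of_forall fun x => ?_)
    simp only
    refine (norm_exp_sub_le _ _).trans (le_of_eq ?_)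
    rw [← mul_sub, abs_mul]
  refine h1.trans ?_
  rw [MeasureTheory.integral_const_mul]
  refine mul_le_mul_of_nonneg_left ?_ (abs_nonneg _)
  -- Jensen
  apply Real.le_sqrt_of_sq_le
  set m := ∫ x, |Y x - Z x| ∂Leb with hm
  have h2 : 0 ≤ ∫ x, (|Y x - Z x| - m) ^ 2 ∂Leb := integral_nonneg fun x => sq_nonneg _
  have h3 : ∫ x, (|Y x - Z x| - m) ^ 2 ∂Leb = ∫ x, (Y x - Z x) ^ 2 ∂Leb - m ^ 2 := by
    have e1 : ∀ x, (|Y x - Z x| - m) ^ 2 = ((Y x - Z x) ^ 2 - (2 * m) * |Y x - Z x|) + m ^ 2 := by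
      intro x
      rw [sub_sq, sq_abs]
      ring
    simp only [e1]
    rw [integral_add, integral_sub, MeasureTheory.integral_const_mul, ← hm]
    · simp only [integral_const, probReal_univ, one_smul]
      ring
    · exact integrable_pow_of_bdd hD hDR 2
    · exact ((integrable_of_bdd hD hDR).abs).const_mul _
    · exact (integrable_pow_of_bdd hD hDR 2).sub (((integrable_of_bdd hD hDR).abs).const_mul _)
    · exact integrable_const _
  linarith

section

variable {b w : ℕ} {G : ℕ → ℝ} {K : ℝ}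

lemma abs_sum_Xw_le (hG : ∀ c, |G c| ≤ K) (s : Finset ℕ) (x : ℝ) :
    |∑ n ∈ s, Xw b w G n x| ≤ s.card * K := by
  refine (Finset.abs_sum_le_sum_abs _ _).trans ?_
  calc ∑ j ∈ s, |Xw b w G j x| ≤ ∑ _j ∈ s, K := sum_le_sum fun j _ => hG _
    _ = s.card * K := by rw [sum_const, nsmul_eq_mul]

/-- the good places: the window lies inside a block of length `p` -/
def Gd (p L J : ℕ) : Finset ℕ := (range (p * J)).filter (fun n => n % p < L)

lemma sum_Gd {E : Type*} [AddCommMonoid E] (f : ℕ → E) {p L : ℕ} (hL : L ≤ p) (J : ℕ) :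
    ∑ n ∈ Gd p L J, f n = ∑ j ∈ range J, ∑ i ∈ range L, f (p * j + i) := by
  unfold Gd
  rw [sum_filter, sum_range_blocks]
  rw [sum_comm]
  refine sum_congr rfl fun j _ => ?_
  have h1 : ∀ i ∈ range p, (if (i + p * j) % p < L then f (i + p * j) else 0) =
      if i ∈ range L then f (p * j + i) else 0 := by
    intro i hi
    rw [mem_range] at hi
    rw [Nat.add_mul_mod_self_left, Nat.mod_eq_of_lt hi, Nat.add_comm i]
    simp only [mem_range]
  rw [sum_congr rfl h1, ← sum_filter]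
  congr 1
  ext i
  simp only [mem_filter, mem_range]
  constructor
  · exact fun h => h.2
  · exact fun h => ⟨by omega, h⟩

lemma card_Gd {p L : ℕ} (hL : L ≤ p) (J : ℕ) : (Gd p L J).card = J * L := by
  rw [card_eq_sum_ones, sum_Gd _ hL]
  simp

lemma Gd_subset {p L J N : ℕ} (h : p * J ≤ N) : Gd p L J ⊆ range N := by
  intro n hn
  unfold Gd at hn
  rw [mem_filter, mem_range] at hn
  rw [mem_range]
  omega

/-- the sum over a block -/
noncomputable def UL (b w : ℕ) (G : ℕ → ℝ) (L : ℕ) (x : ℝ) : ℝ := ∑ i ∈ range L, Xw b w G i x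

lemma measurable_UL (b w : ℕ) (G : ℕ → ℝ) (L : ℕ) : Measurable (UL b w G L) := by
  unfold UL
  exact Finset.measurable_fun_sum _ fun j _ => measurable_Xw _ _ _ _

lemma sum_Gd_eq {p L : ℕ} (hL : L ≤ p) (J : ℕ) (x : ℝ) :
    ∑ n ∈ Gd p L J, Xw b w G n x = ∑ j ∈ range J, UL b w G L (Tb b (p * j) x) := by
  rw [sum_Gd _ hL]
  refine sum_congr rfl fun j _ => ?_
  unfold UL
  refine sum_congr rfl fun i _ => ?_
  rw [Xw_add]

/-- characteristic function of the sum over the good places -/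
lemma char_Gd (hb : 1 ≤ b) (hw : 1 ≤ w) (hG : ∀ c, |G c| ≤ K) {p L : ℕ} (hpL : p = L + (w - 1))
    (J : ℕ) (t : ℝ) :
    ∫ x, Complex.exp ((t * ∑ n ∈ Gd p L J, Xw b w G n x : ℝ) * Complex.I) ∂Leb =
      (charFun (Leb.map (UL b w G L)) t) ^ J := by
  have hL : L ≤ p := by omega
  set A : ℝ → ℂ := fun x => Complex.exp ((t * UL b w G L x : ℝ) * Complex.I) with hA
  have hAm : Measurable A := Complex.measurable_exp.comp
    ((Complex.measurable_ofReal.comp ((measurable_UL b w G L).const_mul t)).mul_const _)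
  have hAb : ∀ x, ‖A x‖ ≤ 1 := fun x => by
    rw [hA]; simp only; rw [Complex.norm_exp_ofReal_mul_I]
  have hdepU : Dep b p (UL b w G L) := by
    unfold UL
    refine Dep.sum _ _ fun i hi => ?_
    rw [mem_range] at hi
    exact dep_Xw hb (by omega)
  have hdep : Dep b p A := hdepU.comp (fun u : ℝ => Complex.exp ((t * u : ℝ) * Complex.I))
  have h1 := block_prod hb hdep hAm hAb J
  have h2 : ∫ x, A x ∂Leb = charFun (Leb.map (UL b w G L)) t := by
    rw [charFun_apply_real, integral_map (measurable_UL b w G L).aemeasurable (by fun_prop)]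
    congr 1
    ext x
    rw [hA]
    simp only
    push_cast
    rfl
  rw [← h2, ← h1]
  congr 1
  ext x
  rw [sum_Gd_eq hL, hA]
  simp only
  rw [← Complex.exp_sum, mul_sum, Complex.ofReal_sum, sum_mul]

lemma sum_split {p L J N : ℕ} (h : p * J ≤ N) (x : ℝ) :
    ∑ n ∈ range N, Xw b w G n x = ∑ n ∈ Gd p L J, Xw b w G n x +
      ∑ n ∈ range N \ Gd p L J, Xw b w G n x := by
  rw [add_comm, sum_sdiff (Gd_subset h)]

/-- the mean square distance between the normalised sum and its block approximation -/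
lemma dist_le (hb : 1 ≤ b) (hw : 1 ≤ w) (hG : ∀ c, |G c| ≤ K)
    (hG0 : ∑ c ∈ range (b ^ w), G c = 0) {p L : ℕ} (hpL : p = L + (w - 1)) (hL1 : 1 ≤ L) {N : ℕ}
    (hN : p ≤ N) :
    ∫ x, ((∑ n ∈ range N, Xw b w G n x) / √(N : ℝ) -
      (∑ n ∈ Gd p L (N / p), Xw b w G n x) / √((p * (N / p) : ℕ) : ℝ)) ^ 2 ∂Leb ≤
      4 * w * K ^ 2 * ((w / p + p / N) + (1 - √((N : ℝ) / ((p * (N / p) : ℕ) : ℝ))) ^ 2) := by
  have hp1 : 1 ≤ p := by omega
  have hLp : L ≤ p := by omega
  set J := N / p with hJ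
  have hJ1 : 1 ≤ J := (Nat.one_le_div_iff hp1).2 hN
  have hpJ : p * J ≤ N := Nat.mul_div_le N p
  have hNlt : N < p * J + p := by
    have h1 := Nat.div_add_mod N p
    have h2 := Nat.mod_lt N hp1
    rw [← hJ] at h1
    omega
  have hNR : (0 : ℝ) < N := by
    have : 0 < N := by omega
    exact_mod_cast this
  have hpR : (0 : ℝ) < p := by exact_mod_cast hp1
  have hpJR : (0 : ℝ) < ((p * J : ℕ) : ℝ) := by
    have : 0 < p * J := Nat.mul_pos hp1 hJ1
    exact_mod_cast this
  have hK2 : 0 ≤ K ^ 2 := sq_nonneg K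
  have hwR : (1 : ℝ) ≤ w := by exact_mod_cast hw
  set ν : ℝ := 1 / √(N : ℝ) - 1 / √((p * J : ℕ) : ℝ) with hν
  have hsN : 0 < √(N : ℝ) := Real.sqrt_pos.2 hNR
  have hsJ : 0 < √((p * J : ℕ) : ℝ) := Real.sqrt_pos.2 hpJR
  have h1 : ∀ x, ((∑ n ∈ range N, Xw b w G n x) / √(N : ℝ) -
      (∑ n ∈ Gd p L J, Xw b w G n x) / √((p * J : ℕ) : ℝ)) ^ 2 ≤
      2 / N * (∑ n ∈ range N \ Gd p L J, Xw b w G n x) ^ 2 +
        2 * ν ^ 2 * (∑ n ∈ Gd p L J, Xw b w G n x) ^ 2 := by
    intro x
    rw [sum_split (L := L) hpJ x]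
    set S := ∑ n ∈ Gd p L J, Xw b w G n x
    set R := ∑ n ∈ range N \ Gd p L J, Xw b w G n x
    have e1 : (S + R) / √(N : ℝ) - S / √((p * J : ℕ) : ℝ) = R / √(N : ℝ) + ν * S := by
      rw [hν]; ring
    rw [e1]
    have e2 : 2 / (N : ℝ) * R ^ 2 = 2 * (R / √(N : ℝ)) ^ 2 := by
      rw [div_pow, Real.sq_sqrt hNR.le]; ring
    rw [e2]
    nlinarith [sq_nonneg (R / √(N : ℝ) - ν * S)]
  have hm : ∀ s : Finset ℕ, Measurable (fun x => ∑ n ∈ s, Xw b w G n x) := fun s =>
    Finset.measurable_fun_sum _ fun j _ => measurable_Xw _ _ _ _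
  have hi : ∀ s : Finset ℕ, Integrable (fun x => (∑ n ∈ s, Xw b w G n x) ^ 2) Leb := fun s =>
    integrable_pow_of_bdd (hm s) (R := s.card * K) (abs_sum_Xw_le hG s) 2
  have h2 : ∫ x, ((∑ n ∈ range N, Xw b w G n x) / √(N : ℝ) -
      (∑ n ∈ Gd p L J, Xw b w G n x) / √((p * J : ℕ) : ℝ)) ^ 2 ∂Leb ≤
      2 / N * ∫ x, (∑ n ∈ range N \ Gd p L J, Xw b w G n x) ^ 2 ∂Leb +
        2 * ν ^ 2 * ∫ x, (∑ n ∈ Gd p L J, Xw b w G n x) ^ 2 ∂Leb := by
    rw [← MeasureTheory.integral_const_mul, ← MeasureTheory.integral_const_mul,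
      ← integral_add ((hi _).const_mul _) ((hi _).const_mul _)]
    exact integral_mono_of_nonneg (Eventually.of_forall fun x => sq_nonneg _)
      (((hi _).const_mul _).add ((hi _).const_mul _)) (Eventually.of_forall h1)
  refine h2.trans ?_
  have h3 := sq_sum_le (w := w) hb hG hG0 (range N \ Gd p L J)
  have h4 := sq_sum_le (w := w) hb hG hG0 (Gd p L J)
  have hc1 : ((range N \ Gd p L J).card : ℝ) ≤ w * (N / p) + p := by
    have h5 : (range N \ Gd p L J).card = N - J * L := by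
      rw [card_sdiff_of_subset (Gd_subset hpJ), card_range, card_Gd hLp]
    have h6 : (range N \ Gd p L J).card ≤ w * J + p := by
      rw [h5]
      have h7 : N ≤ J * L + (w * J + p) := by
        have e1 : p * J = J * L + J * (w - 1) := by rw [hpL]; ring
        have e2 : J * (w - 1) ≤ w * J := by
          rw [Nat.mul_comm]; exact Nat.mul_le_mul_right _ (by omega)
        omega
      omega
    have h7 : (J : ℝ) ≤ N / p := by
      rw [le_div_iff₀ hpR, mul_comm]
      exact_mod_cast hpJ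
    calc ((range N \ Gd p L J).card : ℝ) ≤ ((w * J + p : ℕ) : ℝ) := by exact_mod_cast h6
      _ = w * J + p := by push_cast; ring
      _ ≤ w * (N / p) + p := by gcongr
  have hc2 : ((Gd p L J).card : ℝ) ≤ N := by
    have := card_le_card (Gd_subset (L := L) hpJ)
    rw [card_range] at this
    exact_mod_cast this
  have h5 : 2 / (N : ℝ) * ∫ x, (∑ n ∈ range N \ Gd p L J, Xw b w G n x) ^ 2 ∂Leb ≤
      4 * w * K ^ 2 * (w / p + p / N) := by
    calc 2 / (N : ℝ) * ∫ x, (∑ n ∈ range N \ Gd p L J, Xw b w G n x) ^ 2 ∂Leb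
        ≤ 2 / (N : ℝ) * ((w * (N / p) + p) * (2 * w * K ^ 2)) := by
          refine mul_le_mul_of_nonneg_left (h3.trans ?_) (by positivity)
          exact mul_le_mul_of_nonneg_right hc1 (by positivity)
      _ = 4 * w * K ^ 2 * (w / p + p / N) := by
          field_simp
          ring
  have h6 : 2 * ν ^ 2 * ∫ x, (∑ n ∈ Gd p L J, Xw b w G n x) ^ 2 ∂Leb ≤
      4 * w * K ^ 2 * (1 - √((N : ℝ) / ((p * J : ℕ) : ℝ))) ^ 2 := by
    have e1 : (1 - √((N : ℝ) / ((p * J : ℕ) : ℝ))) ^ 2 = N * ν ^ 2 := by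
      rw [hν, Real.sqrt_div hNR.le]
      have e2 : (N : ℝ) = √(N : ℝ) ^ 2 := (Real.sq_sqrt hNR.le).symm
      nth_rewrite 2 [e2]
      rw [← mul_pow]
      congr 1
      field_simp
    rw [e1]
    calc 2 * ν ^ 2 * ∫ x, (∑ n ∈ Gd p L J, Xw b w G n x) ^ 2 ∂Leb
        ≤ 2 * ν ^ 2 * (N * (2 * w * K ^ 2)) := by
          refine mul_le_mul_of_nonneg_left (h4.trans ?_) (by positivity)
          exact mul_le_mul_of_nonneg_right hc2 (by positivity)
      _ = 4 * w * K ^ 2 * (N * ν ^ 2) := by ring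
  linarith

end

end Pool.Agent.Y933.KD
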