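import Pool.Agent.Y933.KD.Leb3

/-!
# The central limit theorem for the word sums of a random real number: the limit (helper933)
-/

set_option autoImplicit false

namespace Pool.Agent.Y933.KD

open Finset Real MeasureTheory Filter Topology

lemma tendsto_div_nat {p : ℕ} (hp : 1 ≤ p) : Tendsto (fun N : ℕ => N / p) atTop atTop := by
  rw [tendsto_atTop]
  intro k
  filter_upwards [eventually_ge_atTop (k * p)] with N hN
  exact (Nat.le_div_iff_mul_le hp).2 hN

lemma tendsto_ratio {p : ℕ} (hp : 1 ≤ p) :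
    Tendsto (fun N : ℕ => (N : ℝ) / ((p * (N / p) : ℕ) : ℝ)) atTop (𝓝 1) := by
  have h1 : Tendsto (fun N : ℕ => 1 + 1 / ((N / p : ℕ) : ℝ)) atTop (𝓝 1) := by
    have := (tendsto_one_div_atTop_nhds_zero_nat (𝕜 := ℝ)).comp (tendsto_div_nat hp)
    simpa using this.const_add (1 : ℝ)
  refine tendsto_of_tendsto_of_tendsto_of_le_of_le' tendsto_const_nhds h1 ?_ ?_
  · filter_upwards [eventually_ge_atTop p] with N hN
    have hJ : 1 ≤ N / p := (Nat.one_le_div_iff hp).2 hN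
    have h2 : 0 < p * (N / p) := Nat.mul_pos hp hJ
    rw [one_le_div (by exact_mod_cast h2)]
    exact_mod_cast Nat.mul_div_le N p
  · filter_upwards [eventually_ge_atTop p] with N hN
    have hJ : 1 ≤ N / p := (Nat.one_le_div_iff hp).2 hN
    have h2 : 0 < p * (N / p) := Nat.mul_pos hp hJ
    have h2R : (0 : ℝ) < ((p * (N / p) : ℕ) : ℝ) := by exact_mod_cast h2
    have hJR : (0 : ℝ) < ((N / p : ℕ) : ℝ) := by exact_mod_cast hJ
    rw [div_le_iff₀ h2R]
    have h3 : N ≤ p * (N / p) + p := by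
      have h1 := Nat.div_add_mod N p
      have h2 := Nat.mod_lt N hp
      omega
    have h4 : (1 + 1 / ((N / p : ℕ) : ℝ)) * ((p * (N / p) : ℕ) : ℝ) = ((p * (N / p) + p : ℕ) : ℝ) := by
      push_cast
      field_simp
    rw [h4]
    exact_mod_cast h3

section

variable {b w : ℕ} {G : ℕ → ℝ} {K : ℝ}

lemma block_limit (hb : 1 ≤ b) (hw : 1 ≤ w) (hG : ∀ c, |G c| ≤ K)
    (hG0 : ∑ c ∈ range (b ^ w), G c = 0) {L : ℕ} (hL1 : 1 ≤ L) (t : ℝ) :
    Tendsto (fun N : ℕ => ∫ x, Complex.exp ((t * ((∑ n ∈ Gd (L + (w - 1)) L (N / (L + (w - 1))),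
      Xw b w G n x) / √(((L + (w - 1)) * (N / (L + (w - 1))) : ℕ) : ℝ)) : ℝ) * Complex.I) ∂Leb)
      atTop (𝓝 (Complex.exp (-((VL b w G L / (L + (w - 1) : ℕ) : ℝ) : ℂ) * (t : ℂ) ^ 2 / 2))) := by
  set p := L + (w - 1) with hp
  have hp1 : 1 ≤ p := by omega
  have hpR : (0 : ℝ) < p := by exact_mod_cast hp1
  have hm := measurable_UL b w G L
  have hbd : ∀ x, |UL b w G L x| ≤ ((range L).card : ℝ) * K := abs_sum_Xw_le hG (range L)
  have h0 : ∫ x, UL b w G L x ∂Leb = 0 := by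
    unfold UL
    rw [integral_finsetSum]
    · exact sum_eq_zero fun i _ => int_Xw hb hG0 i
    · intro i _
      exact integrable_of_bdd (measurable_Xw _ _ _ _) (R := K) fun x => hG _
  have h1 := (pow_limit (P := Leb) hm hbd h0 (t / √(p : ℝ))).comp (tendsto_div_nat hp1)
  have e1 : (-((∫ x, UL b w G L x ^ 2 ∂Leb : ℝ) : ℂ) * ((t / √(p : ℝ) : ℝ) : ℂ) ^ 2 / 2) =
      -((VL b w G L / (p : ℕ) : ℝ) : ℂ) * (t : ℂ) ^ 2 / 2 := by
    have e2 : (t / √(p : ℝ)) ^ 2 = t ^ 2 / p := by rw [div_pow, Real.sq_sqrt hpR.le]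
    rw [← Complex.ofReal_pow, e2]
    have e3 : ∫ x, UL b w G L x ^ 2 ∂Leb = VL b w G L := rfl
    rw [e3]
    push_cast
    ring
  rw [e1] at h1
  refine h1.congr fun N => ?_
  simp only [Function.comp_apply]
  rw [← char_Gd hb hw hG hp (N / p)]
  congr 1
  ext x
  congr 2
  apply congrArg Complex.ofReal
  rw [Nat.cast_mul, Real.sqrt_mul hpR.le]
  ring

/-- **the central limit theorem for the words of a random real number** -/
theorem clt_Leb (hb : 1 ≤ b) (hw : 1 ≤ w) (hG : ∀ c, |G c| ≤ K)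
    (hG0 : ∑ c ∈ range (b ^ w), G c = 0) (t : ℝ) :
    Tendsto (fun N : ℕ => ∫ x, Complex.exp ((t * ((∑ n ∈ range N, Xw b w G n x) / √(N : ℝ)) : ℝ) *
      Complex.I) ∂Leb) atTop (𝓝 (Complex.exp (-((sigma2 b w G : ℝ) : ℂ) * (t : ℂ) ^ 2 / 2))) := by
  have hK : 0 ≤ K := (abs_nonneg _).trans (hG 0)
  -- the limits along the block lengths
  have hVL : Tendsto (fun L : ℕ => VL b w G L / (L + (w - 1) : ℕ)) atTop (𝓝 (sigma2 b w G)) := by
    have h1 : Tendsto (fun m : ℕ => VL b w G (m + (w - 1)) / ((m + (w - 1) + (w - 1) : ℕ) : ℝ))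
        atTop (𝓝 (sigma2 b w G)) := by
      have h2 : ∀ m : ℕ, VL b w G (m + (w - 1)) / ((m + (w - 1) + (w - 1) : ℕ) : ℝ) =
          VL b w G (w - 1) * (1 / ((m + (w - 1) + (w - 1) : ℕ) : ℝ)) +
          sigma2 b w G * ((m : ℝ) / ((m + (w - 1) + (w - 1) : ℕ) : ℝ)) := by
        intro m
        rw [Nat.add_comm m (w - 1), VL_eq hb hw hG hG0 m]
        ring
      simp only [h2]
      have h3 : Tendsto (fun m : ℕ => 1 / ((m + (w - 1) + (w - 1) : ℕ) : ℝ)) atTop (𝓝 0) := by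
        have h5 : Tendsto (fun m : ℕ => m + (w - 1) + (w - 1)) atTop atTop :=
          tendsto_atTop_mono (fun m => by simp only [id]; omega) tendsto_id
        exact (tendsto_one_div_atTop_nhds_zero_nat (𝕜 := ℝ)).comp h5
      have h4 : Tendsto (fun m : ℕ => (m : ℝ) / ((m + (w - 1) + (w - 1) : ℕ) : ℝ)) atTop
          (𝓝 1) := by
        have h6 := tendsto_natCast_div_add_atTop (((w - 1 : ℕ) : ℝ) + ((w - 1 : ℕ) : ℝ))
        refine h6.congr fun m => ?_
        push_cast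
        rw [add_assoc]
      have h7 := (h3.const_mul (VL b w G (w - 1))).add (h4.const_mul (sigma2 b w G))
      simpa using h7
    exact (tendsto_add_atTop_iff_nat (w - 1)).1 h1
  have hφ : Tendsto (fun L : ℕ => Complex.exp (-((VL b w G L / (L + (w - 1) : ℕ) : ℝ) : ℂ) *
      (t : ℂ) ^ 2 / 2)) atTop (𝓝 (Complex.exp (-((sigma2 b w G : ℝ) : ℂ) * (t : ℂ) ^ 2 / 2))) := by
    have hc : Continuous fun r : ℝ => Complex.exp (-((r : ℝ) : ℂ) * (t : ℂ) ^ 2 / 2) := by fun_prop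
    exact (hc.tendsto _).comp hVL
  have he : Tendsto (fun L : ℕ => |t| * √(4 * w * K ^ 2 * ((w : ℝ) / ((L + (w - 1) : ℕ) : ℝ))))
      atTop (𝓝 0) := by
    have h1 : Tendsto (fun L : ℕ => (w : ℝ) / ((L + (w - 1) : ℕ) : ℝ)) atTop (𝓝 0) := by
      have h5 : Tendsto (fun m : ℕ => m + (w - 1)) atTop atTop :=
        tendsto_atTop_mono (fun m => by simp only [id]; omega) tendsto_id
      exact (tendsto_const_div_atTop_nhds_zero_nat (w : ℝ)).comp h5
    have h2 := ((Real.continuous_sqrt.tendsto _).comp (h1.const_mul (4 * w * K ^ 2))).const_mul |t|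
    simpa using h2
  rw [Metric.tendsto_atTop]
  intro ε hε
  obtain ⟨L, ⟨hL1, hL2⟩, hL3⟩ := (((hφ.eventually (Metric.ball_mem_nhds _ (by positivity :
    0 < ε / 4))).and (he.eventually (gt_mem_nhds (by positivity : 0 < ε / 4)))).and
    (eventually_ge_atTop 1)).exists
  set p := L + (w - 1) with hp
  have hp1 : 1 ≤ p := by omega
  have hpR : (0 : ℝ) < p := by exact_mod_cast hp1
  have hB := block_limit hb hw hG hG0 hL3 t
  rw [← hp] at hB
  have hdist : Tendsto (fun N : ℕ => |t| * √(4 * w * K ^ 2 * (((w : ℝ) / p + p / N) +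
      (1 - √((N : ℝ) / ((p * (N / p) : ℕ) : ℝ))) ^ 2))) atTop
      (𝓝 (|t| * √(4 * w * K ^ 2 * ((w : ℝ) / p)))) := by
    have h1 : Tendsto (fun N : ℕ => (p : ℝ) / N) atTop (𝓝 0) :=
      tendsto_const_div_atTop_nhds_zero_nat (p : ℝ)
    have h2 : Tendsto (fun N : ℕ => (1 - √((N : ℝ) / ((p * (N / p) : ℕ) : ℝ))) ^ 2) atTop
        (𝓝 0) := by
      have h3 := (Real.continuous_sqrt.tendsto _).comp (tendsto_ratio hp1)
      have h4 := ((tendsto_const_nhds (x := (1 : ℝ))).sub h3).pow 2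
      simpa using h4
    have h5 := ((h1.const_add ((w : ℝ) / p)).add h2).const_mul (4 * w * K ^ 2)
    have h6 := ((Real.continuous_sqrt.tendsto _).comp h5).const_mul |t|
    simpa using h6
  have h7 := (hB.eventually (Metric.ball_mem_nhds _ (by positivity : 0 < ε / 4))).and
    ((hdist.eventually (gt_mem_nhds (lt_add_of_pos_right _ (by positivity : 0 < ε / 4)))).and
    (eventually_ge_atTop p))
  obtain ⟨N0, hN0⟩ := eventually_atTop.1 h7
  refine ⟨N0, fun N hN => ?_⟩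
  obtain ⟨h8, h9, h10⟩ := hN0 N hN
  -- the mean square comparison
  set Y : ℝ → ℝ := fun x => (∑ n ∈ range N, Xw b w G n x) / √(N : ℝ) with hY
  set Z : ℝ → ℝ := fun x => (∑ n ∈ Gd p L (N / p), Xw b w G n x) /
    √((p * (N / p) : ℕ) : ℝ) with hZ
  have hYm : Measurable Y :=
    (Finset.measurable_fun_sum _ fun j _ => measurable_Xw _ _ _ _).div_const _
  have hZm : Measurable Z :=
    (Finset.measurable_fun_sum _ fun j _ => measurable_Xw _ _ _ _).div_const _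
  obtain ⟨R, hYR, hZR⟩ : ∃ R : ℝ, (∀ x, |Y x| ≤ R) ∧ ∀ x, |Z x| ≤ R := by
    refine ⟨max (((range N).card : ℝ) * K / √(N : ℝ))
      (((Gd p L (N / p)).card : ℝ) * K / √((p * (N / p) : ℕ) : ℝ)), fun x => ?_, fun x => ?_⟩
    · refine le_trans ?_ (le_max_left _ _)
      rw [hY]
      simp only
      rw [abs_div, abs_of_nonneg (Real.sqrt_nonneg _)]
      exact div_le_div_of_nonneg_right (abs_sum_Xw_le hG _ x) (Real.sqrt_nonneg _)
    · refine le_trans ?_ (le_max_right _ _)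
      rw [hZ]
      simp only
      rw [abs_div, abs_of_nonneg (Real.sqrt_nonneg _)]
      exact div_le_div_of_nonneg_right (abs_sum_Xw_le hG _ x) (Real.sqrt_nonneg _)
  have h11 := exp_diff_le hYm hZm hYR hZR t
  have h12 := dist_le hb hw hG hG0 hp hL3 h10
  have h13 : |t| * √(∫ x, (Y x - Z x) ^ 2 ∂Leb) ≤ |t| * √(4 * w * K ^ 2 *
      (((w : ℝ) / p + p / N) + (1 - √((N : ℝ) / ((p * (N / p) : ℕ) : ℝ))) ^ 2)) := by
    refine mul_le_mul_of_nonneg_left (Real.sqrt_le_sqrt ?_) (abs_nonneg _)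
    exact h12
  rw [dist_eq_norm]
  set a := ∫ x, Complex.exp ((t * Y x : ℝ) * Complex.I) ∂Leb
  set c := ∫ x, Complex.exp ((t * Z x : ℝ) * Complex.I) ∂Leb
  set φL := Complex.exp (-((VL b w G L / (p : ℕ) : ℝ) : ℂ) * (t : ℂ) ^ 2 / 2)
  set φ := Complex.exp (-((sigma2 b w G : ℝ) : ℂ) * (t : ℂ) ^ 2 / 2)
  have h14 : a - φ = (a - c) + (c - φL) + (φL - φ) := by ring
  change ‖a - φ‖ < ε
  rw [h14]
  have h15 : ‖(a - c) + (c - φL) + (φL - φ)‖ ≤ ‖a - c‖ + ‖c - φL‖ + ‖φL - φ‖ :=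
    (norm_add_le _ _).trans (by gcongr; exact norm_add_le _ _)
  have h16 : ‖c - φL‖ < ε / 4 := by
    rw [← dist_eq_norm]; exact h8
  have h17 : ‖φL - φ‖ < ε / 4 := by
    rw [← dist_eq_norm]; exact hL1
  linarith

end

end Pool.Agent.Y933.KD
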