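import Pool.Agent.Y933.KD.Clt2

/-!
# Normality up to a multiple of `log M` digits, power saving exceptional sets (helper933)
-/

set_option autoImplicit false

namespace Pool.Agent.Y933.KD

open Finset Real MeasureTheory Filter Topology

/-- the centred indicator function of the word `c` -/
noncomputable def ci (b k c : ℕ) (j : ℕ) : ℝ :=
  if j < b ^ k then ((if j = c then 1 else 0) - 1 / (b : ℝ) ^ k) else 0

lemma ci_le {b : ℕ} (hb : 1 ≤ b) (k c j : ℕ) : |ci b k c j| ≤ 1 := by
  have hb' : (1 : ℝ) ≤ b := by exact_mod_cast hb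
  have h1 : 0 < 1 / (b : ℝ) ^ k := by positivity
  have h2 : 1 / (b : ℝ) ^ k ≤ 1 := by
    rw [div_le_one (by positivity)]
    exact one_le_pow₀ hb'
  unfold ci
  split_ifs
  · rw [abs_le]; constructor <;> linarith
  · rw [abs_le]; constructor <;> linarith
  · simp

lemma ci_sum {b k c : ℕ} (hb : 1 ≤ b) (hc : c < b ^ k) : ∑ j ∈ range (b ^ k), ci b k c j = 0 := by
  have hb' : (0 : ℝ) < b := by exact_mod_cast hb
  have h1 : ∀ j ∈ range (b ^ k), ci b k c j = (if j = c then 1 else 0) - 1 / (b : ℝ) ^ k :=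
    fun j hj => by
      unfold ci
      rw [if_pos (mem_range.1 hj)]
  rw [sum_congr rfl h1, sum_sub_distrib, sum_ite_eq', if_pos (mem_range.2 hc), sum_const,
    card_range, nsmul_eq_mul]
  push_cast
  field_simp
  ring

lemma WS_ci {b k : ℕ} (hb : 1 ≤ b) (c s N : ℕ) (x : ℝ) :
    WS b k (ci b k c) s N x =
      ((range N).filter (fun i => wd b k (s + i) x = c)).card - (N : ℝ) / (b : ℝ) ^ k := by
  unfold WS
  have h1 : ∀ i ∈ range N, ci b k c (wd b k (s + i) x) =
      (if wd b k (s + i) x = c then 1 else 0) - 1 / (b : ℝ) ^ k := by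
    intro i _
    unfold ci
    rw [if_pos (wd_lt hb _ _ _)]
  rw [sum_congr rfl h1, sum_sub_distrib, sum_const, card_range, nsmul_eq_mul, card_filter]
  push_cast
  ring

/-- the words inside a long word are determined by it -/
lemma wd_inside {b : ℕ} (hb : 1 ≤ b) {k i ℓ : ℕ} (h : i + k ≤ ℓ) :
    ∃ φ : ℕ → ℕ, ∀ (s : ℕ) (x : ℝ), wd b k (s + i) x = φ (wd b ℓ s x) := by
  obtain ⟨φ, hφ⟩ := dep_wd (b := b) (w := k) (n := i) (p := ℓ) hb h
  refine ⟨φ, fun s x => ?_⟩
  rw [wd_add, hφ _ (Tb_mem b s x)]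
  congr 1

lemma WS_inside {b : ℕ} (hb : 1 ≤ b) {k L ℓ : ℕ} (h : L + k ≤ ℓ + 1) (G : ℕ → ℝ) :
    ∃ φ : ℕ → ℝ, ∀ (s : ℕ) (x : ℝ), WS b k G s L x = φ (wd b ℓ s x) := by
  have h1 : ∀ i : ℕ, ∃ φ : ℕ → ℝ, i < L → ∀ (s : ℕ) (x : ℝ), G (wd b k (s + i) x) =
      φ (wd b ℓ s x) := by
    intro i
    by_cases hi : i < L
    · obtain ⟨φ, hφ⟩ := wd_inside (b := b) hb (k := k) (i := i) (ℓ := ℓ) (by omega)
      exact ⟨fun c => G (φ c), fun _ s x => by rw [hφ]⟩
    · exact ⟨fun _ => 0, fun hi' => absurd hi' hi⟩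
  choose φ hφ using h1
  refine ⟨fun c => ∑ i ∈ range L, φ i c, fun s x => ?_⟩
  unfold WS
  exact sum_congr rfl fun i hi => hφ i (mem_range.1 hi) s x

/-- the bad event: the sum over `L` consecutive places is large -/
def Dv (b k : ℕ) (G : ℕ → ℝ) (s L : ℕ) (τ : ℝ) : Set ℝ := {x | τ < |WS b k G s L x|}

lemma measurableSet_Dv (b k : ℕ) (G : ℕ → ℝ) (s L : ℕ) (τ : ℝ) : MeasurableSet (Dv b k G s L τ) :=
  measurableSet_lt measurable_const (measurable_WS b k G s L).abs

lemma word_event {b ℓ : ℕ} (hb : 1 ≤ b) (s c : ℕ) :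
    {x | wd b ℓ s x = c} = Ev (fun _ : Fin 1 => b) (fun _ => s) (fun _ => (c : ℝ) / (b : ℝ) ^ ℓ)
      (fun _ => ((c : ℝ) + 1) / (b : ℝ) ^ ℓ) := by
  ext x
  constructor
  · intro h i
    exact (wd_eq_iff hb x).1 h
  · intro h
    exact (wd_eq_iff hb x).2 (h 0)

/-- comparison of the probabilities of events depending on one long word -/
lemma event_le {b ℓ : ℕ} (hb : 1 ≤ b) (s : ℕ) (P : Measure ℝ) [IsProbabilityMeasure P] {Δ : ℝ}
    (h : ∀ u v : ℝ, 0 ≤ u → v ≤ 1 → |P.real (Ev (fun _ : Fin 1 => b) (fun _ => s) (fun _ => u)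
      (fun _ => v)) - Leb.real (Ev (fun _ : Fin 1 => b) (fun _ => s) (fun _ => u)
      (fun _ => v))| ≤ Δ) (φ : ℕ → Prop) [DecidablePred φ] :
    P.real {x | φ (wd b ℓ s x)} ≤ Leb.real {x | φ (wd b ℓ s x)} + (b : ℝ) ^ ℓ * Δ := by
  have hb' : (0 : ℝ) < b := by exact_mod_cast hb
  have hmeas : ∀ c : ℕ, MeasurableSet {x | wd b ℓ s x = c} := fun c => by
    rw [word_event hb]; exact measurableSet_Ev _ _ _ _
  have hU : {x | φ (wd b ℓ s x)} = ⋃ c ∈ (range (b ^ ℓ)).filter φ, {x | wd b ℓ s x = c} := by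
    ext x
    simp only [Set.mem_ofPred_eq, Set.mem_iUnion, mem_filter, mem_range]
    constructor
    · intro hx
      exact ⟨wd b ℓ s x, ⟨wd_lt hb _ _ _, hx⟩, rfl⟩
    · rintro ⟨c, ⟨_, hc⟩, hx⟩
      rw [hx]; exact hc
  have hsum : ∀ Q : Measure ℝ, IsProbabilityMeasure Q → Q.real {x | φ (wd b ℓ s x)} =
      ∑ c ∈ (range (b ^ ℓ)).filter φ, Q.real {x | wd b ℓ s x = c} := by
    intro Q _
    rw [hU, measureReal_biUnion_finset]
    · intro c _ c' _ hcc
      rw [Function.onFun, Set.disjoint_left]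
      intro x hx hx'
      exact hcc (hx.symm.trans hx')
    · intro c _
      exact hmeas c
  rw [hsum P inferInstance, hsum Leb inferInstance]
  have hΔ : 0 ≤ Δ := (abs_nonneg _).trans (h 0 0 le_rfl zero_le_one)
  calc ∑ c ∈ (range (b ^ ℓ)).filter φ, P.real {x | wd b ℓ s x = c}
      ≤ ∑ c ∈ (range (b ^ ℓ)).filter φ, (Leb.real {x | wd b ℓ s x = c} + Δ) := by
        refine sum_le_sum fun c hc => ?_
        rw [mem_filter, mem_range] at hc
        have h1 := h ((c : ℝ) / (b : ℝ) ^ ℓ) (((c : ℝ) + 1) / (b : ℝ) ^ ℓ) (by positivity) (by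
          rw [div_le_one (by positivity)]
          exact_mod_cast hc.1)
        rw [← word_event hb] at h1
        have := (abs_le.1 h1).2
        linarith
    _ = ∑ c ∈ (range (b ^ ℓ)).filter φ, Leb.real {x | wd b ℓ s x = c} +
        (((range (b ^ ℓ)).filter φ).card : ℝ) * Δ := by
        rw [sum_add_distrib, sum_const, nsmul_eq_mul]
    _ ≤ _ := by
        gcongr
        have := card_filter_le (range (b ^ ℓ)) φ
        rw [card_range] at this
        exact_mod_cast this

/-- large deviations for a random real number -/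
lemma dev_Leb {b k c : ℕ} (hb : 1 ≤ b) (hk : 1 ≤ k) (hc : c < b ^ k) (s L : ℕ) (hL : 1 ≤ L) {ε : ℝ}
    (hε : 0 < ε) :
    Leb.real (Dv b k (ci b k c) s L (ε * L)) ≤
      2 * exp (ε / k * √(L : ℝ) - ε ^ 2 * L / (2 * k ^ 2)) := by
  have hkR : (1 : ℝ) ≤ k := by exact_mod_cast hk
  have hLR : (1 : ℝ) ≤ L := by exact_mod_cast hL
  have hsL : 0 < √(L : ℝ) := Real.sqrt_pos.2 (by linarith)
  set G := ci b k c with hG
  -- reduction to the place zero
  have h0 : Leb.real (Dv b k G s L (ε * L)) =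
      Leb.real {x | ε * L < |∑ n ∈ range L, Xw b k G n x|} := by
    have hm : MeasurableSet {x | ε * L < |∑ n ∈ range L, Xw b k G n x|} :=
      measurableSet_lt measurable_const
        (Finset.measurable_fun_sum _ fun j _ => measurable_Xw _ _ _ _).abs
    rw [← integral_indicator_one (measurableSet_Dv _ _ _ _ _ _), ← integral_indicator_one hm]
    rw [← invariance_real (b := b) (p := s) hb (h := fun y =>
      ({x | ε * L < |∑ n ∈ range L, Xw b k G n x|} : Set ℝ).indicator (1 : ℝ → ℝ) y)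
      (measurable_const.indicator hm) (C := 1) (fun x => by
        by_cases hx : x ∈ {x | ε * L < |∑ n ∈ range L, Xw b k G n x|}
        · rw [Set.indicator_of_mem hx]; simp
        · rw [Set.indicator_of_notMem hx]; simp)]
    congr 1
    ext x
    have h1 : x ∈ Dv b k G s L (ε * L) ↔
        Tb b s x ∈ {x | ε * L < |∑ n ∈ range L, Xw b k G n x|} := by
      unfold Dv
      simp only [Set.mem_ofPred_eq]
      rw [WS_eq]
    by_cases hx : x ∈ Dv b k G s L (ε * L)
    · rw [Set.indicator_of_mem hx, Set.indicator_of_mem (h1.1 hx)]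
      rfl
    · rw [Set.indicator_of_notMem hx, Set.indicator_of_notMem (fun h => hx (h1.2 h))]
  rw [h0]
  set r : ℝ := ε / k ^ 2 with hr
  have hr0 : 0 < r := by positivity
  have hmS : Measurable (fun x => ∑ n ∈ range L, Xw b k G n x) :=
    Finset.measurable_fun_sum _ fun j _ => measurable_Xw _ _ _ _
  have hbd : ∀ x, |∑ n ∈ range L, Xw b k G n x| ≤ L := by
    intro x
    have := abs_sum_Xw_le (b := b) (w := k) (K := 1) (fun c' => ci_le hb k c c') (range L) x
    rwa [card_range, mul_one] at this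
  have hexp : ∀ t : ℝ, |t| = r → ∫ x, exp (t * ∑ n ∈ range L, Xw b k G n x) ∂Leb ≤
      exp (ε / k * √(L : ℝ) + ε ^ 2 * L / (2 * k ^ 2)) := by
    intro t ht
    have h1 := exp_norm (K := 1) hb hk (fun c' => ci_le hb k c c') (ci_sum hb hc) (t * √(L : ℝ))
      L hL
    have h2 : ∀ x, t * √(L : ℝ) * ((∑ n ∈ range L, Xw b k (ci b k c) n x) / √(L : ℝ)) =
        t * ∑ n ∈ range L, Xw b k G n x := by
      intro x
      rw [hG]
      field_simp
    simp only [h2] at h1
    refine h1.trans (le_of_eq ?_)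
    rw [← Real.exp_add]
    congr 1
    rw [abs_mul, ht, abs_of_pos hsL, one_pow, one_mul, mul_one, mul_pow, mul_pow,
      Real.sq_sqrt (by linarith), ← sq_abs t, ht, hr]
    field_simp
  have hint : ∀ t : ℝ, Integrable (fun x => exp (t * ∑ n ∈ range L, Xw b k G n x)) Leb := by
    intro t
    refine integrable_of_bdd (Real.measurable_exp.comp (hmS.const_mul t)) (R := exp (|t| * L))
      fun x => ?_
    rw [abs_of_pos (exp_pos _)]
    apply exp_le_exp.2
    refine (le_abs_self _).trans ?_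
    rw [abs_mul]
    gcongr
    exact hbd x
  have hm : MeasurableSet {x | ε * L < |∑ n ∈ range L, Xw b k G n x|} :=
    measurableSet_lt measurable_const hmS.abs
  have key : ∀ x, ({x | ε * L < |∑ n ∈ range L, Xw b k G n x|} : Set ℝ).indicator (1 : ℝ → ℝ) x ≤
      exp (-(r * (ε * L))) * (exp (r * ∑ n ∈ range L, Xw b k G n x) +
        exp (-r * ∑ n ∈ range L, Xw b k G n x)) := by
    intro x
    by_cases hx : x ∈ {x | ε * L < |∑ n ∈ range L, Xw b k G n x|}
    · rw [Set.indicator_of_mem hx, Pi.one_apply, mul_add, ← Real.exp_add, ← Real.exp_add]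
      rw [Set.mem_ofPred_eq] at hx
      rcases abs_choice (∑ n ∈ range L, Xw b k G n x) with h | h
      · rw [h] at hx
        have h1 : 1 ≤ exp (-(r * (ε * L)) + r * ∑ n ∈ range L, Xw b k G n x) := by
          apply Real.one_le_exp
          nlinarith
        have h2 := exp_pos (-(r * (ε * L)) + -r * ∑ n ∈ range L, Xw b k G n x)
        linarith
      · rw [h] at hx
        have h1 : 1 ≤ exp (-(r * (ε * L)) + -r * ∑ n ∈ range L, Xw b k G n x) := by
          apply Real.one_le_exp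
          nlinarith
        have h2 := exp_pos (-(r * (ε * L)) + r * ∑ n ∈ range L, Xw b k G n x)
        linarith
    · rw [Set.indicator_of_notMem hx]
      positivity
  rw [← integral_indicator_one hm]
  calc ∫ x, ({x | ε * L < |∑ n ∈ range L, Xw b k G n x|} : Set ℝ).indicator (1 : ℝ → ℝ) x ∂Leb
      ≤ ∫ x, exp (-(r * (ε * L))) * (exp (r * ∑ n ∈ range L, Xw b k G n x) +
        exp (-r * ∑ n ∈ range L, Xw b k G n x)) ∂Leb :=
        integral_mono_of_nonneg (Eventually.of_forall fun x => Set.indicator_nonneg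
          (fun _ _ => zero_le_one) x) (((hint _).add (hint _)).const_mul _)
          (Eventually.of_forall key)
    _ = exp (-(r * (ε * L))) * (∫ x, exp (r * ∑ n ∈ range L, Xw b k G n x) ∂Leb +
        ∫ x, exp (-r * ∑ n ∈ range L, Xw b k G n x) ∂Leb) := by
        rw [MeasureTheory.integral_const_mul, integral_add (hint _) (hint _)]
    _ ≤ exp (-(r * (ε * L))) * (exp (ε / k * √(L : ℝ) + ε ^ 2 * L / (2 * k ^ 2)) +
        exp (ε / k * √(L : ℝ) + ε ^ 2 * L / (2 * k ^ 2))) := by
        gcongr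
        · exact hexp r (abs_of_pos hr0)
        · exact hexp (-r) (by rw [abs_neg, abs_of_pos hr0])
    _ = 2 * exp (ε / k * √(L : ℝ) - ε ^ 2 * L / (2 * k ^ 2)) := by
        rw [← two_mul, mul_left_comm, ← Real.exp_add]
        congr 2
        rw [hr]
        field_simp
        ring

end Pool.Agent.Y933.KD
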