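import Pool.Agent.Y933.KD.Dig

/-!
# The first digits of a random real number are independent of the others (helper933)
-/

set_option autoImplicit false

namespace Pool.Agent.Y933.KD

open Finset Real MeasureTheory Filter Topology

lemma int_Leb (h : ℝ → ℂ) : ∫ x, h x ∂Leb = ∫ x in (0 : ℝ)..1, h x := by
  unfold Leb
  rw [intervalIntegral.integral_of_le zero_le_one, integral_Ico_eq_integral_Ioo,
    ← integral_Ioc_eq_integral_Ioo]

lemma int_Leb_congr {h h' : ℝ → ℂ} (hh : ∀ x ∈ Set.Ico (0 : ℝ) 1, h x = h' x) :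
    ∫ x, h x ∂Leb = ∫ x, h' x ∂Leb :=
  setIntegral_congr_fun measurableSet_Ico hh

lemma int_Leb_congr' {h h' : ℝ → ℝ} (hh : ∀ x ∈ Set.Ico (0 : ℝ) 1, h x = h' x) :
    ∫ x, h x ∂Leb = ∫ x, h' x ∂Leb :=
  setIntegral_congr_fun measurableSet_Ico hh

lemma int_renew (q : ℕ) (hq : 1 ≤ q) (f : ℕ → ℂ) (h : ℝ → ℂ) (hm : Measurable h) {C : ℝ}
    (hC : ∀ x, ‖h x‖ ≤ C) :
    ∫ x, f ⌊(q : ℝ) * x⌋₊ * h (Int.fract ((q : ℝ) * x)) ∂Leb =
      ((1 / q) * ∑ c ∈ range q, f c) * ∫ x, h x ∂Leb := by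
  have hq0 : (0 : ℝ) < q := by exact_mod_cast hq
  rw [int_Leb, int_Leb]
  have hmeas : Measurable (fun x : ℝ => f ⌊(q : ℝ) * x⌋₊ * h (Int.fract ((q : ℝ) * x))) :=
    ((measurable_of_countable f).comp (Nat.measurable_floor.comp (measurable_const_mul _))).mul
      (hm.comp (measurable_fract.comp (measurable_const_mul _)))
  -- the pieces
  have hpiece : ∀ c : ℕ, ∫ x in ((c : ℝ) / q)..(((c + 1 : ℕ) : ℝ) / q),
      f ⌊(q : ℝ) * x⌋₊ * h (Int.fract ((q : ℝ) * x)) = (1 / q) * (f c * ∫ x in (0 : ℝ)..1, h x) := by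
    intro c
    have hle : (c : ℝ) / q ≤ ((c + 1 : ℕ) : ℝ) / q := by
      gcongr
      omega
    have h1 : ∫ x in ((c : ℝ) / q)..(((c + 1 : ℕ) : ℝ) / q),
        f ⌊(q : ℝ) * x⌋₊ * h (Int.fract ((q : ℝ) * x)) =
        ∫ x in ((c : ℝ) / q)..(((c + 1 : ℕ) : ℝ) / q), f c * h ((q : ℝ) * x - c) := by
      rw [intervalIntegral.integral_of_le hle, intervalIntegral.integral_of_le hle,
        integral_Ioc_eq_integral_Ioo, integral_Ioc_eq_integral_Ioo]
      refine setIntegral_congr_fun measurableSet_Ioo fun x hx => ?_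
      have h2 : (c : ℝ) < (q : ℝ) * x := by
        have := hx.1
        rw [div_lt_iff₀ hq0] at this
        linarith
      have h3 : (q : ℝ) * x < c + 1 := by
        have := hx.2
        rw [lt_div_iff₀ hq0] at this
        push_cast at this
        linarith
      have h4 : ⌊(q : ℝ) * x⌋₊ = c := by
        rw [Nat.floor_eq_iff (by have : (0 : ℝ) ≤ c := Nat.cast_nonneg c; linarith)]
        exact ⟨h2.le, h3⟩
      have h5 : Int.fract ((q : ℝ) * x) = (q : ℝ) * x - c := by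
        rw [Int.fract_eq_iff]
        refine ⟨by linarith, by linarith, c, ?_⟩
        push_cast
        ring
      rw [h4, h5]
    rw [h1, intervalIntegral.integral_const_mul, intervalIntegral.integral_comp_mul_sub _ hq0.ne']
    have e1 : (q : ℝ) * ((c : ℝ) / q) - c = 0 := by field_simp; ring
    have e2 : (q : ℝ) * (((c + 1 : ℕ) : ℝ) / q) - c = 1 := by push_cast; field_simp; ring
    rw [e1, e2, Complex.real_smul]
    push_cast
    ring
  have hint : ∀ k < q, IntervalIntegrable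
      (fun x : ℝ => f ⌊(q : ℝ) * x⌋₊ * h (Int.fract ((q : ℝ) * x))) volume
      ((fun c : ℕ => (c : ℝ) / q) k) ((fun c : ℕ => (c : ℝ) / q) (k + 1)) := by
    intro k hk
    have hle : (k : ℝ) / q ≤ ((k + 1 : ℕ) : ℝ) / q := by
      gcongr
      omega
    simp only
    rw [intervalIntegrable_iff_integrableOn_Ioc_of_le hle]
    refine Measure.integrableOn_of_bounded (M := (∑ c ∈ range (q + 1), ‖f c‖) * C) (by simp)
      hmeas.aestronglyMeasurable ?_
    rw [ae_restrict_iff' measurableSet_Ioc]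
    refine Eventually.of_forall fun x hx => ?_
    rw [norm_mul]
    have h6 : ⌊(q : ℝ) * x⌋₊ ∈ range (q + 1) := by
      rw [mem_range, Nat.lt_succ_iff]
      refine Nat.floor_le_of_le ?_
      have := hx.2
      rw [le_div_iff₀ hq0] at this
      have h7 : ((k + 1 : ℕ) : ℝ) ≤ q := by exact_mod_cast hk
      linarith
    have h8 : ‖f ⌊(q : ℝ) * x⌋₊‖ ≤ ∑ c ∈ range (q + 1), ‖f c‖ :=
      single_le_sum (f := fun c => ‖f c‖) (fun i _ => norm_nonneg _) h6
    exact mul_le_mul h8 (hC _) (norm_nonneg _) (sum_nonneg fun _ _ => norm_nonneg _)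
  have hsum := intervalIntegral.sum_integral_adjacent_intervals (μ := volume)
    (a := fun c : ℕ => (c : ℝ) / q) (n := q)
    (f := fun x : ℝ => f ⌊(q : ℝ) * x⌋₊ * h (Int.fract ((q : ℝ) * x))) hint
  simp only [Nat.cast_zero, zero_div] at hsum
  rw [div_self hq0.ne'] at hsum
  rw [← hsum, sum_congr rfl fun c _ => hpiece c, ← mul_sum, ← sum_mul]
  ring

/-- the digits after the first `p` ones -/
noncomputable def Tb (b p : ℕ) (x : ℝ) : ℝ := Int.fract ((b : ℝ) ^ p * x)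

lemma measurable_Tb (b p : ℕ) : Measurable (Tb b p) :=
  measurable_fract.comp (measurable_const_mul _)

lemma Tb_mem (b p : ℕ) (x : ℝ) : Tb b p x ∈ Set.Ico (0 : ℝ) 1 :=
  ⟨Int.fract_nonneg _, Int.fract_lt_one _⟩

/-- dependence on the first `p` digits -/
def Dep {α : Type*} (b p : ℕ) (A : ℝ → α) : Prop :=
  ∃ A₀ : ℕ → α, ∀ x ∈ Set.Ico (0 : ℝ) 1, A x = A₀ ⌊(b : ℝ) ^ p * x⌋₊

lemma Dep.comp {α β : Type*} {b p : ℕ} {A : ℝ → α} (hA : Dep b p A) (g : α → β) :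
    Dep b p (fun x => g (A x)) := by
  obtain ⟨A₀, hA₀⟩ := hA
  exact ⟨fun c => g (A₀ c), fun x hx => congrArg g (hA₀ x hx)⟩

lemma Dep.comp₂ {α β γ : Type*} {b p : ℕ} {A : ℝ → α} {B : ℝ → β} (hA : Dep b p A)
    (hB : Dep b p B) (g : α → β → γ) : Dep b p (fun x => g (A x) (B x)) := by
  obtain ⟨A₀, hA₀⟩ := hA
  obtain ⟨B₀, hB₀⟩ := hB
  exact ⟨fun c => g (A₀ c) (B₀ c), fun x hx => congrArg₂ g (hA₀ x hx) (hB₀ x hx)⟩

lemma Dep.sum {ι : Type*} {b p : ℕ} (s : Finset ι) (A : ι → ℝ → ℝ) (hA : ∀ i ∈ s, Dep b p (A i)) :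
    Dep b p (fun x => ∑ i ∈ s, A i x) := by
  classical
  induction s using Finset.induction_on with
  | empty => exact ⟨fun _ => 0, fun x _ => by simp⟩
  | insert a s ha ih =>
    simp only [sum_insert ha]
    exact (hA a (mem_insert_self _ _)).comp₂ (ih fun i hi => hA i (mem_insert_of_mem hi))
      (fun u v => u + v)

/-- **renewal** -/
lemma renewal {b p : ℕ} (hb : 1 ≤ b) {A h : ℝ → ℂ} (hA : Dep b p A) (hm : Measurable h) {C : ℝ}
    (hC : ∀ x, ‖h x‖ ≤ C) :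
    ∫ x, A x * h (Tb b p x) ∂Leb = (∫ x, A x ∂Leb) * ∫ x, h x ∂Leb := by
  obtain ⟨A₀, hA₀⟩ := hA
  have hq : 1 ≤ b ^ p := Nat.one_le_pow _ _ hb
  have h1 := int_renew (b ^ p) hq A₀ h hm hC
  have h2 := int_renew (b ^ p) hq A₀ (fun _ => 1) measurable_const (C := 1) (by simp)
  rw [show (fun _ : ℝ => (1 : ℂ)) = fun _ => 1 from rfl] at h2
  simp only [mul_one, integral_const, probReal_univ, one_smul] at h2
  have h3 : ∫ x, A x * h (Tb b p x) ∂Leb =
      ∫ x, A₀ ⌊((b ^ p : ℕ) : ℝ) * x⌋₊ * h (Int.fract (((b ^ p : ℕ) : ℝ) * x)) ∂Leb := by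
    refine int_Leb_congr fun x hx => ?_
    rw [hA₀ x hx]
    unfold Tb
    push_cast
    rfl
  have h4 : ∫ x, A x ∂Leb = ∫ x, A₀ ⌊((b ^ p : ℕ) : ℝ) * x⌋₊ ∂Leb := by
    refine int_Leb_congr fun x hx => ?_
    rw [hA₀ x hx]
    push_cast
    rfl
  rw [h3, h4, h1, h2]

lemma invariance {b p : ℕ} (hb : 1 ≤ b) {h : ℝ → ℂ} (hm : Measurable h) {C : ℝ}
    (hC : ∀ x, ‖h x‖ ≤ C) : ∫ x, h (Tb b p x) ∂Leb = ∫ x, h x ∂Leb := by
  have := renewal (b := b) (p := p) hb (A := fun _ => 1) ⟨fun _ => 1, fun _ _ => rfl⟩ hm hC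
  simpa using this

/-- real form of the renewal property -/
lemma renewal_real {b p : ℕ} (hb : 1 ≤ b) {A h : ℝ → ℝ} (hA : Dep b p A) (hm : Measurable h) {C : ℝ}
    (hC : ∀ x, |h x| ≤ C) :
    ∫ x, A x * h (Tb b p x) ∂Leb = (∫ x, A x ∂Leb) * ∫ x, h x ∂Leb := by
  have h1 := renewal hb (A := fun x => (A x : ℂ)) (h := fun x => (h x : ℂ))
    (hA.comp (fun r : ℝ => (r : ℂ))) (Complex.measurable_ofReal.comp hm) (C := C)
    (fun x => by rw [Complex.norm_real, Real.norm_eq_abs]; exact hC x)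
  have h2 : ∫ x, (A x : ℂ) * (h (Tb b p x) : ℂ) ∂Leb =
      ((∫ x, A x * h (Tb b p x) ∂Leb : ℝ) : ℂ) := by
    rw [← integral_complex_ofReal]
    push_cast
    rfl
  rw [h2, integral_complex_ofReal, integral_complex_ofReal] at h1
  exact_mod_cast h1

lemma invariance_real {b p : ℕ} (hb : 1 ≤ b) {h : ℝ → ℝ} (hm : Measurable h) {C : ℝ}
    (hC : ∀ x, |h x| ≤ C) : ∫ x, h (Tb b p x) ∂Leb = ∫ x, h x ∂Leb := by
  have := renewal_real (b := b) (p := p) hb (A := fun _ => 1) ⟨fun _ => 1, fun _ _ => rfl⟩ hm hC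
  simpa using this

lemma Tb_add (b p n : ℕ) (x : ℝ) : Tb b (p + n) x = Tb b n (Tb b p x) := by
  unfold Tb
  have h1 : (b : ℝ) ^ (p + n) * x = (b : ℝ) ^ n * Int.fract ((b : ℝ) ^ p * x) +
      (((b : ℤ) ^ n * ⌊(b : ℝ) ^ p * x⌋ : ℤ) : ℝ) := by
    rw [pow_add]
    have := Int.fract_add_floor ((b : ℝ) ^ p * x)
    push_cast
    linear_combination (-(b : ℝ) ^ n) * this
  rw [h1, Int.fract_add_intCast]

lemma wd_add (b w p n : ℕ) (x : ℝ) : wd b w (p + n) x = wd b w n (Tb b p x) := by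
  have := Tb_add b p n x
  unfold Tb at this
  unfold wd Tb
  rw [this]

/-- products over blocks -/
lemma block_prod {b p : ℕ} (hb : 1 ≤ b) {A : ℝ → ℂ} (hA : Dep b p A) (hm : Measurable A) {C : ℝ}
    (hC : ∀ x, ‖A x‖ ≤ C) (J : ℕ) :
    ∫ x, ∏ j ∈ range J, A (Tb b (p * j) x) ∂Leb = (∫ x, A x ∂Leb) ^ J := by
  have hC0 : 0 ≤ C := (norm_nonneg _).trans (hC 0)
  induction J with
  | zero => simp
  | succ J ih =>
    have h1 : ∫ x, ∏ j ∈ range (J + 1), A (Tb b (p * j) x) ∂Leb =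
        ∫ x, A x * (fun y => ∏ j ∈ range J, A (Tb b (p * j) y)) (Tb b p x) ∂Leb := by
      refine int_Leb_congr fun x hx => ?_
      rw [prod_range_succ', mul_comm]
      congr 1
      · congr 1
        unfold Tb
        rw [mul_zero, pow_zero, one_mul]
        exact (Int.fract_eq_self).2 hx
      · refine prod_congr rfl fun j _ => ?_
        rw [← Tb_add]
        congr 2
        ring
    rw [h1, renewal hb hA (h := fun y => ∏ j ∈ range J, A (Tb b (p * j) y)) ?_ (C := C ^ J) ?_, ih,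
      pow_succ, mul_comm]
    · exact Finset.measurable_fun_prod _ fun j _ => hm.comp (measurable_Tb _ _)
    · intro x
      rw [norm_prod]
      calc ∏ j ∈ range J, ‖A (Tb b (p * j) x)‖ ≤ ∏ _j ∈ range J, C :=
            prod_le_prod (fun _ _ => norm_nonneg _) fun j _ => hC _
        _ = C ^ J := by rw [prod_const, card_range]

lemma block_prod_real {b p : ℕ} (hb : 1 ≤ b) {A : ℝ → ℝ} (hA : Dep b p A) (hm : Measurable A) {C : ℝ}
    (hC : ∀ x, |A x| ≤ C) (J : ℕ) :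
    ∫ x, ∏ j ∈ range J, A (Tb b (p * j) x) ∂Leb = (∫ x, A x ∂Leb) ^ J := by
  have h1 := block_prod hb (A := fun x => (A x : ℂ)) (hA.comp (fun r : ℝ => (r : ℂ)))
    (Complex.measurable_ofReal.comp hm) (C := C)
    (fun x => by rw [Complex.norm_real, Real.norm_eq_abs]; exact hC x) J
  have h2 : ∫ x, ∏ j ∈ range J, (A (Tb b (p * j) x) : ℂ) ∂Leb =
      ((∫ x, ∏ j ∈ range J, A (Tb b (p * j) x) ∂Leb : ℝ) : ℂ) := by
    rw [← integral_complex_ofReal]
    push_cast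
    rfl
  rw [h2, integral_complex_ofReal] at h1
  exact_mod_cast h1

/-- words and integral parts -/
lemma wd_eq_mod {b : ℕ} (hb : 1 ≤ b) (w n : ℕ) {x : ℝ} (hx : 0 ≤ x) :
    wd b w n x = ⌊(b : ℝ) ^ (n + w) * x⌋₊ % b ^ w := by
  have hb' : (0 : ℝ) < b := by exact_mod_cast hb
  set y := (b : ℝ) ^ n * x with hy
  have hy0 : 0 ≤ y := by positivity
  have h1 : (b : ℝ) ^ (n + w) * x = ((b ^ w : ℕ) : ℝ) * y := by
    rw [hy, pow_add]; push_cast; ring
  have h2 : Int.fract y = y - (⌊y⌋₊ : ℝ) := by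
    rw [Int.fract, natCast_floor_eq_intCast_floor hy0]
  have h3 : (b : ℝ) ^ w * Int.fract y = ((b ^ w : ℕ) : ℝ) * y - ((b ^ w * ⌊y⌋₊ : ℕ) : ℝ) := by
    rw [h2]; push_cast; ring
  have h4 : ⌊y⌋₊ = ⌊((b ^ w : ℕ) : ℝ) * y⌋₊ / b ^ w := by
    rw [← Nat.floor_div_natCast]
    congr 1
    have : ((b ^ w : ℕ) : ℝ) ≠ 0 := by positivity
    field_simp
  unfold wd
  rw [← hy, h3, Nat.floor_sub_natCast, h1, h4]
  exact (Nat.mod_def _ _).symm

lemma dep_wd {b : ℕ} (hb : 1 ≤ b) {w n p : ℕ} (h : n + w ≤ p) : Dep b p (wd b w n) := by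
  refine ⟨fun c => (c / b ^ (p - (n + w))) % b ^ w, fun x hx => ?_⟩
  rw [wd_eq_mod hb w n hx.1]
  congr 1
  rw [← Nat.floor_div_natCast]
  congr 1
  have hb' : (0 : ℝ) < b := by exact_mod_cast hb
  have h1 : (b : ℝ) ^ p = (b : ℝ) ^ (n + w) * (b : ℝ) ^ (p - (n + w)) := by
    rw [← pow_add]
    congr 1
    omega
  push_cast
  rw [h1]
  have : (b : ℝ) ^ (p - (n + w)) ≠ 0 := by positivity
  field_simp

end Pool.Agent.Y933.KD
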