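import Pool.Agent.Y933.KD.Appr

/-!
# Comparison of two probability measures on the line on products of intervals (helper933)
-/

set_option autoImplicit false

namespace Pool.Agent.Y933.KD

open Finset Real MeasureTheory

lemma e_sum {ι : Type*} (s : Finset ι) (a : ι → ℝ) : e (∑ i ∈ s, a i) = ∏ i ∈ s, e (a i) := by
  classical
  induction s using Finset.induction_on with
  | empty => simp [e_zero]
  | insert i s hi ih => rw [sum_insert hi, prod_insert hi, e_add, ih]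

lemma prod_diff {ι : Type*} (s : Finset ι) (a b : ι → ℝ) (ha0 : ∀ i ∈ s, 0 ≤ a i)
    (ha1 : ∀ i ∈ s, a i ≤ 1) (hb0 : ∀ i ∈ s, 0 ≤ b i) (hb1 : ∀ i ∈ s, b i ≤ 1) :
    |∏ i ∈ s, a i - ∏ i ∈ s, b i| ≤ ∑ i ∈ s, |a i - b i| := by
  classical
  induction s using Finset.induction_on with
  | empty => simp
  | insert i s hi ih =>
    rw [prod_insert hi, prod_insert hi, sum_insert hi]
    have h1 := ih (fun j hj => ha0 j (mem_insert_of_mem hj)) (fun j hj => ha1 j (mem_insert_of_mem hj))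
      (fun j hj => hb0 j (mem_insert_of_mem hj)) (fun j hj => hb1 j (mem_insert_of_mem hj))
    have hA0 : 0 ≤ ∏ j ∈ s, a j := prod_nonneg fun j hj => ha0 j (mem_insert_of_mem hj)
    have hA1 : ∏ j ∈ s, a j ≤ 1 := prod_le_one (fun j hj => ha0 j (mem_insert_of_mem hj))
      fun j hj => ha1 j (mem_insert_of_mem hj)
    have hb0i := hb0 i (mem_insert_self _ _)
    have hb1i := hb1 i (mem_insert_self _ _)
    have e1 : a i * ∏ j ∈ s, a j - b i * ∏ j ∈ s, b j =
        (a i - b i) * ∏ j ∈ s, a j + b i * (∏ j ∈ s, a j - ∏ j ∈ s, b j) := by ring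
    rw [e1]
    refine (abs_add_le _ _).trans ?_
    rw [abs_mul, abs_mul, abs_of_nonneg hA0, abs_of_nonneg hb0i]
    have h2 : |a i - b i| * ∏ j ∈ s, a j ≤ |a i - b i| * 1 := by gcongr
    have h3 : b i * |∏ j ∈ s, a j - ∏ j ∈ s, b j| ≤ 1 * |∏ j ∈ s, a j - ∏ j ∈ s, b j| := by gcongr
    linarith

/-- Fourier coefficients -/
noncomputable def hat (P : Measure ℝ) (l : ℤ) : ℂ := ∫ x, e (l * x) ∂P

lemma integrable_e (P : Measure ℝ) [IsFiniteMeasure P] (a : ℝ) : Integrable (fun x => e (a * x)) P := by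
  refine Integrable.of_bound (C := 1) ?_ ?_
  · exact (continuous_e.comp (by fun_prop)).aestronglyMeasurable
  · exact Filter.Eventually.of_forall fun x => (norm_e _).le

lemma expand {k H : ℕ} (f : Fin k → ℝ → ℝ) (hf : ∀ i, TP H (f i)) (q : Fin k → ℤ) :
    ∃ d : (Fin k → ℤ) → ℂ, (∀ h, ‖d h‖ ≤ 1) ∧ ∀ x : ℝ, ((∏ i, f i (q i * x) : ℝ) : ℂ) =
      ∑ h ∈ Fintype.piFinset (fun _ : Fin k => Finset.Icc (-(H : ℤ)) H),
        d h * e ((∑ i, h i * q i : ℤ) * x) := by
  choose c hc1 hc2 using hf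
  refine ⟨fun h => ∏ i, c i (h i), fun h => ?_, fun x => ?_⟩
  · rw [norm_prod]
    exact prod_le_one (fun i _ => norm_nonneg _) fun i _ => hc1 i _
  · push_cast
    simp only [hc2]
    rw [prod_univ_sum]
    refine sum_congr rfl fun h _ => ?_
    rw [prod_mul_distrib, ← e_sum]
    congr 2
    rw [sum_mul]
    refine sum_congr rfl fun i _ => ?_
    ring

lemma diff_tp {k H : ℕ} (P Q : Measure ℝ) [IsProbabilityMeasure P] [IsProbabilityMeasure Q]
    (f : Fin k → ℝ → ℝ) (hf : ∀ i, TP H (f i)) (q : Fin k → ℤ) (Δ : ℝ)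
    (hΔ : ∀ h : Fin k → ℤ, (∀ i, |h i| ≤ H) →
      ‖hat P (∑ i, h i * q i) - hat Q (∑ i, h i * q i)‖ ≤ Δ) :
    |∫ x, ∏ i, f i (q i * x) ∂P - ∫ x, ∏ i, f i (q i * x) ∂Q| ≤ (2 * H + 1) ^ k * Δ := by
  obtain ⟨d, hd1, hd2⟩ := expand f hf q
  have key : ∀ (P : Measure ℝ) [IsProbabilityMeasure P],
      ((∫ x, ∏ i, f i (q i * x) ∂P : ℝ) : ℂ) =
      ∑ h ∈ Fintype.piFinset (fun _ : Fin k => Finset.Icc (-(H : ℤ)) H),
        d h * hat P (∑ i, h i * q i) := by
    intro P _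
    rw [← integral_complex_ofReal]
    have h1 : (fun x : ℝ => ((∏ i, f i (q i * x) : ℝ) : ℂ)) = fun x =>
        ∑ h ∈ Fintype.piFinset (fun _ : Fin k => Finset.Icc (-(H : ℤ)) H),
        d h * e ((∑ i, h i * q i : ℤ) * x) := funext hd2
    rw [h1, integral_finsetSum _ fun h _ => (integrable_e P _).const_mul _]
    refine sum_congr rfl fun h _ => ?_
    rw [integral_const_mul]
    rfl
  have h2 : (((∫ x, ∏ i, f i (q i * x) ∂P - ∫ x, ∏ i, f i (q i * x) ∂Q : ℝ)) : ℂ) =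
      ∑ h ∈ Fintype.piFinset (fun _ : Fin k => Finset.Icc (-(H : ℤ)) H),
        d h * (hat P (∑ i, h i * q i) - hat Q (∑ i, h i * q i)) := by
    push_cast
    rw [key P, key Q, ← sum_sub_distrib]
    refine sum_congr rfl fun h _ => ?_
    ring
  have h3 : |∫ x, ∏ i, f i (q i * x) ∂P - ∫ x, ∏ i, f i (q i * x) ∂Q| =
      ‖(((∫ x, ∏ i, f i (q i * x) ∂P - ∫ x, ∏ i, f i (q i * x) ∂Q : ℝ)) : ℂ)‖ := by
    rw [Complex.norm_real, Real.norm_eq_abs]
  rw [h3, h2]
  have hΔ0 : 0 ≤ Δ := (norm_nonneg _).trans (hΔ 0 (by simp))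
  refine (norm_sum_le _ _).trans ?_
  have h4 : ∀ h ∈ Fintype.piFinset (fun _ : Fin k => Finset.Icc (-(H : ℤ)) H),
      ‖d h * (hat P (∑ i, h i * q i) - hat Q (∑ i, h i * q i))‖ ≤ Δ := by
    intro h hh
    rw [Fintype.mem_piFinset] at hh
    rw [norm_mul]
    calc ‖d h‖ * _ ≤ 1 * Δ := by
          gcongr
          · exact hd1 h
          · exact hΔ h fun i => abs_le.2 (Finset.mem_Icc.1 (hh i))
      _ = Δ := one_mul _
  refine (sum_le_sum h4).trans ?_
  rw [sum_const, nsmul_eq_mul, Fintype.card_piFinset]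
  simp only [Int.card_Icc, prod_const, card_univ, Fintype.card_fin]
  have h5 : ((H : ℤ) + 1 - -(H : ℤ)).toNat = 2 * H + 1 := by omega
  rw [h5]
  push_cast
  exact le_rfl

/-- the integral of the Fejer kernel -/
lemma int_F {K : ℕ} (hK : 0 < K) (Q : Measure ℝ) [IsProbabilityMeasure Q] (q : ℤ) (u Δ : ℝ)
    (hQ : ∀ h : ℤ, h ≠ 0 → |h| ≤ K → ‖hat Q (h * q)‖ ≤ Δ) :
    |∫ x, F K (q * x - u) ∂Q - 1| ≤ K * Δ := by
  classical
  have hKR : (0 : ℝ) < K := by exact_mod_cast hK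
  have hKC : (K : ℂ) ≠ 0 := by exact_mod_cast hK.ne'
  have h1 : ((∫ x, F K (q * x - u) ∂Q : ℝ) : ℂ) = (1 / K) * ∑ p ∈ range K ×ˢ range K,
      e (-((((p.1 : ℤ) - (p.2 : ℤ) : ℤ) : ℝ) * u)) * hat Q (((p.1 : ℤ) - (p.2 : ℤ)) * q) := by
    rw [← integral_complex_ofReal]
    simp only [F_expand]
    rw [integral_const_mul, integral_finsetSum]
    · congr 1
      refine sum_congr rfl fun p _ => ?_
      unfold hat
      rw [← integral_const_mul]
      congr 1
      funext x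
      rw [← e_add]
      congr 1
      push_cast
      ring
    · intro p _
      have : (fun x : ℝ => e (((p.1 : ℤ) - (p.2 : ℤ) : ℤ) * (q * x - u))) =
          fun x => e (-((((p.1 : ℤ) - (p.2 : ℤ) : ℤ) : ℝ) * u)) *
            e (((((p.1 : ℤ) - (p.2 : ℤ) : ℤ) : ℝ) * q) * x) := by
        funext x
        rw [← e_add]
        congr 1
        ring
      rw [this]
      exact (integrable_e Q _).const_mul _
  have h0 : hat Q 0 = 1 := by simp [hat, e_zero]
  have h2 : ((∫ x, F K (q * x - u) ∂Q - 1 : ℝ) : ℂ) = (1 / K) *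
      ∑ p ∈ (range K ×ˢ range K).filter (fun p => p.1 ≠ p.2),
      e (-((((p.1 : ℤ) - (p.2 : ℤ) : ℤ) : ℝ) * u)) * hat Q (((p.1 : ℤ) - (p.2 : ℤ)) * q) := by
    rw [Complex.ofReal_sub, Complex.ofReal_one, h1,
      ← sum_filter_add_sum_filter_not (range K ×ˢ range K) (fun p => p.1 ≠ p.2), mul_add]
    have h3 : ∑ p ∈ (range K ×ˢ range K).filter (fun p => ¬ (p.1 ≠ p.2)),
        e (-((((p.1 : ℤ) - (p.2 : ℤ) : ℤ) : ℝ) * u)) * hat Q (((p.1 : ℤ) - (p.2 : ℤ)) * q) = K := by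
      have h4 : ∀ p ∈ (range K ×ˢ range K).filter (fun p => ¬ (p.1 ≠ p.2)),
          e (-((((p.1 : ℤ) - (p.2 : ℤ) : ℤ) : ℝ) * u)) * hat Q (((p.1 : ℤ) - (p.2 : ℤ)) * q) = 1 := by
        intro p hp
        rw [mem_filter, not_not] at hp
        rw [hp.2, sub_self, zero_mul, h0]
        simp [e_zero]
      rw [sum_congr rfl h4, sum_const, nsmul_eq_mul, mul_one]
      have h5 : ((range K ×ˢ range K).filter (fun p => ¬ (p.1 ≠ p.2))) =
          (range K).image (fun i => (i, i)) := by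
        ext p
        simp only [ne_eq, not_not, mem_filter, mem_product, mem_range, mem_image]
        constructor
        · rintro ⟨⟨h, _⟩, h'⟩
          exact ⟨p.1, h, Prod.ext rfl h'⟩
        · rintro ⟨i, hi, rfl⟩
          exact ⟨⟨hi, hi⟩, rfl⟩
      rw [h5, card_image_of_injective _ (fun i j h => (Prod.mk.inj h).1), card_range]
    rw [h3]
    have h6 : (1 / (K : ℂ)) * K = 1 := by field_simp
    rw [h6]
    ring
  have h3 : |∫ x, F K (q * x - u) ∂Q - 1| = ‖((∫ x, F K (q * x - u) ∂Q - 1 : ℝ) : ℂ)‖ := by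
    rw [Complex.norm_real, Real.norm_eq_abs]
  rw [h3, h2, norm_mul]
  have h4 : ‖(1 / (K : ℂ))‖ = 1 / K := by simp
  rw [h4]
  by_cases hne : ((range K ×ˢ range K).filter (fun p => p.1 ≠ p.2)).Nonempty
  · obtain ⟨p0, hp0⟩ := hne
    have hp0' := hp0
    rw [mem_filter, mem_product, mem_range, mem_range] at hp0'
    have hΔ0 : 0 ≤ Δ := (norm_nonneg _).trans (hQ ((p0.1 : ℤ) - p0.2)
      (by intro h; apply hp0'.2; omega) (by rw [abs_le]; omega))
    have h5 : ‖∑ p ∈ (range K ×ˢ range K).filter (fun p => p.1 ≠ p.2),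
        e (-((((p.1 : ℤ) - (p.2 : ℤ) : ℤ) : ℝ) * u)) * hat Q (((p.1 : ℤ) - (p.2 : ℤ)) * q)‖ ≤
        K * K * Δ := by
      refine (norm_sum_le _ _).trans ?_
      have h6 : ∀ p ∈ (range K ×ˢ range K).filter (fun p => p.1 ≠ p.2),
          ‖e (-((((p.1 : ℤ) - (p.2 : ℤ) : ℤ) : ℝ) * u)) *
            hat Q (((p.1 : ℤ) - (p.2 : ℤ)) * q)‖ ≤ Δ := by
        intro p hp
        rw [mem_filter, mem_product, mem_range, mem_range] at hp
        rw [norm_mul, norm_e, one_mul]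
        exact hQ _ (by intro h; apply hp.2; omega) (by rw [abs_le]; omega)
      refine (sum_le_sum h6).trans ?_
      rw [sum_const, nsmul_eq_mul]
      have h7 : (((range K ×ˢ range K).filter (fun p => p.1 ≠ p.2)).card : ℝ) ≤ K * K := by
        have := card_filter_le (range K ×ˢ range K) (fun p => p.1 ≠ p.2)
        rw [card_product, card_range] at this
        exact_mod_cast this
      gcongr
    calc 1 / (K : ℝ) * _ ≤ 1 / (K : ℝ) * (K * K * Δ) := by gcongr
      _ = K * Δ := by field_simp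
  · rw [not_nonempty_iff_eq_empty] at hne
    rw [hne, sum_empty, norm_zero, mul_zero]
    -- `K = 1` here
    by_contra hcon
    have hK1 : K = 1 := by
      by_contra hK1
      have : ((0 : ℕ), (1 : ℕ)) ∈ (range K ×ˢ range K).filter (fun p => p.1 ≠ p.2) := by
        rw [mem_filter, mem_product, mem_range, mem_range]
        exact ⟨⟨hK, by omega⟩, by simp⟩
      rw [hne] at this
      exact absurd this (Finset.notMem_empty _)
    subst hK1
    have h5 := hQ 1 one_ne_zero (by simp)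
    have := norm_nonneg (hat Q (1 * q))
    apply hcon
    push_cast
    linarith

lemma integrable_F (K : ℕ) (P : Measure ℝ) [IsFiniteMeasure P] (q : ℤ) (u : ℝ) :
    Integrable (fun x => F K (q * x - u)) P := by
  obtain ⟨c, hc1, hc2⟩ := TP_F (le_refl K) u
  have hc : Continuous (fun x => F K (q * x - u)) :=
    (TP_F (le_refl K) u).cont.comp (by fun_prop : Continuous fun x : ℝ => (q : ℝ) * x)
  refine Integrable.of_bound (C := K) hc.aestronglyMeasurable (Filter.Eventually.of_forall fun x => ?_)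
  rw [Real.norm_eq_abs, abs_of_nonneg (F_nonneg _ _)]
  unfold F
  have h1 : ‖D K (q * x - u)‖ ≤ K := by
    unfold D
    refine (norm_sum_le _ _).trans ?_
    simp [norm_e]
  rcases Nat.eq_zero_or_pos K with rfl | hK
  · simp
  · have hKR : (0 : ℝ) < K := by exact_mod_cast hK
    calc 1 / (K : ℝ) * ‖D K (q * x - u)‖ ^ 2 ≤ 1 / (K : ℝ) * (K : ℝ) ^ 2 := by gcongr
      _ = (K : ℝ) := by field_simp

lemma measurable_ind (u v : ℝ) : Measurable (ind u v) := by
  unfold ind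
  refine Measurable.ite ?_ measurable_const measurable_const
  exact (measurableSet_le measurable_const measurable_fract).inter
    (measurableSet_lt measurable_fract measurable_const)

/-- the error of the approximation, for one measure -/
lemma approx_one {k K R : ℕ} (hK : 0 < K) (hR : 0 < R) (P : Measure ℝ) [IsProbabilityMeasure P]
    (q : Fin k → ℤ) (u v : Fin k → ℝ) (hu : ∀ i, 0 ≤ u i) (hv : ∀ i, v i ≤ 1) (Δ : ℝ)
    (hP : ∀ i, ∀ h : ℤ, h ≠ 0 → |h| ≤ K → ‖hat P (h * q i)‖ ≤ Δ) :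
    |∫ x, ∏ i, ind (u i) (v i) (q i * x) ∂P - ∫ x, ∏ i, g R (u i) (v i) (q i * x) ∂P| ≤
      k * ((K : ℝ) ^ 2 / R + π ^ 2 / (2 * K) * (1 + K * Δ)) := by
  have hKR : (0 : ℝ) < K := by exact_mod_cast hK
  have hi1 : Integrable (fun x => ∏ i, ind (u i) (v i) (q i * x)) P := by
    refine Integrable.of_bound (C := 1) ?_ (Filter.Eventually.of_forall fun x => ?_)
    · refine Measurable.aestronglyMeasurable ?_
      exact Finset.measurable_prod _ fun i _ => (measurable_ind _ _).comp (by fun_prop)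
    · rw [Real.norm_eq_abs, abs_of_nonneg (prod_nonneg fun i _ => ind_nonneg _ _ _)]
      exact prod_le_one (fun i _ => ind_nonneg _ _ _) fun i _ => ind_le_one _ _ _
  have hi2 : Integrable (fun x => ∏ i, g R (u i) (v i) (q i * x)) P := by
    refine Integrable.of_bound (C := 1) ?_ (Filter.Eventually.of_forall fun x => ?_)
    · refine Continuous.aestronglyMeasurable ?_
      exact continuous_finsetProd _ fun i _ => (TP_g R (u i) (v i)).cont.comp (by fun_prop)
    · rw [Real.norm_eq_abs, abs_of_nonneg (prod_nonneg fun i _ => g_nonneg _ _ _ _)]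
      exact prod_le_one (fun i _ => g_nonneg _ _ _ _) fun i _ => g_le_one hR _ _ _
  have hiw : ∀ i, Integrable (fun x => w K R (u i) (v i) (q i * x)) P := by
    intro i
    unfold w
    exact (integrable_const _).add
      (((integrable_F K P (q i) (u i)).add (integrable_F K P (q i) (v i))).const_mul _)
  rw [← integral_sub hi1 hi2]
  have h1 : |∫ x, (∏ i, ind (u i) (v i) (q i * x) - ∏ i, g R (u i) (v i) (q i * x)) ∂P| ≤
      ∫ x, ∑ i, w K R (u i) (v i) (q i * x) ∂P := by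
    refine (abs_integral_le_integral_abs).trans ?_
    refine integral_mono (hi1.sub hi2).abs (integrable_finsetSum _ fun i _ => hiw i) fun x => ?_
    refine (prod_diff _ _ _ (fun i _ => ind_nonneg _ _ _) (fun i _ => ind_le_one _ _ _)
      (fun i _ => g_nonneg _ _ _ _) (fun i _ => g_le_one hR _ _ _)).trans ?_
    exact sum_le_sum fun i _ => appr hK hR (hu i) (hv i) _
  refine h1.trans ?_
  rw [integral_finsetSum _ fun i _ => hiw i]
  have h2 : ∀ i ∈ (univ : Finset (Fin k)), ∫ x, w K R (u i) (v i) (q i * x) ∂P ≤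
      (K : ℝ) ^ 2 / R + π ^ 2 / (2 * K) * (1 + K * Δ) := by
    intro i _
    have h0 : ∫ x, w K R (u i) (v i) (q i * x) ∂P = (K : ℝ) ^ 2 / R + π ^ 2 / (4 * K) *
        (∫ x, F K (q i * x - u i) ∂P + ∫ x, F K (q i * x - v i) ∂P) := by
      have e1 : ∫ x, w K R (u i) (v i) (q i * x) ∂P = ∫ x, (K : ℝ) ^ 2 / R ∂P +
          ∫ x, π ^ 2 / (4 * K) * (F K (q i * x - u i) + F K (q i * x - v i)) ∂P :=
        integral_add (integrable_const _)
          (((integrable_F K P (q i) (u i)).add (integrable_F K P (q i) (v i))).const_mul _)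
      have e2 : ∫ x, (F K (q i * x - u i) + F K (q i * x - v i)) ∂P =
          ∫ x, F K (q i * x - u i) ∂P + ∫ x, F K (q i * x - v i) ∂P :=
        integral_add (integrable_F K P (q i) (u i)) (integrable_F K P (q i) (v i))
      rw [e1, integral_const_mul, e2, integral_const]
      simp
    rw [h0]
    have h3 := int_F hK P (q i) (u i) Δ (hP i)
    have h4 := int_F hK P (q i) (v i) Δ (hP i)
    rw [abs_le] at h3 h4
    have h5 : ∫ x, F K (q i * x - u i) ∂P + ∫ x, F K (q i * x - v i) ∂P ≤ 2 * (1 + K * Δ) := by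
      linarith [h3.2, h4.2]
    have h6 : π ^ 2 / (4 * K) * (∫ x, F K (q i * x - u i) ∂P + ∫ x, F K (q i * x - v i) ∂P) ≤
        π ^ 2 / (4 * K) * (2 * (1 + K * Δ)) := by gcongr
    have h7 : π ^ 2 / (4 * K) * (2 * (1 + K * Δ)) = π ^ 2 / (2 * K) * (1 + K * Δ) := by
      field_simp; ring
    linarith
  refine (sum_le_sum h2).trans ?_
  rw [sum_const, card_univ, Fintype.card_fin, nsmul_eq_mul]

/-- **Comparison**: `Q` has vanishing Fourier coefficients -/
theorem test {k K : ℕ} (hK : 0 < K) (P Q : Measure ℝ) [IsProbabilityMeasure P]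
    [IsProbabilityMeasure Q] (hQ : ∀ l : ℤ, l ≠ 0 → hat Q l = 0)
    (q : Fin k → ℤ) (hq : ∀ i, q i ≠ 0) (Δ : ℝ)
    (hΔ : ∀ h : Fin k → ℤ, (∀ i, |h i| ≤ (K : ℤ) ^ 3) → ∑ i, h i * q i ≠ 0 →
      ‖hat P (∑ i, h i * q i)‖ ≤ Δ) (hΔ0 : 0 ≤ Δ)
    (u v : Fin k → ℝ) (hu : ∀ i, 0 ≤ u i) (hv : ∀ i, v i ≤ 1) :
    |∫ x, ∏ i, ind (u i) (v i) (q i * x) ∂P - ∫ x, ∏ i, ind (u i) (v i) (q i * x) ∂Q| ≤
      (2 * (K : ℝ) ^ 3 + 1) ^ k * Δ + k * (12 / K + 5 * Δ) := by
  classical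
  have hKR : (0 : ℝ) < K := by exact_mod_cast hK
  have hR : 0 < K ^ 3 := by positivity
  have hP1 : ∀ i, ∀ h : ℤ, h ≠ 0 → |h| ≤ K → ‖hat P (h * q i)‖ ≤ Δ := by
    intro i h hh hhK
    have h1 : ∑ j, (if j = i then h else 0) * q j = h * q i := by
      rw [sum_eq_single i]
      · rw [if_pos rfl]
      · intro j _ hj
        rw [if_neg hj, zero_mul]
      · intro hi
        exact absurd (mem_univ i) hi
    rw [← h1]
    refine hΔ _ (fun j => ?_) ?_
    · have hK1 : (K : ℤ) ≤ (K : ℤ) ^ 3 := by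
        have : (1 : ℤ) ≤ K := by exact_mod_cast hK
        calc (K : ℤ) = K ^ 1 := (pow_one _).symm
          _ ≤ (K : ℤ) ^ 3 := pow_le_pow_right₀ this (by norm_num)
      by_cases hj : j = i
      · rw [if_pos hj]; exact hhK.trans hK1
      · rw [if_neg hj, abs_zero]; positivity
    · rw [h1]; exact mul_ne_zero hh (hq i)
  have a1 := approx_one hK hR P q u v hu hv Δ hP1
  have a2 := approx_one hK hR Q q u v hu hv 0 (fun i h hh _ => by
    rw [hQ _ (mul_ne_zero hh (hq i)), norm_zero])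
  have a3 := diff_tp P Q (fun i => g (K ^ 3) (u i) (v i)) (fun i => TP_g (K ^ 3) (u i) (v i)) q Δ
    (by
      intro h hh
      by_cases h0 : ∑ i, h i * q i = 0
      · rw [h0]
        have e1 : hat P 0 = 1 := by simp [hat, e_zero]
        have e2 : hat Q 0 = 1 := by simp [hat, e_zero]
        rw [e1, e2, sub_self, norm_zero]
        exact hΔ0
      · rw [hQ _ h0, sub_zero]
        exact hΔ h (fun i => by have := hh i; push_cast at this; exact this) h0)
  have hpi : π ^ 2 ≤ 10 := by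
    have := pi_lt_d2
    nlinarith [pi_pos]
  have b1 : ((K : ℝ) ^ 2 / ((K ^ 3 : ℕ) : ℝ)) = 1 / K := by
    push_cast
    field_simp
  rw [b1] at a1 a2
  have b2 : π ^ 2 / (2 * K) * (1 + K * Δ) ≤ 5 / K + 5 * Δ := by
    have : π ^ 2 / (2 * K) * (1 + K * Δ) = π ^ 2 / 2 * (1 / K) + π ^ 2 / 2 * Δ := by
      field_simp
    rw [this]
    have c1 : π ^ 2 / 2 * (1 / K) ≤ 5 * (1 / K) := by gcongr; linarith
    have c2 : π ^ 2 / 2 * Δ ≤ 5 * Δ := by gcongr; linarith
    calc π ^ 2 / 2 * (1 / K) + π ^ 2 / 2 * Δ ≤ 5 * (1 / K) + 5 * Δ := add_le_add c1 c2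
      _ = 5 / K + 5 * Δ := by ring
  have b3 : π ^ 2 / (2 * K) * (1 + K * 0) ≤ 5 / K := by
    have : π ^ 2 / (2 * K) * (1 + K * 0) = π ^ 2 / 2 * (1 / K) := by field_simp; ring
    rw [this]
    have c1 : π ^ 2 / 2 * (1 / K) ≤ 5 * (1 / K) := by gcongr; linarith
    calc π ^ 2 / 2 * (1 / K) ≤ 5 * (1 / K) := c1
      _ = 5 / K := by ring
  have hk : (0 : ℝ) ≤ k := Nat.cast_nonneg k
  have c1 : (k : ℝ) * (1 / K + π ^ 2 / (2 * K) * (1 + K * Δ)) ≤ k * (6 / K + 5 * Δ) := by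
    refine mul_le_mul_of_nonneg_left ?_ hk
    calc 1 / (K : ℝ) + π ^ 2 / (2 * K) * (1 + K * Δ) ≤ 1 / K + (5 / K + 5 * Δ) := by gcongr
      _ = 6 / K + 5 * Δ := by ring
  have c2 : (k : ℝ) * (1 / K + π ^ 2 / (2 * K) * (1 + K * 0)) ≤ k * (6 / K) := by
    refine mul_le_mul_of_nonneg_left ?_ hk
    calc 1 / (K : ℝ) + π ^ 2 / (2 * K) * (1 + K * 0) ≤ 1 / K + 5 / K := by gcongr
      _ = 6 / K := by ring
  have c3 : ((2 * ((K ^ 3 : ℕ) : ℝ) + 1) ^ k) = (2 * (K : ℝ) ^ 3 + 1) ^ k := by push_cast; rfl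
  rw [c3] at a3
  have e4 : (k : ℝ) * (12 / K + 5 * Δ) = k * (6 / K + 5 * Δ) + k * (6 / K) := by ring
  rw [abs_le] at a1 a2 a3 ⊢
  constructor <;> linarith [a1.1, a1.2, a2.1, a2.2, a3.1, a3.2]

end Pool.Agent.Y933.KD
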