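import Pool.Agent.TH915.PW.Exp

/-!
# Exponential sums with powers, in short intervals (helper933)
-/

set_option autoImplicit false

namespace Pool.Agent.Y933.KD.VdC

open Finset Real
open Pool.Agent.H469R2.NK (e norm_e e_add norm_sum_neg Av Av_le Cq Cq_pos iterate harm_le)
open Pool.Agent.TH915.PW (Hy SD SD_sq SD_le)

/-- the exponential sum bound, with the gain of the averages over the differences -/
theorem exp_bound {k : ℕ} {A B lo hi : ℝ} {φ : ℕ → ℝ → ℝ} (hlo : 0 < lo) (hhi : 0 ≤ hi) (θ : ℝ)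
    (hθ : 0 < θ) (h : Hy k A B lo hi φ) (u : ℝ) (N L H : ℕ) (hN : 1 ≤ N) (hL : L ≤ N)
    (hu : A ≤ u) (huL : u + L ≤ B) (hH : 1 ≤ H) (hHN : H ≤ N)
    (hup : 2 * (θ * (hi * (H : ℝ) ^ k)) ≤ 1) :
    (‖∑ n ∈ range L, e (θ * φ 0 (u + n))‖ / N) ^ (2 ^ k) ≤
      Cq k * (1 / H + 2 / (θ * lo) / N * ((1 + log H) / H) ^ k) := by
  have hN' : (1 : ℝ) ≤ N := by exact_mod_cast hN
  have hH' : (1 : ℝ) ≤ H := by exact_mod_cast hH
  have hL' : (L : ℝ) ≤ N := by exact_mod_cast hL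
  have hHN' : (H : ℝ) ≤ N := by exact_mod_cast hHN
  have hstep : ∀ ls : List ℕ, (‖SD φ θ u L ls‖ / N) ^ 2 ≤
      2 / H + 4 * ((∑ l ∈ Ico 1 H, ‖SD φ θ u L (l :: ls)‖ / N) / H) := by
    intro ls
    have h := SD_sq φ θ u L H ls
    set Sg := ∑ l ∈ Ico 1 H, ‖SD φ θ u L (l :: ls)‖ with hSg
    have hSg0 : 0 ≤ Sg := sum_nonneg fun _ _ => norm_nonneg _
    have h2 : (H : ℝ) * ‖SD φ θ u L ls‖ ^ 2 ≤ (2 * N) * (N + 2 * Sg) := by
      refine h.trans ?_
      have : (L : ℝ) + H ≤ 2 * N := by linarith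
      gcongr
    rw [← sum_div, ← hSg]
    have e1 : 2 / (H : ℝ) + 4 * (Sg / N / H) = ((2 * N) * (N + 2 * Sg)) / (H * N ^ 2) := by
      field_simp
      ring
    rw [e1, div_pow, div_le_div_iff₀ (by positivity) (by positivity)]
    calc ‖SD φ θ u L ls‖ ^ 2 * (H * N ^ 2) = ((H : ℝ) * ‖SD φ θ u L ls‖ ^ 2) * N ^ 2 := by ring
      _ ≤ _ := by gcongr
  have hit := iterate hH (fun ls => ‖SD φ θ u L ls‖ / N) (fun ls => by positivity) hstep k []
  have hSS : ∑ n ∈ range L, e (θ * φ 0 (u + n)) = SD φ θ u L [] := by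
    unfold SD
    simp only [List.sum_nil, Nat.sub_zero]
    rfl
  rw [hSS]
  refine hit.trans ?_
  have hC := Cq_pos k
  gcongr
  have h1 := Av_le (H := H) (T := fun ls => ‖SD φ θ u L ls‖ / N)
    (κ := 2 / (θ * lo) / N) k (by
      intro ls hlen hent
      have hpos : 0 < ls.prod := List.prod_pos fun l hl => (hent l hl).1
      have hle : ls.prod ≤ H ^ k := by
        have := List.prod_le_pow_card ls H (fun l hl => (hent l hl).2.le)
        rwa [hlen] at this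
      have hle' : ((ls.prod : ℕ) : ℝ) ≤ (H : ℝ) ^ k := by exact_mod_cast hle
      have h1 := SD_le hlo θ hθ h u L hu huL ls hpos hlen (by
        refine le_trans ?_ hup
        gcongr)
      have hP : (0 : ℝ) < (ls.prod : ℕ) := by exact_mod_cast hpos
      calc ‖SD φ θ u L ls‖ / N ≤ (2 / (θ * lo * (ls.prod : ℕ))) / N := by
            gcongr
        _ = _ := by field_simp) k [] (by simp) (by simp)
  have h3 := harm_le H
  have h4 : 0 ≤ 2 / (θ * lo) / (N : ℝ) := by positivity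
  have h5 : 0 ≤ ∑ l ∈ Ico 1 H, (1 : ℝ) / l := sum_nonneg fun _ _ => by positivity
  calc Av H (fun ls => ‖SD φ θ u L ls‖ / N) k [] ≤
        2 / (θ * lo) / N * ((∑ l ∈ Ico 1 H, (1 : ℝ) / l) / H) ^ k / (([] : List ℕ).prod : ℕ) := h1
    _ = 2 / (θ * lo) / N * ((∑ l ∈ Ico 1 H, (1 : ℝ) / l) / H) ^ k := by simp
    _ ≤ 2 / (θ * lo) / N * ((1 + log H) / H) ^ k := by gcongr

/-- the derivatives of `σ t ^ c` -/
noncomputable def pw (σ c : ℝ) (m : ℕ) (t : ℝ) : ℝ :=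
  σ * (∏ j ∈ range m, (c - j)) * t ^ (c - m)

lemma pw_der (σ c : ℝ) (m : ℕ) (t : ℝ) (ht : 0 < t) : HasDerivAt (pw σ c m) (pw σ c (m + 1) t) t := by
  have h1 : HasDerivAt (fun t : ℝ => t ^ (c - m)) ((c - m) * t ^ (c - m - 1)) t :=
    Real.hasDerivAt_rpow_const (Or.inl ht.ne')
  have h2 := h1.const_mul (σ * ∏ j ∈ range m, (c - j))
  have e1 : pw σ c (m + 1) t = σ * (∏ j ∈ range m, (c - j)) * ((c - m) * t ^ (c - m - 1)) := by
    unfold pw
    rw [prod_range_succ]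
    push_cast
    rw [show c - (m + 1 : ℝ) = c - m - 1 by ring]
    ring
  rw [e1]
  exact h2

/-- the coefficient of the derivative of order `K + 1` of `t ^ c` -/
noncomputable def cf (c : ℝ) (K : ℕ) : ℝ := |∏ j ∈ range (K + 1), (c - j)|

lemma cf_pos {c : ℝ} (hc : ∀ m : ℕ, c ≠ m) (K : ℕ) : 0 < cf c K := by
  unfold cf
  rw [abs_pos]
  exact prod_ne_zero_iff.2 fun j _ => sub_ne_zero.2 (hc j)

/-- the sign of the derivative of order `K + 1` of `t ^ c` -/
noncomputable def sg (c : ℝ) (K : ℕ) : ℝ := if 0 ≤ ∏ j ∈ range (K + 1), (c - j) then 1 else -1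

lemma sg_mul (c : ℝ) (K : ℕ) : sg c K * ∏ j ∈ range (K + 1), (c - j) = cf c K := by
  unfold sg cf
  split_ifs with h
  · rw [abs_of_nonneg h, one_mul]
  · rw [abs_of_neg (not_le.1 h)]; ring

lemma hy_pw {c : ℝ} (hc : ∀ m : ℕ, c ≠ m) (K : ℕ) (hK : c < K + 1) {X Y : ℝ} (hX : 0 < X) :
    Hy K X Y (cf c K * Y ^ (c - (K + 1))) (cf c K * X ^ (c - (K + 1))) (pw (sg c K) c) := by
  have hcf := cf_pos hc K
  have e1 : ∀ t : ℝ, pw (sg c K) c (K + 1) t = cf c K * t ^ (c - (K + 1)) := by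
    intro t
    unfold pw
    rw [sg_mul]
    push_cast
    rfl
  constructor
  · intro m _ t ht
    exact pw_der _ _ _ _ (hX.trans_le ht.1)
  · intro t ht
    rw [e1]
    apply mul_le_mul_of_nonneg_left _ hcf.le
    exact Real.rpow_le_rpow_of_nonpos (hX.trans_le ht.1) ht.2 (by linarith)
  · intro t ht
    rw [e1]
    apply mul_le_mul_of_nonneg_left _ hcf.le
    exact Real.rpow_le_rpow_of_nonpos hX ht.1 (by linarith)
  · intro t ht
    have ht0 : 0 < t := hX.trans_le ht.1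
    have e2 : pw (sg c K) c (K + 2) t = cf c K * (c - ((K + 1 : ℕ) : ℝ)) * t ^ (c - ((K + 2 : ℕ) : ℝ)) := by
      unfold pw
      rw [prod_range_succ, ← mul_assoc, sg_mul]
    rw [e2]
    apply mul_nonpos_of_nonpos_of_nonneg _ (by positivity)
    apply mul_nonpos_of_nonneg_of_nonpos hcf.le
    push_cast
    linarith

lemma norm_sg (c : ℝ) (K : ℕ) (f : ℝ) (u : ℝ) (L : ℕ) :
    ‖∑ n ∈ range L, e (f * pw (sg c K) c 0 (u + n))‖ = ‖∑ n ∈ range L, e (f * (u + n) ^ c)‖ := by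
  have e1 : ∀ n : ℕ, pw (sg c K) c 0 (u + n) = sg c K * (u + n) ^ c := by
    intro n
    unfold pw
    simp
  simp only [e1]
  unfold sg
  split_ifs with h
  · simp only [one_mul]
  · rw [← norm_sum_neg]
    congr 1
    refine sum_congr rfl fun n _ => ?_
    congr 1
    ring

end Pool.Agent.Y933.KD.VdC
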