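import Pool.Agent.Y933.KD.VdC2

/-!
# Exponential sums with powers, in short intervals: the choice of the order (helper933)
-/

set_option autoImplicit false

namespace Pool.Agent.Y933.KD.VdC

open Finset Real Filter
open Pool.Agent.H469R2.NK (e norm_e e_add norm_sum_neg Cq Cq_pos)
open Pool.Agent.TH915.PW (Hy)

/-- the assertion for the order `K` -/
def Core (c μ : ℝ) (K : ℕ) (ρ δ : ℝ) (M0 : ℕ) : Prop :=
  ∀ M : ℕ, M0 ≤ M → ∀ (X Y f u : ℝ) (L : ℕ),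
      L ≤ M → 0 < X → X ≤ u → u + L ≤ Y → Y ≤ X * (M : ℝ) ^ δ → 0 < f →
      f * Y ^ (c - (K + 1)) ≤ (M : ℝ) ^ (-μ) →
      (M : ℝ) ^ (-((K : ℝ) + 1) + μ) ≤ f * Y ^ (c - (K + 1)) →
      ‖∑ n ∈ range L, e (f * (u + n) ^ c)‖ ≤ (M : ℝ) ^ (1 - ρ)

lemma core {c : ℝ} (hc : ∀ m : ℕ, c ≠ m) (K : ℕ) (hK : c < K + 1) (μ : ℝ)
    (hμ : 0 < μ) (hμ1 : μ ≤ 1 / 4) :
    ∃ ρ : ℝ, 0 < ρ ∧ ∃ δ : ℝ, 0 < δ ∧ ∃ M0 : ℕ, 1 ≤ M0 ∧ Core c μ K ρ δ M0 := by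
  rcases Nat.eq_zero_or_pos K with rfl | hK0
  · obtain ⟨ρ, h1, δ, h2, M0, h3⟩ := core_zero hc (by simpa using hK) μ hμ hμ1
    exact ⟨ρ, h1, δ, h2, max M0 1, le_max_right _ _, fun M hM => h3 M (le_of_max_le_left hM)⟩
  · obtain ⟨ρ, h1, δ, h2, M0, h3⟩ := core_succ hc K hK0 hK μ hμ hμ1
    exact ⟨ρ, h1, δ, h2, max M0 1, le_max_right _ _, fun M hM => h3 M (le_of_max_le_left hM)⟩

lemma core_mono {c μ : ℝ} {K : ℕ} {ρ δ ρ' δ' : ℝ} {M0 M0' : ℕ} (h0 : 1 ≤ M0)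
    (h : Core c μ K ρ δ M0) (hρ : ρ' ≤ ρ) (hδ : δ' ≤ δ) (hM : M0 ≤ M0') : Core c μ K ρ' δ' M0' := by
  intro M hM1 X Y f u L hL hX hu huL hY hf h1 h2
  have hMR : (1 : ℝ) ≤ M := by exact_mod_cast (by omega : 1 ≤ M)
  refine (h M (hM.trans hM1) X Y f u L hL hX hu huL (hY.trans ?_) hf h1 h2).trans ?_
  · gcongr
  · apply Real.rpow_le_rpow_of_exponent_le hMR
    linarith

lemma core_fin {c : ℝ} (hc : ∀ m : ℕ, c ≠ m) (μ : ℝ)
    (hμ : 0 < μ) (hμ1 : μ ≤ 1 / 4) (Kmax : ℕ) :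
    ∃ ρ : ℝ, 0 < ρ ∧ ∃ δ : ℝ, 0 < δ ∧ ∃ M0 : ℕ, 1 ≤ M0 ∧ ∀ K ≤ Kmax, c < K + 1 →
      Core c μ K ρ δ M0 := by
  induction Kmax with
  | zero =>
    by_cases h : c < (0 : ℕ) + 1
    · obtain ⟨ρ, h1, δ, h2, M0, h3, h4⟩ := core hc 0 h μ hμ hμ1
      refine ⟨ρ, h1, δ, h2, M0, h3, fun K hK _ => ?_⟩
      have : K = 0 := by omega
      rw [this]; exact h4
    · refine ⟨1, one_pos, 1, one_pos, 1, le_rfl, fun K hK hcK => ?_⟩
      have : K = 0 := by omega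
      rw [this] at hcK
      exact absurd hcK h
  | succ Km ih =>
    obtain ⟨ρ, h1, δ, h2, M0, h3, h4⟩ := ih
    by_cases h : c < (Km + 1 : ℕ) + 1
    · obtain ⟨ρ', h1', δ', h2', M0', h3', h4'⟩ := core hc (Km + 1) h μ hμ hμ1
      refine ⟨min ρ ρ', lt_min h1 h1', min δ δ', lt_min h2 h2', max M0 M0',
        h3.trans (le_max_left _ _), fun K hK hcK => ?_⟩
      rcases Nat.lt_or_ge K (Km + 1) with hlt | hge
      · exact core_mono h3 (h4 K (by omega) hcK) (min_le_left _ _) (min_le_left _ _)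
          (le_max_left _ _)
      · have : K = Km + 1 := by omega
        rw [this]
        exact core_mono h3' h4' (min_le_right _ _) (min_le_right _ _) (le_max_right _ _)
    · refine ⟨ρ, h1, δ, h2, M0, h3, fun K hK hcK => ?_⟩
      rcases Nat.lt_or_ge K (Km + 1) with hlt | hge
      · exact h4 K (by omega) hcK
      · have : K = Km + 1 := by omega
        rw [this] at hcK
        exact absurd hcK h

/-- the choice of the order -/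
lemma choose_order {c : ℝ} (A μ : ℝ) (hμ : 0 < μ) (hμ1 : μ ≤ 1 / 4) {M : ℕ}
    (hM : 2 ≤ M) {Y f : ℝ} (hMY : (M : ℝ) ≤ Y) (hY2 : Y ≤ (M : ℝ) ^ (2 - 4 * μ))
    (hYc : Y ^ (1 - c) ≤ (M : ℝ) ^ (1 - 4 * μ)) (hf1 : 1 ≤ f) (hfA : f ≤ (M : ℝ) ^ A) :
    ∃ K : ℕ, K ≤ ⌈A + c⌉₊ ∧ c < K + 1 ∧ f * Y ^ (c - (K + 1)) ≤ (M : ℝ) ^ (-μ) ∧
      (M : ℝ) ^ (-((K : ℝ) + 1) + μ) ≤ f * Y ^ (c - (K + 1)) := by
  classical
  have hMR : (2 : ℝ) ≤ M := by exact_mod_cast hM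
  have hM1 : (1 : ℝ) ≤ M := by linarith
  have hMp : (0 : ℝ) < M := by linarith
  have hY1 : 1 ≤ Y := by linarith
  have hYp : 0 < Y := by linarith
  have hA : 0 ≤ A := by
    by_contra hcon
    push Not at hcon
    have := Real.rpow_lt_one_of_one_lt_of_neg (by linarith : (1 : ℝ) < M) hcon
    linarith
  have hex : ∃ K : ℕ, c < K + 1 ∧ f * Y ^ (c - (K + 1)) ≤ (M : ℝ) ^ (-μ) := by
    refine ⟨⌈A + c⌉₊, ?_, ?_⟩
    · have := Nat.le_ceil (A + c)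
      linarith
    · have h1 := Nat.le_ceil (A + c)
      calc f * Y ^ (c - (((⌈A + c⌉₊ : ℕ) : ℝ) + 1))
          ≤ (M : ℝ) ^ A * (M : ℝ) ^ (c - (((⌈A + c⌉₊ : ℕ) : ℝ) + 1)) := by
            have h2 : Y ^ (c - (((⌈A + c⌉₊ : ℕ) : ℝ) + 1)) ≤
                (M : ℝ) ^ (c - (((⌈A + c⌉₊ : ℕ) : ℝ) + 1)) :=
              Real.rpow_le_rpow_of_nonpos hMp hMY (by linarith)
            gcongr
        _ = (M : ℝ) ^ (A + (c - (((⌈A + c⌉₊ : ℕ) : ℝ) + 1))) := by rw [← Real.rpow_add hMp]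
        _ ≤ (M : ℝ) ^ (-μ) := by
            apply Real.rpow_le_rpow_of_exponent_le hM1
            linarith
  set K := Nat.find hex with hKdef
  obtain ⟨hK1, hK2⟩ := Nat.find_spec hex
  have hKle : K ≤ ⌈A + c⌉₊ := by
    refine Nat.find_min' hex ⟨?_, ?_⟩
    · have := Nat.le_ceil (A + c)
      linarith
    · have h1 := Nat.le_ceil (A + c)
      calc f * Y ^ (c - (((⌈A + c⌉₊ : ℕ) : ℝ) + 1))
          ≤ (M : ℝ) ^ A * (M : ℝ) ^ (c - (((⌈A + c⌉₊ : ℕ) : ℝ) + 1)) := by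
            have h2 : Y ^ (c - (((⌈A + c⌉₊ : ℕ) : ℝ) + 1)) ≤
                (M : ℝ) ^ (c - (((⌈A + c⌉₊ : ℕ) : ℝ) + 1)) :=
              Real.rpow_le_rpow_of_nonpos hMp hMY (by linarith)
            gcongr
        _ = (M : ℝ) ^ (A + (c - (((⌈A + c⌉₊ : ℕ) : ℝ) + 1))) := by rw [← Real.rpow_add hMp]
        _ ≤ (M : ℝ) ^ (-μ) := by
            apply Real.rpow_le_rpow_of_exponent_le hM1
            linarith
  rw [← hKdef] at hK1 hK2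
  refine ⟨K, hKle, hK1, hK2, ?_⟩
  have hYinv : (M : ℝ) ^ (-(2 - 4 * μ)) ≤ Y ^ (-1 : ℝ) := by
    rw [Real.rpow_neg hMp.le, Real.rpow_neg_one]
    exact inv_anti₀ hYp hY2
  rcases Nat.eq_zero_or_pos K with hK0 | hKpos
  · rw [hK0]
    have h1 : Y ^ (c - (((0 : ℕ) : ℝ) + 1)) = (Y ^ (1 - c))⁻¹ := by
      rw [← Real.rpow_neg hYp.le]
      congr 1
      push_cast
      ring
    rw [h1]
    calc (M : ℝ) ^ (-(((0 : ℕ) : ℝ) + 1) + μ) ≤ (M : ℝ) ^ (-(1 - 4 * μ)) := by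
          apply Real.rpow_le_rpow_of_exponent_le hM1
          push_cast
          linarith
      _ = ((M : ℝ) ^ (1 - 4 * μ))⁻¹ := Real.rpow_neg hMp.le _
      _ ≤ (Y ^ (1 - c))⁻¹ := inv_anti₀ (by positivity) hYc
      _ = 1 * (Y ^ (1 - c))⁻¹ := (one_mul _).symm
      _ ≤ f * (Y ^ (1 - c))⁻¹ := by gcongr
  · have hKR : (1 : ℝ) ≤ K := by exact_mod_cast hKpos
    rcases le_or_gt (K : ℝ) c with hle | hgt
    · calc (M : ℝ) ^ (-((K : ℝ) + 1) + μ) ≤ (M : ℝ) ^ (-(2 - 4 * μ)) := by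
            apply Real.rpow_le_rpow_of_exponent_le hM1
            linarith
        _ ≤ Y ^ (-1 : ℝ) := hYinv
        _ ≤ Y ^ (c - ((K : ℝ) + 1)) := by
            apply Real.rpow_le_rpow_of_exponent_le hY1
            linarith
        _ = 1 * Y ^ (c - ((K : ℝ) + 1)) := (one_mul _).symm
        _ ≤ f * Y ^ (c - ((K : ℝ) + 1)) := by gcongr
    · have hmin := Nat.find_min hex (m := K - 1) (by omega)
      have hK' : ((K - 1 : ℕ) : ℝ) + 1 = K := by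
        rw [Nat.cast_sub hKpos]
        push_cast
        ring
      rw [hK'] at hmin
      push Not at hmin
      have h3 := hmin hgt
      have h4 : f * Y ^ (c - ((K : ℝ) + 1)) = f * Y ^ (c - (K : ℝ)) * Y ^ (-1 : ℝ) := by
        rw [mul_assoc, ← Real.rpow_add hYp]
        congr 2
        ring
      rw [h4]
      calc (M : ℝ) ^ (-((K : ℝ) + 1) + μ) ≤ (M : ℝ) ^ (-μ + -(2 - 4 * μ)) := by
            apply Real.rpow_le_rpow_of_exponent_le hM1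
            linarith
        _ = (M : ℝ) ^ (-μ) * (M : ℝ) ^ (-(2 - 4 * μ)) := Real.rpow_add hMp _ _
        _ ≤ f * Y ^ (c - (K : ℝ)) * Y ^ (-1 : ℝ) := by gcongr

lemma sum_Ioc_split (g : ℕ → ℂ) (N M J : ℕ) (hJ : J ≤ M) :
    ∑ m ∈ Ioc N (N + M), g m = ∑ m ∈ Ioc N (N + J), g m + ∑ n ∈ range (M - J), g (N + J + 1 + n) := by
  have h1 : ∀ a b : ℕ, ∑ m ∈ Ioc a (a + b), g m = ∑ n ∈ range b, g (a + 1 + n) := by
    intro a b
    induction b with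
    | zero => simp
    | succ b ih =>
      rw [sum_range_succ, ← ih, ← Nat.add_assoc, Finset.sum_Ioc_succ_top (by omega)]
      congr 2
      omega
  rw [h1, h1]
  obtain ⟨T, rfl⟩ := Nat.exists_eq_add_of_le hJ
  rw [Nat.add_sub_cancel_left, sum_range_add]
  congr 1
  refine sum_congr rfl fun n _ => ?_
  congr 1
  omega

/-- **exponential sums with powers in short intervals** -/
theorem pow_sum {c : ℝ} (hc : ∀ m : ℕ, c ≠ m) (A μ : ℝ) (hμ : 0 < μ)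
    (hμ1 : μ ≤ 1 / 4) :
    ∃ ρ : ℝ, 0 < ρ ∧ ∃ M0 : ℕ, ∀ M : ℕ, M0 ≤ M → ∀ N : ℕ,
      (N : ℝ) + M + 1 ≤ (M : ℝ) ^ (2 - 4 * μ) → ((N : ℝ) + M + 1) ^ (1 - c) ≤ (M : ℝ) ^ (1 - 4 * μ) →
      ∀ f : ℝ, 1 ≤ f → f ≤ (M : ℝ) ^ A →
      ‖∑ m ∈ Ioc N (N + M), e (f * (m : ℝ) ^ c)‖ ≤ (M : ℝ) ^ (1 - ρ) := by
  obtain ⟨ρ, hρ, δ, hδ, M1, hM1, hcore⟩ := core_fin hc μ hμ hμ1 ⌈A + c⌉₊
  set δ' : ℝ := min δ 1 with hδ'
  have hδ'0 : 0 < δ' := lt_min hδ one_pos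
  have hδ'1 : δ' ≤ 1 := min_le_right _ _
  set r : ℝ := min ρ (δ' / 2) with hr
  have hr0 : 0 < r := lt_min hρ (by positivity)
  obtain ⟨M2, hM2⟩ := eventually_atTop.1 ((ev_le 3 (δ' / 2) (by positivity)).and
    (ev_le 3 (r / 2) (by positivity)))
  refine ⟨r / 2, by positivity, max (max M1 M2) 2, ?_⟩
  intro M hM N hN1 hN2 f hf1 hfA
  have hMM1 : M1 ≤ M := le_of_max_le_left (le_of_max_le_left hM)
  have hMM2 : M2 ≤ M := le_of_max_le_right (le_of_max_le_left hM)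
  have hM2' : 2 ≤ M := le_of_max_le_right hM
  obtain ⟨hM3, hM4⟩ := hM2 M hMM2
  have hMR : (2 : ℝ) ≤ M := by exact_mod_cast hM2'
  have hM1' : (1 : ℝ) ≤ M := by linarith
  have hMp : (0 : ℝ) < M := by linarith
  have hN0 : (0 : ℝ) ≤ N := Nat.cast_nonneg N
  obtain ⟨K, hKle, hcK, hup, hlow⟩ := choose_order A μ hμ hμ1 hM2'
    (by linarith : (M : ℝ) ≤ (N : ℝ) + M + 1) hN1 hN2 hf1 hfA
  set J : ℕ := ⌈(M : ℝ) ^ (1 - δ' / 2)⌉₊ with hJ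
  have hJ1 : (M : ℝ) ^ (1 - δ' / 2) ≤ J := Nat.le_ceil _
  have hJ2 : (J : ℝ) < (M : ℝ) ^ (1 - δ' / 2) + 1 := Nat.ceil_lt_add_one (by positivity)
  have hJM : J ≤ M := by
    refine Nat.ceil_le.2 ?_
    calc (M : ℝ) ^ (1 - δ' / 2) ≤ (M : ℝ) ^ (1 : ℝ) :=
          Real.rpow_le_rpow_of_exponent_le hM1' (by linarith)
      _ = M := Real.rpow_one _
  have hJpos : (0 : ℝ) < J := lt_of_lt_of_le (by positivity) hJ1
  have hX : (0 : ℝ) < N + J := by linarith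
  have hcast : ((M - J : ℕ) : ℝ) = (M : ℝ) - J := Nat.cast_sub hJM
  have hmain := hcore K hKle hcK M hMM1 ((N : ℝ) + J) ((N : ℝ) + M + 1) f ((N : ℝ) + J + 1) (M - J)
    (Nat.sub_le _ _) hX (by linarith) (by rw [hcast]; linarith) (by
      have h1 : (M : ℝ) ^ δ' ≤ (M : ℝ) ^ δ :=
        Real.rpow_le_rpow_of_exponent_le hM1' (min_le_left _ _)
      have h2 : (M : ℝ) * (M : ℝ) ^ (δ' / 2) = (M : ℝ) ^ (1 - δ' / 2) * (M : ℝ) ^ δ' := by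
        nth_rewrite 1 [← Real.rpow_one (M : ℝ)]
        rw [← Real.rpow_add hMp, ← Real.rpow_add hMp]
        congr 1
        ring
      have h3 : 3 ≤ (M : ℝ) ^ δ' := hM3.trans
        (Real.rpow_le_rpow_of_exponent_le hM1' (by linarith))
      calc (N : ℝ) + M + 1 ≤ N * 3 + M * 3 := by linarith
        _ ≤ N * (M : ℝ) ^ δ' + M * (M : ℝ) ^ (δ' / 2) := by gcongr
        _ = N * (M : ℝ) ^ δ' + (M : ℝ) ^ (1 - δ' / 2) * (M : ℝ) ^ δ' := by rw [h2]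
        _ ≤ N * (M : ℝ) ^ δ' + J * (M : ℝ) ^ δ' := by gcongr
        _ = (N + J) * (M : ℝ) ^ δ' := by ring
        _ ≤ (N + J) * (M : ℝ) ^ δ := by gcongr) (by linarith) hup hlow
  rw [sum_Ioc_split _ N M J hJM]
  refine (norm_add_le _ _).trans ?_
  have h1 : ‖∑ m ∈ Ioc N (N + J), e (f * (m : ℝ) ^ c)‖ ≤ J := by
    refine (norm_sum_le _ _).trans ?_
    simp [norm_e]
  have h2 : ‖∑ n ∈ range (M - J), e (f * ((N + J + 1 + n : ℕ) : ℝ) ^ c)‖ ≤ (M : ℝ) ^ (1 - ρ) := by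
    refine le_trans (le_of_eq ?_) hmain
    congr 1
    refine sum_congr rfl fun n _ => ?_
    push_cast
    ring_nf
  have h3 : (M : ℝ) ^ (1 - δ' / 2) ≤ (M : ℝ) ^ (1 - r) := by
    apply Real.rpow_le_rpow_of_exponent_le hM1'
    have := min_le_right ρ (δ' / 2)
    linarith
  have h4 : (M : ℝ) ^ (1 - ρ) ≤ (M : ℝ) ^ (1 - r) := by
    apply Real.rpow_le_rpow_of_exponent_le hM1'
    have := min_le_left ρ (δ' / 2)
    linarith
  have h5 : 1 ≤ (M : ℝ) ^ (1 - r) := by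
    apply Real.one_le_rpow hM1'
    have := min_le_right ρ (δ' / 2)
    linarith
  calc ‖∑ m ∈ Ioc N (N + J), e (f * (m : ℝ) ^ c)‖ +
        ‖∑ n ∈ range (M - J), e (f * ((N + J + 1 + n : ℕ) : ℝ) ^ c)‖
      ≤ ((M : ℝ) ^ (1 - δ' / 2) + 1) + (M : ℝ) ^ (1 - ρ) := by linarith
    _ ≤ 3 * (M : ℝ) ^ (1 - r) := by linarith
    _ ≤ (M : ℝ) ^ (r / 2) * (M : ℝ) ^ (1 - r) := by gcongr
    _ = (M : ℝ) ^ (1 - r / 2) := by
        rw [← Real.rpow_add hMp]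
        congr 1
        ring

end Pool.Agent.Y933.KD.VdC
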